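import Mathlib

set_option autoImplicit false

namespace Pool.Agent.Lib.MP_233400_co

/-- The hypercube `Q_n`: vertices are the 0/1-vectors of length `n`, two of them are adjacent
iff they differ in exactly one coordinate. -/
def Q (n : ℕ) : SimpleGraph (Fin n → Bool) where
  Adj x y := ∃! i, x i ≠ y i
  symm := ⟨by
    intro x y h
    obtain ⟨i, hi, hu⟩ := h
    exact ⟨i, fun h => hi h.symm, fun j hj => hu j fun h => hj h.symm⟩⟩
  loopless := ⟨by
    intro x h
    obtain ⟨i, hi, -⟩ := h
    exact hi rfl⟩

/-- `c` is a proper edge colouring of `H`: two distinct edges of `H` sharing the vertex `x`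
get different colours. (Only the values of `c` on edges of `H` matter.) -/
def ProperColouring {V : Type*} (H : SimpleGraph V) (c : Sym2 V → ℕ) : Prop :=
  ∀ x y z : V, H.Adj x y → H.Adj x z → y ≠ z → c s(x, y) ≠ c s(x, z)

/-- `H`, coloured by `c`, has a rainbow copy of `F`: there is an injective map of the vertices of
`F` to those of `H` that sends edges to edges such that the images of distinct edges of `F` have
distinct colours. -/
def HasRainbowCopy {V W : Type*} (H : SimpleGraph V) (c : Sym2 V → ℕ) (F : SimpleGraph W) :
    Prop :=
  ∃ f : W → V, Function.Injective f ∧ (∀ a b, F.Adj a b → H.Adj (f a) (f b)) ∧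
    Set.InjOn (fun e : Sym2 W => c (e.map f)) F.edgeSet

/-- The relative rainbow extremal number `ex*(G, F)`: the largest number of edges of a subgraph
`H` of `G` that has a proper edge colouring without a rainbow copy of `F`. -/
noncomputable def exStar {V W : Type*} (G : SimpleGraph V) (F : SimpleGraph W) : ℕ :=
  sSup {m | ∃ H : SimpleGraph V, H ≤ G ∧ H.edgeSet.ncard = m ∧
    ∃ c : Sym2 V → ℕ, ProperColouring H c ∧ ¬ HasRainbowCopy H c F}

end Pool.Agent.Lib.MP_233400_co
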