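import Mathlib
import Pool.Agent.Lib.MP_233400_co.Defs

set_option autoImplicit false

namespace Pool.Agent.Lib.MP_233400_co

open Finset

/-- a tree, rooted at `r`: parent map and levels -/
lemma exists_parent {W : Type*} {T : SimpleGraph W} (hT : T.IsTree) (r : W) :
    ∃ par : W → W, (∀ v, v ≠ r → T.Adj (par v) v ∧ T.dist r (par v) + 1 = T.dist r v) ∧
      (∀ u v, T.Adj u v → (v ≠ r ∧ par v = u) ∨ (u ≠ r ∧ par u = v)) := by
  classical
  have hconn := hT.connected
  -- uniqueness of the parent
  have huniq : ∀ v u w, T.Adj u v → T.Adj w v → T.dist r u + 1 = T.dist r v →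
      T.dist r w + 1 = T.dist r v → u = w := by
    intro v u w huv hwv hu hw
    obtain ⟨p, hp, hpl⟩ := (hconn r u).exists_path_of_dist
    obtain ⟨q, hq, hql⟩ := (hconn r w).exists_path_of_dist
    have key : ∀ (z : W) (p : T.Walk r z), p.IsPath → p.length = T.dist r z →
        T.dist r z + 1 = T.dist r v → v ∉ p.support := by
      intro z p hp hpl hz hv
      have h1 : T.dist r v ≤ (p.takeUntil v hv).length := SimpleGraph.dist_le _
      have h2 : (p.takeUntil v hv).length ≤ p.length := SimpleGraph.Walk.length_takeUntil_le_length _ hv
      omega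
    have hpv := key u p hp hpl hu
    have hqv := key w q hq hql hw
    have h1 := hp.concat hpv huv
    have h2 := hq.concat hqv hwv
    have h3 : p.concat huv = q.concat hwv := by
      have := (hT.existsUnique_path r v).unique h1 h2
      exact this
    have h4 : (p.concat huv).penultimate = (q.concat hwv).penultimate := by rw [h3]
    simpa using h4
  have hex : ∀ v, v ≠ r → ∃ u, T.Adj u v ∧ T.dist r u + 1 = T.dist r v := by
    intro v hv
    obtain ⟨p, hp, hpl⟩ := (hconn v r).exists_path_of_dist
    cases p with
    | nil => exact absurd rfl hv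
    | cons h q =>
      rename_i u
      refine ⟨u, h.symm, ?_⟩
      rw [SimpleGraph.Walk.length_cons] at hpl
      have h1 : T.dist u r ≤ q.length := SimpleGraph.dist_le _
      have h2 := hT.dist_eq_dist_add_one_of_adj r h
      rw [SimpleGraph.dist_comm] at hpl h1
      omega
  refine ⟨fun v => if hv : v ≠ r then (hex v hv).choose else r, ?_, ?_⟩
  · intro v hv
    simp only [dif_pos hv]
    exact (hex v hv).choose_spec
  · intro u v huv
    rcases hT.dist_eq_dist_add_one_of_adj r huv with h | h
    · right
      have hu : u ≠ r := by
        rintro rfl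
        simp at h
      refine ⟨hu, ?_⟩
      simp only [dif_pos hu]
      have hs := (hex u hu).choose_spec
      exact huniq u _ v hs.1 huv.symm hs.2 h.symm
    · left
      have hv : v ≠ r := by
        rintro rfl
        simp at h
      refine ⟨hv, ?_⟩
      simp only [dif_pos hv]
      have hs := (hex v hv).choose_spec
      exact huniq v _ u hs.1 huv hs.2 h.symm

end Pool.Agent.Lib.MP_233400_co
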