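import Mathlib
import Pool.Agent.Lib.MP_233400_co.Defs

set_option autoImplicit false

namespace Pool.Agent.Lib.MP_233400_co

open Finset

section exStar

variable {V W : Type*} {G : SimpleGraph V} {F : SimpleGraph W}

lemma exStar_le [Finite V] {m : ℕ}
    (h : ∀ H : SimpleGraph V, H ≤ G → ∀ c : Sym2 V → ℕ, ProperColouring H c →
      ¬ HasRainbowCopy H c F → H.edgeSet.ncard ≤ m) : exStar G F ≤ m := by
  unfold exStar
  rcases Set.eq_empty_or_nonempty {m | ∃ H : SimpleGraph V, H ≤ G ∧ H.edgeSet.ncard = m ∧
    ∃ c : Sym2 V → ℕ, ProperColouring H c ∧ ¬ HasRainbowCopy H c F} with h0 | h0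
  · rw [h0]; simp
  · apply csSup_le h0
    rintro _ ⟨H, hH, rfl, c, hc, hr⟩
    exact h H hH c hc hr

lemma le_exStar [Finite V] {H : SimpleGraph V} (hH : H ≤ G) {c : Sym2 V → ℕ}
    (hc : ProperColouring H c) (hr : ¬ HasRainbowCopy H c F) :
    H.edgeSet.ncard ≤ exStar G F := by
  unfold exStar
  apply le_csSup
  · refine ⟨G.edgeSet.ncard, ?_⟩
    rintro _ ⟨H', hH', rfl, -⟩
    exact Set.ncard_le_ncard (SimpleGraph.edgeSet_mono hH') (Set.toFinite _)
  · exact ⟨H, hH, rfl, c, hc, hr⟩

end exStar

/-- neighbours in a set -/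
noncomputable def nb {V : Type*} (H : SimpleGraph V) (S : Finset V) (v : V) : Finset V :=
  open Classical in S.filter (fun w => H.Adj v w)

lemma mem_nb {V : Type*} {H : SimpleGraph V} {S : Finset V} {v w : V} :
    w ∈ nb H S v ↔ w ∈ S ∧ H.Adj v w := by
  classical
  unfold nb; simp

lemma sum_nb_univ {V : Type*} [Fintype V] (H : SimpleGraph V) :
    ∑ v, (nb H Finset.univ v).card = 2 * H.edgeSet.ncard := by
  classical
  have := H.sum_degrees_eq_twice_card_edges
  rw [← SimpleGraph.coe_edgeFinset, Set.ncard_coe_finset, ← this]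
  apply Finset.sum_congr rfl
  intro v _
  rw [← SimpleGraph.card_neighborFinset_eq_degree]
  congr 1
  ext w
  simp [mem_nb]

/-- Pruning: a graph of average degree more than `D` has a nonempty vertex set inducing a
subgraph of average degree more than `D` and minimum degree more than `D / 2`. -/
lemma exists_core {V : Type*} [Fintype V] (H : SimpleGraph V) (D : ℝ)
    (hD : D * Fintype.card V < 2 * H.edgeSet.ncard) :
    ∃ S : Finset V, D * S.card < ∑ v ∈ S, ((nb H S v).card : ℝ) ∧
      ∀ v ∈ S, D < 2 * ((nb H S v).card : ℝ) := by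
  classical
  have huniv : D * (Finset.univ : Finset V).card <
      ∑ v ∈ (Finset.univ : Finset V), ((nb H Finset.univ v).card : ℝ) := by
    have := sum_nb_univ H
    have h2 : (∑ v, ((nb H Finset.univ v).card : ℝ)) = 2 * H.edgeSet.ncard := by
      exact_mod_cast this
    rw [h2]; simpa using hD
  -- take a minimal such set
  obtain ⟨S, hS⟩ := Set.Finite.exists_minimal
    (Set.toFinite {S : Finset V | D * S.card < ∑ v ∈ S, ((nb H S v).card : ℝ)})
    ⟨Finset.univ, huniv⟩
  refine ⟨S, hS.prop, fun v hv => ?_⟩
  by_contra hcon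
  push Not at hcon
  have hmem : (S.erase v) ∈ {S : Finset V | D * S.card < ∑ v ∈ S, ((nb H S v).card : ℝ)} := by
    simp only [Set.mem_ofPred_eq]
    have hcard : ((S.erase v).card : ℝ) = S.card - 1 := by
      rw [Finset.card_erase_of_mem hv]
      have : 1 ≤ S.card := Finset.card_pos.mpr ⟨v, hv⟩
      push_cast [this]; ring
    have h1 : ∀ u ∈ S.erase v, ((nb H (S.erase v) u).card : ℝ) =
        (nb H S u).card - (if H.Adj v u then 1 else 0) := by
      intro u hu
      have : nb H (S.erase v) u = (nb H S u).erase v := by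
        ext w
        simp only [mem_nb, Finset.mem_erase]
        tauto
      rw [this]
      by_cases huv : H.Adj v u
      · have hm : v ∈ nb H S u := mem_nb.mpr ⟨hv, huv.symm⟩
        rw [Finset.card_erase_of_mem hm, if_pos huv]
        have : 1 ≤ (nb H S u).card := Finset.card_pos.mpr ⟨v, hm⟩
        push_cast [this]; ring
      · have hm : v ∉ nb H S u := fun h => huv (mem_nb.mp h).2.symm
        rw [Finset.erase_eq_of_notMem hm, if_neg huv]; ring
    have h2 : ∑ u ∈ S.erase v, (if H.Adj v u then (1 : ℝ) else 0) = (nb H S v).card := by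
      rw [Finset.sum_ite, Finset.sum_const_zero, add_zero, Finset.sum_const, nsmul_eq_mul, mul_one]
      congr 2
      ext w
      simp only [mem_nb, Finset.mem_filter, Finset.mem_erase]
      constructor
      · rintro ⟨⟨-, h⟩, h'⟩; exact ⟨h, h'⟩
      · rintro ⟨h, h'⟩; exact ⟨⟨h'.ne', h⟩, h'⟩
    have h3 : ∑ u ∈ S, ((nb H S u).card : ℝ) =
        ∑ u ∈ S.erase v, ((nb H S u).card : ℝ) + (nb H S v).card := by
      rw [Finset.sum_erase_add _ _ hv]
    rw [Finset.sum_congr rfl h1, Finset.sum_sub_distrib, h2, hcard]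
    have := hS.prop
    simp only [Set.mem_ofPred_eq] at this
    rw [h3] at this
    linarith
  have hle := hS.le_of_le hmem (Finset.erase_subset v S)
  exact Finset.notMem_erase v S (hle hv)

lemma exists_large_of_core {V : Type*} (H : SimpleGraph V) (D : ℝ) (S : Finset V)
    (h : D * S.card < ∑ v ∈ S, ((nb H S v).card : ℝ)) :
    ∃ v ∈ S, D < ((nb H S v).card : ℝ) := by
  by_contra hcon
  push Not at hcon
  have : ∑ v ∈ S, ((nb H S v).card : ℝ) ≤ ∑ v ∈ S, D := Finset.sum_le_sum hcon
  rw [Finset.sum_const, nsmul_eq_mul] at this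
  linarith

section cube

variable {n : ℕ}

/-- flip one coordinate -/
def flip (x : Fin n → Bool) (i : Fin n) : Fin n → Bool := Function.update x i (!x i)

lemma flip_apply_self (x : Fin n → Bool) (i : Fin n) : flip x i i = !x i := by simp [flip]

lemma flip_apply_ne (x : Fin n → Bool) {i j : Fin n} (h : j ≠ i) : flip x i j = x j := by
  simp [flip, h]

lemma Q_adj_iff {x y : Fin n → Bool} : (Q n).Adj x y ↔ ∃ i, y = flip x i := by
  constructor
  · rintro ⟨i, hi, hu⟩
    refine ⟨i, ?_⟩
    ext j
    by_cases hj : j = i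
    · subst hj
      rw [flip_apply_self]
      cases hx : x j <;> cases hy : y j <;> simp_all
    · rw [flip_apply_ne x hj]
      by_contra h
      exact hj (hu j fun h' => h (by rw [h']))
  · rintro ⟨i, rfl⟩
    refine ⟨i, ?_, fun j hj => ?_⟩
    · simp [flip_apply_self]
    · by_contra h
      exact hj (by simp [flip_apply_ne x h])

lemma flip_injective (x : Fin n → Bool) : Function.Injective (flip x) := by
  intro i j h
  by_contra hne
  have := congrFun h i
  rw [flip_apply_self, flip_apply_ne x hne] at this
  simp at this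

/-- two distinct vertices of the cube have at most two common neighbours -/
lemma Q_codeg {x y : Fin n → Bool} (hxy : x ≠ y) (A : Finset (Fin n → Bool))
    (hA : ∀ w ∈ A, (Q n).Adj x w ∧ (Q n).Adj y w) : A.card ≤ 2 := by
  classical
  obtain ⟨p, hp⟩ : ∃ p, x p ≠ y p := by
    by_contra h
    push Not at h
    exact hxy (funext h)
  have hsub : A ⊆ {flip x p, flip y p} := by
    intro w hw
    obtain ⟨h1, h2⟩ := hA w hw
    obtain ⟨i, hi⟩ := Q_adj_iff.mp h1
    obtain ⟨j, hj⟩ := Q_adj_iff.mp h2
    simp only [Finset.mem_insert, Finset.mem_singleton]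
    by_cases h1 : i = p
    · left; rw [hi, h1]
    · by_cases h2 : j = p
      · right; rw [hj, h2]
      · exfalso
        apply hp
        have e1 : w p = x p := by rw [hi, flip_apply_ne x (Ne.symm h1)]
        have e2 : w p = y p := by rw [hj, flip_apply_ne y (Ne.symm h2)]
        rw [← e1, e2]
  calc A.card ≤ ({flip x p, flip y p} : Finset _).card := Finset.card_le_card hsub
    _ ≤ 2 := Finset.card_le_two

lemma Q_deg (x : Fin n → Bool) (A : Finset (Fin n → Bool))
    (hA : ∀ w ∈ A, (Q n).Adj x w) : A.card ≤ n := by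
  classical
  have hsub : A ⊆ Finset.univ.image (flip x) := by
    intro w hw
    obtain ⟨i, hi⟩ := Q_adj_iff.mp (hA w hw)
    simp only [Finset.mem_image, Finset.mem_univ, true_and]
    exact ⟨i, hi.symm⟩
  calc A.card ≤ (Finset.univ.image (flip x)).card := Finset.card_le_card hsub
    _ ≤ (Finset.univ : Finset (Fin n)).card := Finset.card_image_le
    _ = n := by simp

/-- parity: the cube has no odd closed structure; `par x` is the parity of the number of ones -/
def parity (x : Fin n → Bool) : Bool := (Finset.univ.filter (fun i => x i = true)).card % 2 = 1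

lemma parity_flip (x : Fin n → Bool) (i : Fin n) : parity (flip x i) = !parity x := by
  classical
  unfold parity
  by_cases h : x i = true
  · have : (Finset.univ.filter (fun j => x j = true)) =
        insert i (Finset.univ.filter (fun j => flip x i j = true)) := by
      ext j
      by_cases hj : j = i
      · subst hj; simp [h]
      · simp [flip_apply_ne x hj, hj]
    rw [this, Finset.card_insert_of_notMem (by simp [flip_apply_self, h])]
    rcases Nat.mod_two_eq_zero_or_one
      (Finset.univ.filter (fun j => flip x i j = true)).card with h0 | h0 <;>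
      simp [Nat.add_mod, h0]
  · have : (Finset.univ.filter (fun j => flip x i j = true)) =
        insert i (Finset.univ.filter (fun j => x j = true)) := by
      ext j
      by_cases hj : j = i
      · subst hj; simp [h, flip_apply_self]
      · simp [flip_apply_ne x hj, hj]
    rw [this, Finset.card_insert_of_notMem (by simp [h])]
    rcases Nat.mod_two_eq_zero_or_one
      (Finset.univ.filter (fun j => x j = true)).card with h0 | h0 <;>
      simp [Nat.add_mod, h0]

lemma Q_adj_parity {x y : Fin n → Bool} (h : (Q n).Adj x y) : parity y = !parity x := by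
  obtain ⟨i, rfl⟩ := Q_adj_iff.mp h
  exact parity_flip x i

/-- the subgraph of the first `d` directions -/
def dirGraph (n d : ℕ) : SimpleGraph (Fin n → Bool) where
  Adj x y := ∃ i : Fin n, i.val < d ∧ y = flip x i
  symm := ⟨by
    rintro x y ⟨i, hi, rfl⟩
    refine ⟨i, hi, ?_⟩
    ext j
    by_cases hj : j = i
    · subst hj; simp [flip_apply_self]
    · rw [flip_apply_ne _ hj, flip_apply_ne _ hj]⟩
  loopless := ⟨by
    rintro x ⟨i, -, h⟩
    have := congrFun h i
    rw [flip_apply_self] at this
    simp at this⟩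

lemma dirGraph_le (n d : ℕ) : dirGraph n d ≤ Q n := by
  rintro x y ⟨i, -, h⟩
  exact Q_adj_iff.mpr ⟨i, h⟩

/-- the colouring by directions -/
def dirCol (n : ℕ) : Sym2 (Fin n → Bool) → ℕ :=
  Sym2.lift ⟨fun x y => ∑ i : Fin n, if x i ≠ y i then i.val else 0, by
    intro x y
    apply Finset.sum_congr rfl
    intro i _
    by_cases h : x i = y i
    · simp [h]
    · simp [h, Ne.symm h]⟩

lemma dirCol_flip (x : Fin n → Bool) (i : Fin n) : dirCol n s(x, flip x i) = i.val := by
  unfold dirCol
  rw [Sym2.lift_mk]
  simp only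
  rw [Finset.sum_eq_single i]
  · rw [if_pos]; rw [flip_apply_self]; simp
  · intro j _ hj
    rw [if_neg]; rw [flip_apply_ne x hj]; simp
  · simp

lemma dirCol_proper (n d : ℕ) : ProperColouring (dirGraph n d) (dirCol n) := by
  rintro x y z ⟨i, -, rfl⟩ ⟨j, -, rfl⟩ hne
  rw [dirCol_flip, dirCol_flip]
  intro h
  exact hne (by rw [Fin.ext h])

lemma dirGraph_edges {d : ℕ} (hd : d ≤ n) : 2 * (dirGraph n d).edgeSet.ncard = d * 2 ^ n := by
  classical
  rw [← sum_nb_univ]
  have : ∀ v : Fin n → Bool, (nb (dirGraph n d) Finset.univ v).card = d := by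
    intro v
    have : nb (dirGraph n d) Finset.univ v =
        (Finset.univ.filter (fun i : Fin n => i.val < d)).image (flip v) := by
      ext w
      simp only [mem_nb, Finset.mem_univ, true_and, Finset.mem_image, Finset.mem_filter]
      constructor
      · rintro ⟨i, hi, rfl⟩; exact ⟨i, hi, rfl⟩
      · rintro ⟨i, hi, rfl⟩; exact ⟨i, hi, rfl⟩
    rw [this, Finset.card_image_of_injective _ (flip_injective v)]
    rw [Fin.card_filter_val_lt]
    exact min_eq_right hd
  rw [Finset.sum_congr rfl (fun v _ => this v)]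
  simp [mul_comm]

lemma dir_no_rainbow {W : Type*} {F : SimpleGraph W} {k d : ℕ}
    (hF : F.edgeSet.ncard = k) (hd : d < k) : ¬ HasRainbowCopy (dirGraph n d) (dirCol n) F := by
  classical
  rintro ⟨f, -, hadj, hinj⟩
  have hmaps : Set.MapsTo (fun e : Sym2 W => dirCol n (e.map f)) F.edgeSet (Set.Iio d) := by
    intro e he
    induction e using Sym2.ind with
    | _ a b =>
      have h := hadj a b he
      obtain ⟨i, hi, hb⟩ := h
      simp only [Sym2.map_mk, Set.mem_Iio]
      show dirCol n s(f a, f b) < d
      rw [hb, dirCol_flip]; exact hi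
  have := Set.ncard_le_ncard_of_injOn _ hmaps hinj (Set.finite_Iio d)
  rw [hF] at this
  have h2 : (Set.Iio d).ncard = d := by
    rw [← Finset.coe_Iio, Set.ncard_coe_finset]; simp
  omega

lemma Q_edges (n : ℕ) : 2 * (Q n).edgeSet.ncard = n * 2 ^ n := by
  have : Q n = dirGraph n n := by
    apply le_antisymm
    · intro x y h
      obtain ⟨i, hi⟩ := Q_adj_iff.mp h
      exact ⟨i, i.isLt, hi⟩
    · exact dirGraph_le n n
  rw [this]; exact dirGraph_edges le_rfl

/-- the common lower bound -/
lemma lower_bound {W : Type*} {F : SimpleGraph W} {k : ℕ} (hk : 1 ≤ k)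
    (hF : F.edgeSet.ncard = k) (n : ℕ) :
    min (k - 1) n * 2 ^ n ≤ 2 * exStar (Q n) F := by
  have h1 := dirGraph_edges (n := n) (d := min (k - 1) n) (min_le_right _ _)
  rw [← h1]
  have := le_exStar (dirGraph_le n (min (k-1) n)) (dirCol_proper n _)
    (dir_no_rainbow (n := n) hF (d := min (k-1) n) (by omega))
  omega

end cube

/-- the star -/
lemma star_edges (k : ℕ) : (completeBipartiteGraph (Fin 1) (Fin k)).edgeSet.ncard = k := by
  classical
  have h : (completeBipartiteGraph (Fin 1) (Fin k)).edgeSet =
      Set.range (fun j : Fin k => (s(Sum.inl 0, Sum.inr j) : Sym2 (Fin 1 ⊕ Fin k))) := by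
    ext e
    induction e using Sym2.ind with
    | _ a b =>
      rw [SimpleGraph.mem_edgeSet, completeBipartiteGraph_adj]
      simp only [Set.mem_range]
      constructor
      · rintro (⟨ha, hb⟩ | ⟨ha, hb⟩)
        · rcases a with a | a <;> simp at ha
          rcases b with b | b <;> simp at hb
          exact ⟨b, by rw [Subsingleton.elim a 0]⟩
        · rcases a with a | a <;> simp at ha
          rcases b with b | b <;> simp at hb
          exact ⟨a, by rw [Subsingleton.elim b 0, Sym2.eq_swap]⟩
      · rintro ⟨j, hj⟩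
        rw [Sym2.eq_iff] at hj
        rcases hj with ⟨rfl, rfl⟩ | ⟨rfl, rfl⟩ <;> simp
  rw [h, ← Set.image_univ, Set.ncard_image_of_injective _ (by
    intro i j hij
    simp only [Sym2.eq_iff] at hij
    rcases hij with ⟨-, h⟩ | ⟨h, -⟩
    · exact Sum.inr_injective h
    · cases h)]
  simp

/-- large degree gives a rainbow star -/
lemma star_rainbow {V : Type*} {H : SimpleGraph V} {c : Sym2 V → ℕ} (hc : ProperColouring H c)
    {k : ℕ} {x : V} {A : Finset V} (hA : ∀ w ∈ A, H.Adj x w) (hk : k ≤ A.card) :
    HasRainbowCopy H c (completeBipartiteGraph (Fin 1) (Fin k)) := by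
  classical
  obtain ⟨B, hB, hcard⟩ := Finset.exists_subset_card_eq hk
  obtain ⟨g⟩ : Nonempty (Fin k ≃ B) := ⟨(Fintype.equivFinOfCardEq (by simp [hcard])).symm⟩
  refine ⟨Sum.elim (fun _ => x) (fun j => (g j : V)), ?_, ?_, ?_⟩
  · rintro (a | a) (b | b) hab
    · rw [Subsingleton.elim a b]
    · exfalso
      simp only [Sum.elim_inl, Sum.elim_inr] at hab
      exact (hA _ (hB (g b).2)).ne hab
    · exfalso
      simp only [Sum.elim_inl, Sum.elim_inr] at hab
      exact (hA _ (hB (g a).2)).ne hab.symm
    · simp only [Sum.elim_inr] at hab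
      rw [g.injective (Subtype.ext hab)]
  · intro a b hab
    rw [completeBipartiteGraph_adj] at hab
    rcases hab with ⟨ha, hb⟩ | ⟨ha, hb⟩
    · rcases a with a | a <;> simp at ha
      rcases b with b | b <;> simp at hb
      exact hA _ (hB (g b).2)
    · rcases a with a | a <;> simp at ha
      rcases b with b | b <;> simp at hb
      exact (hA _ (hB (g a).2)).symm
  · have key : ∀ e ∈ (completeBipartiteGraph (Fin 1) (Fin k)).edgeSet,
        ∃ j : Fin k, e = s(Sum.inl 0, Sum.inr j) := by
      intro e he
      induction e using Sym2.ind with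
      | _ a b =>
        rw [SimpleGraph.mem_edgeSet, completeBipartiteGraph_adj] at he
        rcases he with ⟨ha, hb⟩ | ⟨ha, hb⟩
        · rcases a with a | a <;> simp at ha
          rcases b with b | b <;> simp at hb
          exact ⟨b, by rw [Subsingleton.elim a 0]⟩
        · rcases a with a | a <;> simp at ha
          rcases b with b | b <;> simp at hb
          exact ⟨a, by rw [Subsingleton.elim b 0, Sym2.eq_swap]⟩
    intro e he e' he' hee
    obtain ⟨i, rfl⟩ := key e he
    obtain ⟨j, rfl⟩ := key e' he'
    simp only [Sym2.map_mk] at hee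
    by_contra hne
    have hij : i ≠ j := fun h => hne (by rw [h])
    refine hc x (g i) (g j) (hA _ (hB (g i).2)) (hA _ (hB (g j).2)) ?_ hee
    intro h
    exact hij (g.injective (Subtype.ext h))

/-- the value for the star -/
lemma star_value {k : ℕ} (hk : 1 ≤ k) (n : ℕ) :
    2 * exStar (Q n) (completeBipartiteGraph (Fin 1) (Fin k)) = min (k - 1) n * 2 ^ n := by
  classical
  apply le_antisymm
  · have : exStar (Q n) (completeBipartiteGraph (Fin 1) (Fin k)) ≤ (min (k - 1) n * 2 ^ n) / 2 := by
      apply exStar_le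
      intro H hH c hc hr
      rw [Nat.le_div_iff_mul_le (by norm_num), mul_comm, ← sum_nb_univ]
      have hdeg : ∀ v ∈ (Finset.univ : Finset (Fin n → Bool)),
          (nb H Finset.univ v).card ≤ min (k - 1) n := by
        intro v _
        apply le_min
        · by_contra hcon
          apply hr
          exact star_rainbow hc (x := v) (A := nb H Finset.univ v)
            (fun w hw => (mem_nb.mp hw).2) (by omega)
        · exact Q_deg v _ fun w hw => hH (mem_nb.mp hw).2
      calc ∑ v, (nb H Finset.univ v).card ≤ ∑ v : Fin n → Bool, min (k - 1) n :=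
            Finset.sum_le_sum hdeg
        _ = min (k - 1) n * 2 ^ n := by simp [mul_comm]
    omega
  · exact lower_bound hk (star_edges k) n

/-- reduction of an exact value to the supersaturation-type statement -/
lemma exact_of_upper {W : Type*} {F : SimpleGraph W} {k : ℕ} (hk : 1 ≤ k)
    (hF : F.edgeSet.ncard = k)
    (h : ∀ (n : ℕ) (H : SimpleGraph (Fin n → Bool)), H ≤ Q n → ∀ c : Sym2 (Fin n → Bool) → ℕ,
      ProperColouring H c → ((k : ℝ) - 1) * Fintype.card (Fin n → Bool) < 2 * H.edgeSet.ncard →
      HasRainbowCopy H c F) (n : ℕ) :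
    exStar (Q n) F = exStar (Q n) (completeBipartiteGraph (Fin 1) (Fin k)) := by
  have h1 := star_value hk n
  have h2 := lower_bound hk hF n
  have h3 : exStar (Q n) F ≤ (min (k - 1) n * 2 ^ n) / 2 := by
    apply exStar_le
    intro H hH c hc hr
    rw [Nat.le_div_iff_mul_le (by norm_num), mul_comm]
    rcases le_total (k - 1) n with hkn | hkn
    · rw [min_eq_left hkn]
      by_contra hcon
      apply hr
      apply h n H hH c hc
      push Not at hcon
      have h5 : (((k - 1 : ℕ) : ℝ)) * 2 ^ n < 2 * H.edgeSet.ncard := by exact_mod_cast hcon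
      rw [Nat.cast_sub hk] at h5
      simpa using h5
    · rw [min_eq_right hkn, ← Q_edges]
      apply Nat.mul_le_mul_left
      exact Set.ncard_le_ncard (SimpleGraph.edgeSet_mono hH) (Set.toFinite _)
  omega

end Pool.Agent.Lib.MP_233400_co
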