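import Mathlib
import Pool.Agent.Lib.MP_233400_co.Basic
import Pool.Agent.Lib.MP_233400_co.Rooted

set_option autoImplicit false

namespace Pool.Agent.Lib.MP_233400_co

open Finset

variable {V W : Type*}

/-- embedding of the part `S` of a rooted tree -/
structure PE (H : SimpleGraph V) (c : Sym2 V → ℕ) (Sv : Finset V) (par : W → W) (r : W) (x0 : V)
    (S : Finset W) (f : W → V) : Prop where
  inj : Set.InjOn f S
  mem : ∀ v ∈ S, f v ∈ Sv
  adj : ∀ v ∈ S, v ≠ r → H.Adj (f (par v)) (f v)
  rb : ∀ u ∈ S, ∀ v ∈ S, u ≠ r → v ≠ r → c s(f (par u), f u) = c s(f (par v), f v) → u = v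
  root : f r = x0
  avoid : ∀ v ∈ S, v ≠ r → par v ≠ r → ¬ H.Adj x0 (f v)

/-- tree adjacency from the parent map -/
def tadj (par : W → W) (r a b : W) : Prop := (b ≠ r ∧ par b = a) ∨ (a ≠ r ∧ par a = b)

open Classical in
/-- number of non-tree neighbours among the images -/
noncomputable def kap (H : SimpleGraph V) (par : W → W) (r : W) (S : Finset W) (f : W → V)
    (a : W) : ℕ :=
  (S.filter (fun b => H.Adj (f a) (f b) ∧ ¬ tadj par r a b)).card

/-- potential -/
noncomputable def Phi (H : SimpleGraph V) (par : W → W) (r : W) (S : Finset W) (f : W → V) : ℕ :=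
  ∑ a ∈ S, 2 ^ kap H par r S f a

open Classical in
/-- the set of candidates for the image of `b` -/
noncomputable def cand (H : SimpleGraph V) (c : Sym2 V → ℕ) (Sv : Finset V) (par : W → W) (r : W)
    (x0 : V) (S : Finset W) (f : W → V) (b : W) : Finset V :=
  (nb H Sv (f (par b))).filter (fun w => (∀ v ∈ S, f v ≠ w) ∧
    (∀ v ∈ S, v ≠ r → c s(f (par v), f v) ≠ c s(f (par b), w)) ∧
    (par b ≠ r → ¬ H.Adj x0 w))

lemma mem_cand {H : SimpleGraph V} {c : Sym2 V → ℕ} {Sv : Finset V} {par : W → W} {r : W}
    {x0 : V} {S : Finset W} {f : W → V} {b : W} {w : V} :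
    w ∈ cand H c Sv par r x0 S f b ↔ (w ∈ Sv ∧ H.Adj (f (par b)) w) ∧ (∀ v ∈ S, f v ≠ w) ∧
    (∀ v ∈ S, v ≠ r → c s(f (par v), f v) ≠ c s(f (par b), w)) ∧
    (par b ≠ r → ¬ H.Adj x0 w) := by
  classical
  unfold cand
  rw [Finset.mem_filter, mem_nb]

lemma extend [DecidableEq W] {H : SimpleGraph V} {c : Sym2 V → ℕ} {Sv : Finset V} {par : W → W}
    {r : W} {x0 : V} {S : Finset W} {f : W → V} (h : PE H c Sv par r x0 S f)
    (hcl : ∀ v ∈ S, v ≠ r → par v ∈ S) (hr : r ∈ S) {b : W} (hb : b ∉ S) (hpb : par b ∈ S)
    {w : V} (hw : w ∈ cand H c Sv par r x0 S f b) :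
    PE H c Sv par r x0 (insert b S) (Function.update f b w) := by
  rw [mem_cand] at hw
  obtain ⟨⟨hwS, hwadj⟩, hwim, hwcol, hwav⟩ := hw
  have hbr : b ≠ r := fun h => hb (h ▸ hr)
  have hne : ∀ v ∈ S, v ≠ b := fun v hv h => hb (h ▸ hv)
  have hf : ∀ v ∈ S, Function.update f b w v = f v := fun v hv =>
    Function.update_of_ne (hne v hv) _ _
  have hfb : Function.update f b w b = w := Function.update_self _ _ _
  have hcolS : ∀ v ∈ S, v ≠ r → c s(Function.update f b w (par v), Function.update f b w v) =
      c s(f (par v), f v) := by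
    intro v hv hvr
    rw [hf v hv, hf _ (hcl v hv hvr)]
  have hcolb : c s(Function.update f b w (par b), Function.update f b w b) =
      c s(f (par b), w) := by
    rw [hfb, hf _ hpb]
  refine ⟨?_, ?_, ?_, ?_, ?_, ?_⟩
  · intro u hu v hv huv
    simp only [Finset.coe_insert, Set.mem_insert_iff, Finset.mem_coe] at hu hv
    rcases hu with rfl | hu
    · rcases hv with rfl | hv
      · rfl
      · exfalso
        rw [hfb, hf v hv] at huv
        exact hwim v hv huv.symm
    · rcases hv with rfl | hv
      · exfalso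
        rw [hfb, hf u hu] at huv
        exact hwim u hu huv
      · rw [hf u hu, hf v hv] at huv
        exact h.inj hu hv huv
  · intro v hv
    rw [Finset.mem_insert] at hv
    rcases hv with rfl | hv
    · rw [hfb]; exact hwS
    · rw [hf v hv]; exact h.mem v hv
  · intro v hv hvr
    rw [Finset.mem_insert] at hv
    rcases hv with rfl | hv
    · rw [hfb, hf _ hpb]; exact hwadj
    · rw [hf v hv, hf _ (hcl v hv hvr)]; exact h.adj v hv hvr
  · intro u hu v hv hur hvr huv
    rw [Finset.mem_insert] at hu hv
    rcases hu with rfl | hu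
    · rcases hv with rfl | hv
      · rfl
      · exfalso
        rw [hcolb, hcolS v hv hvr] at huv
        exact hwcol v hv hvr huv.symm
    · rcases hv with rfl | hv
      · exfalso
        rw [hcolb, hcolS u hu hur] at huv
        exact hwcol u hu hur huv
      · rw [hcolS u hu hur, hcolS v hv hvr] at huv
        exact h.rb u hu v hv hur hvr huv
  · rw [hf r hr]; exact h.root
  · intro v hv hvr hpr
    rw [Finset.mem_insert] at hv
    rcases hv with rfl | hv
    · rw [hfb]; exact hwav hpr
    · rw [hf v hv]; exact h.avoid v hv hvr hpr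

lemma card_cand {H : SimpleGraph V} {c : Sym2 V → ℕ} (hc : ProperColouring H c)
    (hcod : ∀ x y, x ≠ y → ∀ A : Finset V, (∀ w ∈ A, H.Adj x w ∧ H.Adj y w) → A.card ≤ 2)
    {Sv : Finset V} {par : W → W}
    {r : W} {x0 : V} {S : Finset W} {f : W → V} (h : PE H c Sv par r x0 S f)
    (hr : r ∈ S) {b : W} (hpb : par b ∈ S) :
    (nb H Sv (f (par b))).card ≤ (cand H c Sv par r x0 S f b).card + (S.card - 1) +
      kap H par r S f (par b) + 2 := by
  classical
  set y := f (par b) with hy
  set B1 := (nb H Sv y).filter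
    (fun w => c s(y, w) ∈ (S.erase r).image (fun v => c s(f (par v), f v))) with hB1
  set B2 := (S.filter (fun b' => H.Adj (f (par b)) (f b') ∧ ¬ tadj par r (par b) b')).image f
    with hB2
  set B3 := (nb H Sv y).filter (fun w => par b ≠ r ∧ H.Adj x0 w) with hB3
  have hsub : nb H Sv y ⊆ ((cand H c Sv par r x0 S f b ∪ B1) ∪ B2) ∪ B3 := by
    intro w hw
    simp only [Finset.mem_union]
    by_cases h1 : c s(y, w) ∈ (S.erase r).image (fun v => c s(f (par v), f v))
    · left; left; right
      exact Finset.mem_filter.mpr ⟨hw, h1⟩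
    by_cases h3 : par b ≠ r ∧ H.Adj x0 w
    · right
      exact Finset.mem_filter.mpr ⟨hw, h3⟩
    by_cases h2 : w ∈ S.image f
    · left; right
      obtain ⟨v, hv, rfl⟩ := Finset.mem_image.mp h2
      refine Finset.mem_image.mpr ⟨v, Finset.mem_filter.mpr ⟨hv, (mem_nb.mp hw).2, ?_⟩, rfl⟩
      rintro (⟨hvr, hp⟩ | ⟨hpr, hp⟩)
      · apply h1
        refine Finset.mem_image.mpr ⟨v, Finset.mem_erase.mpr ⟨hvr, hv⟩, ?_⟩
        rw [hp]
      · apply h1
        refine Finset.mem_image.mpr ⟨par b, Finset.mem_erase.mpr ⟨hpr, hpb⟩, ?_⟩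
        rw [hp, Sym2.eq_swap]
    · left; left; left
      refine mem_cand.mpr ⟨mem_nb.mp hw, ?_, ?_, fun hpr hadj => h3 ⟨hpr, hadj⟩⟩
      · intro v hv hvw
        exact h2 (Finset.mem_image.mpr ⟨v, hv, hvw⟩)
      · intro v hv hvr hvw
        exact h1 (Finset.mem_image.mpr ⟨v, Finset.mem_erase.mpr ⟨hvr, hv⟩, hvw⟩)
  have c1 : B1.card ≤ S.card - 1 := by
    have : B1.card ≤ ((S.erase r).image (fun v => c s(f (par v), f v))).card := by
      apply Finset.card_le_card_of_injOn (fun w => c s(y, w))
      · intro w hw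
        exact (Finset.mem_filter.mp hw).2
      · intro w hw w' hw' hww
        by_contra hne
        have a1 := (mem_nb.mp (Finset.mem_filter.mp hw).1).2
        have a2 := (mem_nb.mp (Finset.mem_filter.mp hw').1).2
        exact hc y w w' a1 a2 hne hww
    calc B1.card ≤ _ := this
      _ ≤ (S.erase r).card := Finset.card_image_le
      _ = S.card - 1 := Finset.card_erase_of_mem hr
  have c2 : B2.card ≤ kap H par r S f (par b) := by
    unfold kap
    exact Finset.card_image_le
  have c3 : B3.card ≤ 2 := by
    by_cases hpr : par b = r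
    · have : B3 = ∅ := by
        rw [hB3, Finset.filter_eq_empty_iff]
        intro w _ h; exact h.1 hpr
      rw [this]; simp
    · apply hcod y x0
      · intro hyx
        rw [hy, ← h.root] at hyx
        exact hpr (h.inj hpb hr hyx)
      · intro w hw
        rw [hB3, Finset.mem_filter, mem_nb] at hw
        exact ⟨hw.1.2, hw.2.2⟩
  have := Finset.card_le_card hsub
  have u1 := Finset.card_union_le ((cand H c Sv par r x0 S f b ∪ B1) ∪ B2) B3
  have u2 := Finset.card_union_le (cand H c Sv par r x0 S f b ∪ B1) B2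
  have u3 := Finset.card_union_le (cand H c Sv par r x0 S f b) B1
  omega

/-- Choosing a good candidate with respect to the potential. -/
lemma good_cand [DecidableEq W] {H : SimpleGraph V} {c : Sym2 V → ℕ}
    (hcod : ∀ x y, x ≠ y → ∀ A : Finset V, (∀ w ∈ A, H.Adj x w ∧ H.Adj y w) → A.card ≤ 2)
    {Sv : Finset V} {par : W → W}
    {r : W} {x0 : V} {S : Finset W} {f : W → V} (h : PE H c Sv par r x0 S f)
    (hcl : ∀ v ∈ S, v ≠ r → par v ∈ S) (hr : r ∈ S) {b : W} (hb : b ∉ S) (hpb : par b ∈ S)
    {m q : ℕ} (hm : 1 ≤ m) (hq : 1 ≤ q) (hS : S.card ≤ m * q)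
    (hcard : 4 * m ≤ (cand H c Sv par r x0 S f b).card) :
    ∃ w ∈ cand H c Sv par r x0 S f b,
      m * Phi H par r (insert b S) (Function.update f b w) ≤
        (m + 1) * Phi H par r S f + m * 2 ^ q := by
  classical
  set A := cand H c Sv par r x0 S f b
  set p := par b with hp
  -- local quantities
  let kw : V → ℕ := fun w => ((S.erase p).filter (fun v => H.Adj w (f v))).card
  let dw : V → ℕ := fun w => ∑ v ∈ (S.erase p).filter (fun v => H.Adj w (f v)),
    2 ^ kap H par r S f v
  have hAadj : ∀ w ∈ A, H.Adj (f p) w := by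
    intro w hw
    exact (mem_cand.mp hw).1.2
  have hcount : ∀ v ∈ S.erase p, (A.filter (fun w => H.Adj w (f v))).card ≤ 2 := by
    intro v hv
    rw [Finset.mem_erase] at hv
    apply hcod (f p) (f v)
    · intro heq
      exact hv.1 (h.inj hpb hv.2 heq).symm
    · intro w hw
      rw [Finset.mem_filter] at hw
      exact ⟨hAadj w hw.1, hw.2.symm⟩
  have hsumk : ∑ w ∈ A, kw w ≤ 2 * (S.card) := by
    calc ∑ w ∈ A, kw w = ∑ w ∈ A, ∑ v ∈ S.erase p, (if H.Adj w (f v) then 1 else 0) := by
          apply Finset.sum_congr rfl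
          intro w _
          simp only [kw]
          rw [Finset.card_filter]
      _ = ∑ v ∈ S.erase p, ∑ w ∈ A, (if H.Adj w (f v) then 1 else 0) := Finset.sum_comm
      _ ≤ ∑ v ∈ S.erase p, 2 := by
          apply Finset.sum_le_sum
          intro v hv
          rw [← Finset.card_filter]
          exact hcount v hv
      _ = (S.erase p).card * 2 := by rw [Finset.sum_const, smul_eq_mul]
      _ ≤ 2 * S.card := by
          have := Finset.card_erase_le (s := S) (a := p)
          omega
  have hsumd : ∑ w ∈ A, dw w ≤ 2 * Phi H par r S f := by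
    calc ∑ w ∈ A, dw w = ∑ w ∈ A, ∑ v ∈ S.erase p,
          (if H.Adj w (f v) then 2 ^ kap H par r S f v else 0) := by
          apply Finset.sum_congr rfl
          intro w _
          simp only [dw]
          rw [Finset.sum_filter]
      _ = ∑ v ∈ S.erase p, ∑ w ∈ A, (if H.Adj w (f v) then 2 ^ kap H par r S f v else 0) :=
          Finset.sum_comm
      _ ≤ ∑ v ∈ S.erase p, 2 * 2 ^ kap H par r S f v := by
          apply Finset.sum_le_sum
          intro v hv
          rw [← Finset.sum_filter, Finset.sum_const, smul_eq_mul]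
          exact Nat.mul_le_mul_right _ (hcount v hv)
      _ ≤ ∑ v ∈ S, 2 * 2 ^ kap H par r S f v :=
          Finset.sum_le_sum_of_subset (Finset.erase_subset _ _)
      _ = 2 * Phi H par r S f := by rw [Phi, Finset.mul_sum]
  set P := Phi H par r S f with hP
  have hPpos : 0 < P := by
    rw [hP, Phi]
    exact Finset.sum_pos (fun a _ => by positivity) ⟨r, hr⟩
  obtain ⟨w, hwA, hw⟩ : ∃ w ∈ A, kw w * P + dw w * (m * q) ≤ q * P := by
    apply Finset.exists_le_of_sum_le (s := A) (f := fun w => kw w * P + dw w * (m * q))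
      (g := fun _ => q * P)
    · rw [← Finset.card_pos]; omega
    · rw [Finset.sum_add_distrib, ← Finset.sum_mul, ← Finset.sum_mul, Finset.sum_const,
        smul_eq_mul]
      calc (∑ w ∈ A, kw w) * P + (∑ w ∈ A, dw w) * (m * q)
          ≤ (2 * (m * q)) * P + (2 * P) * (m * q) := by
            apply Nat.add_le_add
            · exact Nat.mul_le_mul_right _ (hsumk.trans (Nat.mul_le_mul_left _ hS))
            · exact Nat.mul_le_mul_right _ hsumd
        _ = (4 * m) * (q * P) := by ring
        _ ≤ A.card * (q * P) := Nat.mul_le_mul_right _ hcard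
  refine ⟨w, hwA, ?_⟩
  have hkw : kw w ≤ q := by
    have : kw w * P ≤ q * P := by omega
    exact Nat.le_of_mul_le_mul_right this hPpos
  have hdw : dw w * m ≤ P := by
    have h1 : dw w * (m * q) ≤ q * P := by omega
    have h2 : (dw w * m) * q ≤ P * q := by
      calc (dw w * m) * q = dw w * (m * q) := by ring
        _ ≤ q * P := h1
        _ = P * q := by ring
    exact Nat.le_of_mul_le_mul_right h2 hq
  -- new potential
  have hne : ∀ v ∈ S, v ≠ b := fun v hv h => hb (h ▸ hv)
  have hf : ∀ v ∈ S, Function.update f b w v = f v := fun v hv =>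
    Function.update_of_ne (hne v hv) _ _
  have hfb : Function.update f b w b = w := Function.update_self _ _ _
  have hbr : b ≠ r := fun h => hb (h ▸ hr)
  have hnewb : kap H par r (insert b S) (Function.update f b w) b ≤ kw w := by
    unfold kap
    simp only [kw]
    apply Finset.card_le_card
    intro v hv
    rw [Finset.mem_filter, Finset.mem_insert, hfb] at hv
    obtain ⟨hv, hadj, hnt⟩ := hv
    rcases hv with rfl | hv
    · rw [hfb] at hadj; exact absurd rfl hadj.ne
    · rw [hf v hv] at hadj
      rw [Finset.mem_filter, Finset.mem_erase]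
      refine ⟨⟨?_, hv⟩, hadj⟩
      intro hvp
      exact hnt (Or.inr ⟨hbr, hvp.symm⟩)
  have hnewa : ∀ a ∈ S, kap H par r (insert b S) (Function.update f b w) a ≤
      kap H par r S f a + (if a ≠ p ∧ H.Adj w (f a) then 1 else 0) := by
    intro a ha
    have hsub : (insert b S).filter (fun v => H.Adj (Function.update f b w a)
        (Function.update f b w v) ∧ ¬ tadj par r a v) ⊆
        (S.filter (fun v => H.Adj (f a) (f v) ∧ ¬ tadj par r a v)) ∪
          (if a ≠ p ∧ H.Adj w (f a) then {b} else ∅) := by
      intro v hv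
      rw [Finset.mem_filter, Finset.mem_insert, hf a ha] at hv
      obtain ⟨hv, hadj, hnt⟩ := hv
      rw [Finset.mem_union]
      rcases hv with rfl | hv
      · right
        rw [hfb] at hadj
        have : a ≠ p := by
          intro hap
          exact hnt (Or.inl ⟨hbr, hap.symm⟩)
        rw [if_pos ⟨this, hadj.symm⟩]
        simp
      · left
        rw [hf v hv] at hadj
        exact Finset.mem_filter.mpr ⟨hv, hadj, hnt⟩
    unfold kap
    refine (Finset.card_le_card hsub).trans ((Finset.card_union_le _ _).trans ?_)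
    apply Nat.add_le_add_left
    split_ifs <;> simp
  have hPhi : Phi H par r (insert b S) (Function.update f b w) ≤ P + dw w + 2 ^ q := by
    rw [Phi, Finset.sum_insert hb]
    have e1 : 2 ^ kap H par r (insert b S) (Function.update f b w) b ≤ 2 ^ q :=
      Nat.pow_le_pow_right (by norm_num) (hnewb.trans hkw)
    have e2 : ∑ a ∈ S, 2 ^ kap H par r (insert b S) (Function.update f b w) a ≤ P + dw w := by
      calc ∑ a ∈ S, 2 ^ kap H par r (insert b S) (Function.update f b w) a
          ≤ ∑ a ∈ S, (2 ^ kap H par r S f a +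
            (if a ≠ p ∧ H.Adj w (f a) then 2 ^ kap H par r S f a else 0)) := by
            apply Finset.sum_le_sum
            intro a ha
            refine (Nat.pow_le_pow_right (by norm_num) (hnewa a ha)).trans ?_
            split_ifs
            · rw [pow_succ]; omega
            · simp
        _ = P + dw w := by
            rw [Finset.sum_add_distrib]
            congr 1
            simp only [dw]
            rw [← Finset.sum_filter]
            apply Finset.sum_congr _ (fun _ _ => rfl)
            ext a
            simp only [Finset.mem_filter, Finset.mem_erase]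
            tauto
    omega
  calc m * Phi H par r (insert b S) (Function.update f b w) ≤ m * (P + dw w + 2 ^ q) :=
        Nat.mul_le_mul_left _ hPhi
    _ = m * P + dw w * m + m * 2 ^ q := by ring
    _ ≤ m * P + P + m * 2 ^ q := by omega
    _ = (m + 1) * P + m * 2 ^ q := by ring

/-- a rooted-tree shape -/
structure Shape (par : W → W) (lev : W → ℕ) (r : W) (S : Finset W) : Prop where
  root : r ∈ S
  closed : ∀ v ∈ S, v ≠ r → par v ∈ S
  lev_lt : ∀ v ∈ S, v ≠ r → lev (par v) < lev v

lemma shape_induction [DecidableEq W] {par : W → W} {lev : W → ℕ} {r : W}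
    {p : Finset W → Prop} (h0 : p {r})
    (step : ∀ (b : W) (S : Finset W), Shape par lev r S → b ∉ S → par b ∈ S → p S →
      p (insert b S)) :
    ∀ S : Finset W, Shape par lev r S → p S := by
  intro S
  induction S using Finset.induction_on_max_value lev with
  | empty => intro h; exact absurd h.root (by simp)
  | insert a s ha hmax ih =>
    intro h
    by_cases har : a = r
    · subst har
      have hs : s = ∅ := by
        rw [Finset.eq_empty_iff_forall_notMem]
        intro v hv
        -- `v` has a smaller level than the root: descend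
        have : ∀ n (v : W), v ∈ s → lev v = n → False := by
          intro n
          induction n using Nat.strong_induction_on with
          | _ n ih' =>
            intro v hv hn
            have hva : v ≠ a := fun h => ha (h ▸ hv)
            have h1 := h.closed v (Finset.mem_insert_of_mem hv) hva
            have h2 := h.lev_lt v (Finset.mem_insert_of_mem hv) hva
            rw [Finset.mem_insert] at h1
            rcases h1 with h1 | h1
            · rw [h1] at h2
              have := hmax v hv
              omega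
            · exact ih' (lev (par v)) (by omega) (par v) h1 rfl
        exact this _ v hv rfl
      rw [hs]; exact h0
    · have hrs : r ∈ s := by
        have := h.root
        rw [Finset.mem_insert] at this
        rcases this with h | h
        · exact absurd h.symm har
        · exact h
      have hshape : Shape par lev r s := by
        refine ⟨hrs, ?_, ?_⟩
        · intro v hv hvr
          have h1 := h.closed v (Finset.mem_insert_of_mem hv) hvr
          have h2 := h.lev_lt v (Finset.mem_insert_of_mem hv) hvr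
          rw [Finset.mem_insert] at h1
          rcases h1 with h1 | h1
          · rw [h1] at h2
            have := hmax v hv
            omega
          · exact h1
        · intro v hv hvr
          exact h.lev_lt v (Finset.mem_insert_of_mem hv) hvr
      have hpa : par a ∈ s := by
        have h1 := h.closed a (Finset.mem_insert_self _ _) har
        have h2 := h.lev_lt a (Finset.mem_insert_self _ _) har
        rw [Finset.mem_insert] at h1
        rcases h1 with h1 | h1
        · rw [h1] at h2; omega
        · exact h1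
      exact step a s hshape ha hpa (ih hshape)

lemma base_PE [DecidableEq W] {H : SimpleGraph V} {c : Sym2 V → ℕ} {Sv : Finset V} {par : W → W}
    {r : W} {x0 : V} (hx : x0 ∈ Sv) : PE H c Sv par r x0 {r} (fun _ => x0) := by
  refine ⟨by simp, ?_, ?_, ?_, rfl, ?_⟩
  · intro v _; exact hx
  · intro v hv hvr; exact absurd (Finset.mem_singleton.mp hv) hvr
  · intro u hu v _ hur; exact absurd (Finset.mem_singleton.mp hu) hur
  · intro v hv hvr; exact absurd (Finset.mem_singleton.mp hv) hvr

/-- greedy embedding, minimum degree about `2 j` -/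
lemma embed_greedy [DecidableEq W] {H : SimpleGraph V} {c : Sym2 V → ℕ}
    (hc : ProperColouring H c)
    (hcod : ∀ x y, x ≠ y → ∀ A : Finset V, (∀ w ∈ A, H.Adj x w ∧ H.Adj y w) → A.card ≤ 2)
    {Sv : Finset V} {par : W → W} {lev : W → ℕ} {r : W} {x0 : V} (hx : x0 ∈ Sv) {j : ℕ}
    (hdeg : ∀ v ∈ Sv, 2 * j + 1 ≤ (nb H Sv v).card) :
    ∀ S : Finset W, Shape par lev r S → S.card ≤ j + 1 → ∃ f, PE H c Sv par r x0 S f := by
  classical
  apply shape_induction
  · intro _
    exact ⟨_, base_PE hx⟩
  · intro b S hsh hb hpb ih hcard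
    rw [Finset.card_insert_of_notMem hb] at hcard
    obtain ⟨f, hf⟩ := ih (by omega)
    have h1 := card_cand hc hcod hf hsh.root hpb
    have h2 := hdeg _ (hf.mem _ hpb)
    have h3 : kap H par r S f (par b) ≤ S.card - 1 := by
      unfold kap
      rw [← Finset.card_erase_of_mem hpb]
      apply Finset.card_le_card
      intro v hv
      rw [Finset.mem_filter] at hv
      refine Finset.mem_erase.mpr ⟨?_, hv.1⟩
      rintro rfl
      exact hv.2.1.ne rfl
    have hSpos : 1 ≤ S.card := Finset.card_pos.mpr ⟨r, hsh.root⟩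
    have h4 : 0 < (cand H c Sv par r x0 S f b).card := by omega
    obtain ⟨w, hw⟩ := Finset.card_pos.mp h4
    exact ⟨_, extend hf hsh.closed hsh.root hb hpb hw⟩

lemma kap_le_of_Phi {H : SimpleGraph V} {par : W → W} {r : W} {S : Finset W} {f : W → V} {K : ℕ}
    (h : Phi H par r S f ≤ 2 ^ K) {a : W} (ha : a ∈ S) : kap H par r S f a ≤ K := by
  have h1 : 2 ^ kap H par r S f a ≤ Phi H par r S f := by
    unfold Phi
    exact Finset.single_le_sum (f := fun a => 2 ^ kap H par r S f a) (fun _ _ => by positivity) ha
  exact (Nat.pow_le_pow_iff_right (by norm_num)).mp (h1.trans h)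

/-- embedding controlled by the potential, minimum degree about `j + O(√j)` -/
lemma embed_pot [DecidableEq W] {H : SimpleGraph V} {c : Sym2 V → ℕ}
    (hc : ProperColouring H c)
    (hcod : ∀ x y, x ≠ y → ∀ A : Finset V, (∀ w ∈ A, H.Adj x w ∧ H.Adj y w) → A.card ≤ 2)
    {Sv : Finset V} {par : W → W} {lev : W → ℕ} {r : W} {x0 : V} (hx : x0 ∈ Sv) {j m q K : ℕ}
    (hm : 1 ≤ m) (hq : 1 ≤ q) (hmq : j ≤ m * q)
    (hK : ((j : ℝ) + 1) * 2 ^ q * Real.exp q ≤ 2 ^ K)
    (hdeg : ∀ v ∈ Sv, j + 1 + K + 4 * m ≤ (nb H Sv v).card) :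
    ∀ S : Finset W, Shape par lev r S → S.card ≤ j + 1 →
      ∃ f, PE H c Sv par r x0 S f ∧
        (Phi H par r S f : ℝ) ≤ S.card * 2 ^ q * (1 + 1 / (m : ℝ)) ^ (S.card - 1) := by
  classical
  have hm0 : (0 : ℝ) < m := by exact_mod_cast hm
  have hbound : ∀ s : ℕ, s ≤ j + 1 → (s : ℝ) * 2 ^ q * (1 + 1 / (m : ℝ)) ^ (s - 1) ≤ 2 ^ K := by
    intro s hs
    refine le_trans ?_ hK
    have h1 : (1 + 1 / (m : ℝ)) ^ (s - 1) ≤ Real.exp q := by
      calc (1 + 1 / (m : ℝ)) ^ (s - 1) ≤ (Real.exp (1 / (m : ℝ))) ^ (s - 1) := by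
            apply pow_le_pow_left₀ (by positivity)
            have := Real.add_one_le_exp (1 / (m : ℝ))
            linarith
        _ = Real.exp ((s - 1 : ℕ) * (1 / (m : ℝ))) := by rw [← Real.exp_nat_mul]
        _ ≤ Real.exp q := by
            apply Real.exp_le_exp.mpr
            have h2 : ((s - 1 : ℕ) : ℝ) ≤ m * q := by
              have : s - 1 ≤ m * q := by omega
              exact_mod_cast this
            rw [mul_one_div, div_le_iff₀ hm0]
            linarith
    have h2 : (s : ℝ) ≤ j + 1 := by exact_mod_cast hs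
    calc (s : ℝ) * 2 ^ q * (1 + 1 / (m : ℝ)) ^ (s - 1) ≤ ((j : ℝ) + 1) * 2 ^ q * Real.exp q := by
          apply mul_le_mul _ h1 (by positivity) (by positivity)
          exact mul_le_mul_of_nonneg_right h2 (by positivity)
      _ = _ := rfl
  apply shape_induction
  · intro _
    refine ⟨_, base_PE hx, ?_⟩
    have : Phi H par r {r} (fun _ => x0) = 1 := by
      unfold Phi kap
      simp
    rw [this]
    simp only [Finset.card_singleton, Nat.cast_one, one_mul, Nat.sub_self, pow_zero, mul_one]
    exact one_le_pow₀ (by norm_num)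
  · intro b S hsh hb hpb ih hcard
    rw [Finset.card_insert_of_notMem hb] at hcard
    obtain ⟨f, hf, hPhi⟩ := ih (by omega)
    have hSpos : 1 ≤ S.card := Finset.card_pos.mpr ⟨r, hsh.root⟩
    have hPK : Phi H par r S f ≤ 2 ^ K := by
      have := hPhi.trans (hbound S.card (by omega))
      exact_mod_cast this
    have h1 := card_cand hc hcod hf hsh.root hpb
    have h2 := hdeg _ (hf.mem _ hpb)
    have h3 := kap_le_of_Phi hPK hpb
    obtain ⟨w, hw, hPw⟩ := good_cand hcod hf hsh.closed hsh.root hb hpb hm hq
      (by omega : S.card ≤ m * q) (by omega)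
    refine ⟨_, extend hf hsh.closed hsh.root hb hpb hw, ?_⟩
    rw [Finset.card_insert_of_notMem hb]
    have h5 : (m : ℝ) * Phi H par r (insert b S) (Function.update f b w) ≤
        (m + 1) * Phi H par r S f + m * 2 ^ q := by exact_mod_cast hPw
    have h6 : (Phi H par r (insert b S) (Function.update f b w) : ℝ) ≤
        (1 + 1 / (m : ℝ)) * Phi H par r S f + 2 ^ q := by
      have : (m : ℝ) * Phi H par r (insert b S) (Function.update f b w) ≤
          m * ((1 + 1 / (m : ℝ)) * Phi H par r S f + 2 ^ q) := by
        refine h5.trans (le_of_eq ?_)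
        field_simp
      exact le_of_mul_le_mul_left this hm0
    refine h6.trans ?_
    have h7 : (1 + 1 / (m : ℝ)) * Phi H par r S f ≤
        (1 + 1 / (m : ℝ)) * (S.card * 2 ^ q * (1 + 1 / (m : ℝ)) ^ (S.card - 1)) :=
      mul_le_mul_of_nonneg_left hPhi (by positivity)
    have h8 : (1 + 1 / (m : ℝ)) * (S.card * 2 ^ q * (1 + 1 / (m : ℝ)) ^ (S.card - 1)) =
        S.card * 2 ^ q * (1 + 1 / (m : ℝ)) ^ S.card := by
      obtain ⟨t, ht⟩ : ∃ t, S.card = t + 1 := ⟨S.card - 1, by omega⟩
      rw [ht]
      simp only [Nat.add_sub_cancel]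
      rw [pow_succ]; ring
    have h9 : (2 : ℝ) ^ q ≤ 2 ^ q * (1 + 1 / (m : ℝ)) ^ S.card := by
      apply le_mul_of_one_le_right (by positivity)
      apply one_le_pow₀
      have : 0 ≤ 1 / (m : ℝ) := by positivity
      linarith
    simp only [Nat.add_sub_cancel]
    push_cast
    rw [h8] at h7
    calc (1 + 1 / (m : ℝ)) * Phi H par r S f + 2 ^ q
        ≤ S.card * 2 ^ q * (1 + 1 / (m : ℝ)) ^ S.card + 2 ^ q * (1 + 1 / (m : ℝ)) ^ S.card := by
          linarith
      _ = (S.card + 1) * 2 ^ q * (1 + 1 / (m : ℝ)) ^ S.card := by ring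

end Pool.Agent.Lib.MP_233400_co
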