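import Mathlib
import Pool.Agent.Lib.MP_233400_co.Embed

set_option autoImplicit false

namespace Pool.Agent.Lib.MP_233400_co

open Finset

variable {V W : Type*}

lemma rainbow_of_map {H : SimpleGraph V} {c : Sym2 V → ℕ} {T : SimpleGraph W} {r : W}
    {par : W → W}
    (hedge : ∀ u v, T.Adj u v → (v ≠ r ∧ par v = u) ∨ (u ≠ r ∧ par u = v))
    {F : W → V} (hinj : Function.Injective F)
    (hadj : ∀ v, v ≠ r → H.Adj (F (par v)) (F v))
    (hcol : ∀ u v, u ≠ r → v ≠ r → c s(F (par u), F u) = c s(F (par v), F v) → u = v) :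
    HasRainbowCopy H c T := by
  refine ⟨F, hinj, ?_, ?_⟩
  · intro a b hab
    rcases hedge a b hab with ⟨hb, rfl⟩ | ⟨ha, rfl⟩
    · exact hadj b hb
    · exact (hadj a ha).symm
  · have key : ∀ e ∈ T.edgeSet, ∃ v, v ≠ r ∧ e = s(par v, v) := by
      intro e he
      induction e using Sym2.ind with
      | _ a b =>
        rcases hedge a b he with ⟨hb, rfl⟩ | ⟨ha, rfl⟩
        · exact ⟨b, hb, rfl⟩
        · exact ⟨a, ha, Sym2.eq_swap⟩
    intro e he e' he' hee
    obtain ⟨u, hu, rfl⟩ := key e he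
    obtain ⟨v, hv, rfl⟩ := key e' he'
    simp only [Sym2.map_mk] at hee
    have : u = v := hcol u v hu hv hee
    rw [this]

open Classical in
/-- neighbours of `x0` along colours not used by the embedding of `S0` -/
noncomputable def av (H : SimpleGraph V) (c : Sym2 V → ℕ) (Sv : Finset V) (x0 : V)
    (par : W → W) (r : W) (S0 : Finset W) (f : W → V) : Finset V :=
  (nb H Sv x0).filter (fun w => ∀ v ∈ S0, v ≠ r → c s(f (par v), f v) ≠ c s(x0, w))

lemma mem_av {H : SimpleGraph V} {c : Sym2 V → ℕ} {Sv : Finset V} {x0 : V} {par : W → W} {r : W}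
    {S0 : Finset W} {f : W → V} {w : V} : w ∈ av H c Sv x0 par r S0 f ↔
      w ∈ nb H Sv x0 ∧ ∀ v ∈ S0, v ≠ r → c s(f (par v), f v) ≠ c s(x0, w) := by
  classical
  unfold av
  rw [Finset.mem_filter]

/-- Adding the leaves at the root, when enough neighbours of the root are available. -/
lemma finish_av [Fintype W] {H : SimpleGraph V} {c : Sym2 V → ℕ} (hc : ProperColouring H c)
    {T : SimpleGraph W} {r : W}
    {par : W → W}
    (hpar : ∀ v, v ≠ r → T.Adj (par v) v ∧ T.dist r (par v) + 1 = T.dist r v)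
    (hedge : ∀ u v, T.Adj u v → (v ≠ r ∧ par v = u) ∨ (u ≠ r ∧ par u = v))
    {L S0 : Finset W} (hL : ∀ u, u ∈ L ↔ T.Adj r u ∧ ∀ w, T.Adj u w → w = r)
    (hS0 : ∀ u, u ∈ S0 ↔ u ∉ L)
    {Sv : Finset V} {x0 : V} {f : W → V}
    (hf : PE H c Sv par r x0 S0 f) (hAcard : L.card ≤ (av H c Sv x0 par r S0 f).card) :
    HasRainbowCopy H c T := by
  classical
  have hrL : r ∉ L := fun h => ((hL r).mp h).1.ne rfl
  have hrS0 : r ∈ S0 := (hS0 r).mpr hrL
  have hparL : ∀ v ∈ L, v ≠ r ∧ par v = r := by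
    intro v hv
    have hv' := (hL v).mp hv
    refine ⟨fun h => hrL (h ▸ hv), ?_⟩
    rcases hedge r v hv'.1 with h | h
    · exact h.2
    · exact absurd rfl h.1
  have hparS : ∀ v, v ≠ r → par v ∈ S0 := by
    intro v hv
    rw [hS0]
    intro h
    exact hv (((hL _).mp h).2 v (hpar v hv).1)
  set A := av H c Sv x0 par r S0 f with hA
  obtain ⟨B, hBA, hBcard⟩ := Finset.exists_subset_card_eq hAcard
  obtain ⟨g⟩ : Nonempty (L ≃ B) := ⟨Fintype.equivOfCardEq (by simp [hBcard])⟩
  have hgA : ∀ v (hv : v ∈ L), (g ⟨v, hv⟩ : V) ∈ A := fun v hv => hBA (g ⟨v, hv⟩).2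
  let F : W → V := fun v => if hv : v ∈ L then (g ⟨v, hv⟩ : V) else f v
  have hFL : ∀ v (hv : v ∈ L), F v = g ⟨v, hv⟩ := fun v hv => dif_pos hv
  have hFS : ∀ v, v ∈ S0 → F v = f v := fun v hv => dif_neg ((hS0 v).mp hv)
  have hAx : ∀ w ∈ A, H.Adj x0 w ∧ ∀ v ∈ S0, v ≠ r → c s(f (par v), f v) ≠ c s(x0, w) := by
    intro w hw
    rw [hA, mem_av, mem_nb] at hw
    exact ⟨hw.1.2, hw.2⟩
  have hAf : ∀ w ∈ A, ∀ v ∈ S0, f v ≠ w := by
    intro w hw v hv hvw
    obtain ⟨h1, h2⟩ := hAx w hw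
    have hvr : v ≠ r := by
      rintro rfl
      rw [hf.root] at hvw
      rw [hvw] at h1
      exact h1.ne rfl
    by_cases hp : par v = r
    · apply h2 v hv hvr
      rw [hp, hf.root, hvw]
    · apply hf.avoid v hv hvr hp
      rw [hvw]; exact h1
  have hcolS : ∀ v ∈ S0, v ≠ r → c s(F (par v), F v) = c s(f (par v), f v) := by
    intro v hv hvr
    rw [hFS v hv, hFS _ (hparS v hvr)]
  have hcolL : ∀ v (hv : v ∈ L), c s(F (par v), F v) = c s(x0, (g ⟨v, hv⟩ : V)) := by
    intro v hv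
    rw [(hparL v hv).2, hFL v hv, hFS r hrS0, hf.root]
  apply rainbow_of_map (F := F) hedge
  · intro u v huv
    by_cases hu : u ∈ L
    · by_cases hv : v ∈ L
      · rw [hFL u hu, hFL v hv] at huv
        have := g.injective (Subtype.ext huv)
        exact congrArg Subtype.val this
      · exfalso
        rw [hFL u hu, hFS v ((hS0 v).mpr hv)] at huv
        exact hAf _ (hgA u hu) v ((hS0 v).mpr hv) huv.symm
    · by_cases hv : v ∈ L
      · exfalso
        rw [hFS u ((hS0 u).mpr hu), hFL v hv] at huv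
        exact hAf _ (hgA v hv) u ((hS0 u).mpr hu) huv
      · rw [hFS u ((hS0 u).mpr hu), hFS v ((hS0 v).mpr hv)] at huv
        exact hf.inj ((hS0 u).mpr hu) ((hS0 v).mpr hv) huv
  · intro v hvr
    by_cases hv : v ∈ L
    · rw [(hparL v hv).2, hFS r hrS0, hf.root, hFL v hv]
      exact (hAx _ (hgA v hv)).1
    · rw [hFS _ (hparS v hvr), hFS v ((hS0 v).mpr hv)]
      exact hf.adj v ((hS0 v).mpr hv) hvr
  · intro u v hur hvr huv
    by_cases hu : u ∈ L
    · by_cases hv : v ∈ L
      · rw [hcolL u hu, hcolL v hv] at huv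
        by_contra hne
        refine hc x0 _ _ (hAx _ (hgA u hu)).1 (hAx _ (hgA v hv)).1 ?_ huv
        intro h
        exact hne (congrArg Subtype.val (g.injective (Subtype.ext h)))
      · exfalso
        rw [hcolL u hu, hcolS v ((hS0 v).mpr hv) hvr] at huv
        exact (hAx _ (hgA u hu)).2 v ((hS0 v).mpr hv) hvr huv.symm
    · by_cases hv : v ∈ L
      · exfalso
        rw [hcolS u ((hS0 u).mpr hu) hur, hcolL v hv] at huv
        exact (hAx _ (hgA v hv)).2 u ((hS0 u).mpr hu) hur huv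
      · rw [hcolS u ((hS0 u).mpr hu) hur, hcolS v ((hS0 v).mpr hv) hvr] at huv
        exact hf.rb u ((hS0 u).mpr hu) v ((hS0 v).mpr hv) hur hvr huv

lemma card_av {H : SimpleGraph V} {c : Sym2 V → ℕ} (hc : ProperColouring H c) {Sv : Finset V}
    {x0 : V} {par : W → W} {r : W} {S0 : Finset W} {f : W → V} (hr : r ∈ S0) :
    (nb H Sv x0).card ≤ (av H c Sv x0 par r S0 f).card + (S0.card - 1) := by
  classical
  have hsplit : (nb H Sv x0).card = (av H c Sv x0 par r S0 f).card +
      ((nb H Sv x0).filter (fun w => ¬ ∀ v ∈ S0, v ≠ r → c s(f (par v), f v) ≠ c s(x0, w))).card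
      := by
    unfold av; exact (Finset.card_filter_add_card_filter_not _).symm
  have hbad : ((nb H Sv x0).filter
      (fun w => ¬ ∀ v ∈ S0, v ≠ r → c s(f (par v), f v) ≠ c s(x0, w))).card ≤ S0.card - 1 := by
    have : ((nb H Sv x0).filter
      (fun w => ¬ ∀ v ∈ S0, v ≠ r → c s(f (par v), f v) ≠ c s(x0, w))).card ≤
        ((S0.erase r).image (fun v => c s(f (par v), f v))).card := by
      apply Finset.card_le_card_of_injOn (fun w => c s(x0, w))
      · intro w hw
        have hw2 := (Finset.mem_filter.mp hw).2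
        push Not at hw2
        obtain ⟨v, hv, hvr, he⟩ := hw2
        exact Finset.mem_coe.mpr (Finset.mem_image.mpr
          ⟨v, Finset.mem_erase.mpr ⟨hvr, hv⟩, he⟩)
      · intro w hw w' hw' hww
        by_contra hne
        have a1 := (mem_nb.mp (Finset.mem_filter.mp hw).1).2
        have a2 := (mem_nb.mp (Finset.mem_filter.mp hw').1).2
        exact hc x0 w w' a1 a2 hne hww
    refine this.trans (Finset.card_image_le.trans ?_)
    rw [Finset.card_erase_of_mem hr]
  omega

/-- Adding the leaves at the root. -/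
lemma finish [Fintype W] {H : SimpleGraph V} {c : Sym2 V → ℕ} (hc : ProperColouring H c)
    {T : SimpleGraph W} (hT : T.IsTree) {k : ℕ} (hk : T.edgeSet.ncard = k) {r : W}
    {par : W → W}
    (hpar : ∀ v, v ≠ r → T.Adj (par v) v ∧ T.dist r (par v) + 1 = T.dist r v)
    (hedge : ∀ u v, T.Adj u v → (v ≠ r ∧ par v = u) ∨ (u ≠ r ∧ par u = v))
    {L S0 : Finset W} (hL : ∀ u, u ∈ L ↔ T.Adj r u ∧ ∀ w, T.Adj u w → w = r)
    (hS0 : ∀ u, u ∈ S0 ↔ u ∉ L)
    {Sv : Finset V} {x0 : V} (hdeg : k ≤ (nb H Sv x0).card) {f : W → V}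
    (hf : PE H c Sv par r x0 S0 f) :
    HasRainbowCopy H c T := by
  classical
  have hrL : r ∉ L := fun h => ((hL r).mp h).1.ne rfl
  have hrS0 : r ∈ S0 := (hS0 r).mpr hrL
  have hcards : S0.card + L.card = k + 1 := by
    have h1 : S0 = Lᶜ := by ext u; rw [Finset.mem_compl]; exact hS0 u
    have h2 : Fintype.card W = k + 1 := by
      have := hT.card_edgeFinset
      rw [← hk, ← SimpleGraph.coe_edgeFinset, Set.ncard_coe_finset]
      exact this.symm
    rw [h1, Finset.card_compl, h2]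
    have : L.card ≤ Fintype.card W := Finset.card_le_univ L
    omega
  apply finish_av hc hpar hedge hL hS0 hf
  have h1 := card_av (x0 := x0) (par := par) (f := f) (Sv := Sv) hc hrS0
  have : 1 ≤ S0.card := Finset.card_pos.mpr ⟨r, hrS0⟩
  omega

/-- numeric estimate -/
lemma numeric (t : ℕ) (ht : 7 ≤ t) :
    ((t : ℝ) + 1) ^ 2 * (2 * Real.exp 1) ^ (t + 2) ≤ 16 ^ t := by
  have he : 2 * Real.exp 1 ≤ 5.44 := by
    have := Real.exp_one_lt_d9
    linarith
  have h0 : ∀ t : ℕ, 7 ≤ t → ((t : ℝ) + 1) ^ 2 * (5.44 : ℝ) ^ (t + 2) ≤ 16 ^ t := by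
    intro t ht
    induction t, ht using Nat.le_induction with
    | base => norm_num
    | succ t ht ih =>
      have ht' : (7 : ℝ) ≤ t := by exact_mod_cast ht
      push_cast
      have h1 : ((t : ℝ) + 1 + 1) ^ 2 * 5.44 ≤ 16 * ((t : ℝ) + 1) ^ 2 := by nlinarith
      calc ((t : ℝ) + 1 + 1) ^ 2 * (5.44 : ℝ) ^ (t + 1 + 2)
          = (((t : ℝ) + 1 + 1) ^ 2 * 5.44) * (5.44 : ℝ) ^ (t + 2) := by ring
        _ ≤ (16 * ((t : ℝ) + 1) ^ 2) * (5.44 : ℝ) ^ (t + 2) :=
            mul_le_mul_of_nonneg_right h1 (by positivity)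
        _ = 16 * (((t : ℝ) + 1) ^ 2 * (5.44 : ℝ) ^ (t + 2)) := by ring
        _ ≤ 16 * 16 ^ t := by linarith
        _ = 16 ^ (t + 1) := by ring
  refine le_trans ?_ (h0 t ht)
  apply mul_le_mul_of_nonneg_left _ (by positivity)
  exact pow_le_pow_left₀ (by positivity) he _

/-- the main embedding theorem, in terms of the number `j` of edges of the tree that are not
pendant edges at `r` -/
lemma embed_main [Fintype W] {H : SimpleGraph V} {c : Sym2 V → ℕ} (hc : ProperColouring H c)
    (hcod : ∀ x y, x ≠ y → ∀ A : Finset V, (∀ w ∈ A, H.Adj x w ∧ H.Adj y w) → A.card ≤ 2)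
    {T : SimpleGraph W} (hT : T.IsTree) {k j : ℕ} (hk : T.edgeSet.ncard = k) {r : W}
    (hj : {u | T.Adj r u ∧ ∀ w, T.Adj u w → w = r}.ncard + j = k)
    {Sv : Finset V} {x0 : V} (hx : x0 ∈ Sv) (hdeg0 : k ≤ (nb H Sv x0).card)
    (hdeg : ∀ v ∈ Sv, (j : ℝ) + 8 * √j < (nb H Sv v).card) :
    HasRainbowCopy H c T := by
  classical
  obtain ⟨par, hpar, hedge⟩ := exists_parent hT r
  set L : Finset W := Finset.univ.filter (fun u => T.Adj r u ∧ ∀ w, T.Adj u w → w = r) with hL
  have hLmem : ∀ u, u ∈ L ↔ T.Adj r u ∧ ∀ w, T.Adj u w → w = r := by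
    intro u; rw [hL]; simp
  have hLcard : L.card = {u | T.Adj r u ∧ ∀ w, T.Adj u w → w = r}.ncard := by
    rw [← Set.ncard_coe_finset]
    congr 1
    ext u; simp [hLmem]
  have hS0mem : ∀ u, u ∈ Lᶜ ↔ u ∉ L := fun u => Finset.mem_compl
  have hrL : r ∉ L := fun h => ((hLmem r).mp h).1.ne rfl
  have hshape : Shape par (fun v => T.dist r v) r Lᶜ := by
    refine ⟨(hS0mem r).mpr hrL, ?_, ?_⟩
    · intro v _ hvr
      rw [hS0mem]
      intro h
      exact hvr (((hLmem _).mp h).2 v (hpar v hvr).1)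
    · intro v _ hvr
      have := (hpar v hvr).2
      omega
  have hcard : (Lᶜ).card ≤ j + 1 := by
    have h2 : Fintype.card W = k + 1 := by
      have := hT.card_edgeFinset
      rw [← hk, ← SimpleGraph.coe_edgeFinset, Set.ncard_coe_finset]
      exact this.symm
    rw [Finset.card_compl, h2]
    omega
  obtain ⟨f, hf⟩ : ∃ f, PE H c Sv par r x0 Lᶜ f := by
    by_cases hj7 : j < 49
    · -- greedy
      refine embed_greedy hc hcod hx (j := j) ?_ _ hshape hcard
      intro v hv
      have h1 := hdeg v hv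
      have h2 : (j : ℝ) ≤ 8 * √j := by
        have h3 : √(j : ℝ) ≤ 8 := by
          rw [show (8 : ℝ) = √64 by
            rw [show (64 : ℝ) = 8 ^ 2 by norm_num]; exact (Real.sqrt_sq (by norm_num)).symm]
          apply Real.sqrt_le_sqrt
          have : (j : ℝ) < 49 := by exact_mod_cast hj7
          linarith
        have h4 : (j : ℝ) = √j * √j := (Real.mul_self_sqrt (by positivity)).symm
        nlinarith [Real.sqrt_nonneg (j : ℝ)]
      have h5 : (2 * j : ℝ) < (nb H Sv v).card := by linarith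
      have h6 : 2 * j < (nb H Sv v).card := by exact_mod_cast h5
      omega
    · push Not at hj7
      set t := Nat.sqrt j with ht
      have ht7 : 7 ≤ t := by
        rw [ht]; exact Nat.le_sqrt.mpr (by omega)
      have htj : t * t ≤ j := Nat.sqrt_le j
      have hjt : j < (t + 1) * (t + 1) := Nat.lt_succ_sqrt j
      obtain ⟨f, hf, -⟩ := embed_pot hc hcod hx (j := j) (m := t) (q := t + 2) (K := 4 * t)
        (by omega) (by omega) (by nlinarith) (by
          have hn := numeric t ht7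
          have h1 : ((j : ℝ) + 1) ≤ ((t : ℝ) + 1) ^ 2 := by
            have : j + 1 ≤ (t + 1) * (t + 1) := hjt
            have : ((j + 1 : ℕ) : ℝ) ≤ (((t + 1) * (t + 1) : ℕ) : ℝ) := by exact_mod_cast this
            push_cast at this
            nlinarith
          calc ((j : ℝ) + 1) * 2 ^ (t + 2) * Real.exp ((t + 2 : ℕ) : ℝ)
              = ((j : ℝ) + 1) * (2 * Real.exp 1) ^ (t + 2) := by
                rw [mul_pow, ← Real.exp_nat_mul, mul_one, mul_assoc]
            _ ≤ ((t : ℝ) + 1) ^ 2 * (2 * Real.exp 1) ^ (t + 2) :=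
                mul_le_mul_of_nonneg_right h1 (by positivity)
            _ ≤ 16 ^ t := hn
            _ = 2 ^ (4 * t) := by rw [pow_mul]; norm_num) (by
          intro v hv
          have h1 := hdeg v hv
          have h2 : (t : ℝ) ≤ √j := by
            apply Real.le_sqrt_of_sq_le
            have : ((t * t : ℕ) : ℝ) ≤ j := by exact_mod_cast htj
            push_cast at this
            nlinarith
          have h3 : ((j + 8 * t : ℕ) : ℝ) < (nb H Sv v).card := by
            push_cast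
            linarith
          have h4 : j + 8 * t < (nb H Sv v).card := by exact_mod_cast h3
          omega) _ hshape hcard
      exact ⟨f, hf⟩
  exact finish hc hT hk hpar hedge hLmem hS0mem hdeg0 hf

end Pool.Agent.Lib.MP_233400_co
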