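import Mathlib
import Pool.Agent.Lib.MP_233400_co.Finish

set_option autoImplicit false

namespace Pool.Agent.Lib.MP_233400_co

open Finset

variable {V W : Type*}

/-- in a tree at most one neighbour of `x` is closer to `w` -/
lemma far_nb {T : SimpleGraph W} (hT : T.IsTree) {w x p q : W} (hp : T.Adj x p) (hq : T.Adj x q)
    (hpq : p ≠ q) (hd : T.dist w p + 1 = T.dist w x) : T.dist w q = T.dist w x + 1 := by
  obtain ⟨par, hpar, hedge⟩ := exists_parent hT w
  rcases hT.dist_eq_dist_add_one_of_adj w hq with h | h
  · exfalso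
    have h1 : par x = q := by
      rcases hedge q x hq.symm with ⟨-, h'⟩ | ⟨hne, h'⟩
      · exact h'
      · have := (hpar q hne).2
        rw [h'] at this
        omega
    have h2 : par x = p := by
      rcases hedge p x hp.symm with ⟨-, h'⟩ | ⟨hne, h'⟩
      · exact h'
      · have := (hpar p hne).2
        rw [h'] at this
        omega
    exact hpq (h2.symm.trans h1)
  · exact h

lemma double_star_structure [Fintype W] {T : SimpleGraph W} (hT : T.IsTree)
    (hd : ∀ u v, T.dist u v ≤ 3) (hne : ∃ a b, T.Adj a b) :
    ∃ r s, T.Adj r s ∧ (∀ w, w ≠ r → w ≠ s → T.Adj r w ∨ T.Adj s w) ∧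
      (nb T Finset.univ s).card ≤ (nb T Finset.univ r).card := by
  classical
  obtain ⟨a, b, hab⟩ := hne
  obtain ⟨r, -, hr⟩ := Finset.exists_max_image (Finset.univ : Finset W)
    (fun v => (nb T Finset.univ v).card) ⟨a, Finset.mem_univ _⟩
  have hr1 : 1 ≤ (nb T Finset.univ r).card := by
    refine le_trans ?_ (hr a (Finset.mem_univ _))
    exact Finset.card_pos.mpr ⟨b, mem_nb.mpr ⟨Finset.mem_univ _, hab⟩⟩
  obtain ⟨s, hs, hsmax⟩ := Finset.exists_max_image (nb T Finset.univ r)
    (fun v => (nb T Finset.univ v).card) (Finset.card_pos.mp hr1)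
  have hrs : T.Adj r s := (mem_nb.mp hs).2
  refine ⟨r, s, hrs, ?_, hr s (Finset.mem_univ _)⟩
  intro w hwr hws
  by_contra hcon
  push Not at hcon
  obtain ⟨hc1, hc2⟩ := hcon
  obtain ⟨par, hpar, -⟩ := exists_parent hT w
  obtain ⟨hxr, hxd⟩ := hpar r hwr.symm
  set x := par r with hx
  have hxw : x ≠ w := by
    intro h; rw [h] at hxr; exact hc1 hxr.symm
  obtain ⟨hx'x, hx'd⟩ := hpar x hxw
  set x' := par x
  have hx'r : x' ≠ r := by
    intro h; rw [h] at hx'd; omega
  have htwo : 2 ≤ (nb T Finset.univ x).card := by
    have : ({x', r} : Finset W) ⊆ nb T Finset.univ x := by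
      intro y hy
      simp only [Finset.mem_insert, Finset.mem_singleton] at hy
      rcases hy with rfl | rfl
      · exact mem_nb.mpr ⟨Finset.mem_univ _, hx'x.symm⟩
      · exact mem_nb.mpr ⟨Finset.mem_univ _, hxr⟩
    have h2 := Finset.card_le_card this
    rwa [Finset.card_pair hx'r] at h2
  -- another neighbour of a vertex with at least two neighbours
  have hother : ∀ (v u : W), 2 ≤ (nb T Finset.univ v).card → ∃ z, T.Adj v z ∧ z ≠ u := by
    intro v u hv
    have : 0 < ((nb T Finset.univ v).erase u).card := by
      have := Finset.pred_card_le_card_erase (s := nb T Finset.univ v) (a := u)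
      omega
    obtain ⟨z, hz⟩ := Finset.card_pos.mp this
    rw [Finset.mem_erase, mem_nb] at hz
    exact ⟨z, hz.2.2, hz.1⟩
  by_cases hsx : s = x
  · -- then `dist w r = 3`
    have hwx : T.dist w x ≠ 1 := by
      intro h
      apply hc2
      rw [hsx]
      exact (SimpleGraph.dist_eq_one_iff_adj.mp h).symm
    have hwx0 : T.dist w x ≠ 0 := by
      intro h
      exact hxw ((hT.connected.dist_eq_zero_iff).mp h).symm
    obtain ⟨z, hrz, hzx⟩ := hother r x (htwo.trans (hr x (Finset.mem_univ _)))
    have := far_nb hT hxr.symm hrz hzx.symm hxd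
    have h3 := hd w z
    omega
  · have h1 := far_nb hT hxr.symm hrs (Ne.symm hsx) hxd
    obtain ⟨y, hsy, hyr⟩ := hother s r
      (htwo.trans (hsmax x (mem_nb.mpr ⟨Finset.mem_univ _, hxr.symm⟩)))
    have h2 := far_nb hT (w := w) hrs.symm hsy hyr.symm (by omega)
    have hwx0 : T.dist w x ≠ 0 := by
      intro h
      exact hxw ((hT.connected.dist_eq_zero_iff).mp h).symm
    have h3 := hd w y
    omega

/-- the number of candidates, bipartite version -/
lemma card_cand' {H : SimpleGraph V} {c : Sym2 V → ℕ} (hc : ProperColouring H c)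
    {Sv : Finset V} {par : W → W}
    {r : W} {x0 : V} {S : Finset W} {f : W → V}
    (hr : r ∈ S) {b : W} (hpb : par b ∈ S)
    (hpar : par b ≠ r → ∀ w, H.Adj (f (par b)) w → ¬ H.Adj x0 w) :
    (nb H Sv (f (par b))).card ≤ (cand H c Sv par r x0 S f b).card + (S.card - 1) +
      kap H par r S f (par b) := by
  classical
  set y := f (par b) with hy
  set B1 := (nb H Sv y).filter
    (fun w => c s(y, w) ∈ (S.erase r).image (fun v => c s(f (par v), f v))) with hB1
  set B2 := (S.filter (fun b' => H.Adj (f (par b)) (f b') ∧ ¬ tadj par r (par b) b')).image f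
    with hB2
  have hsub : nb H Sv y ⊆ (cand H c Sv par r x0 S f b ∪ B1) ∪ B2 := by
    intro w hw
    simp only [Finset.mem_union]
    by_cases h1 : c s(y, w) ∈ (S.erase r).image (fun v => c s(f (par v), f v))
    · left; right
      exact Finset.mem_filter.mpr ⟨hw, h1⟩
    by_cases h2 : w ∈ S.image f
    · right
      obtain ⟨v, hv, rfl⟩ := Finset.mem_image.mp h2
      refine Finset.mem_image.mpr ⟨v, Finset.mem_filter.mpr ⟨hv, (mem_nb.mp hw).2, ?_⟩, rfl⟩
      rintro (⟨hvr, hp⟩ | ⟨hpr, hp⟩)
      · apply h1
        refine Finset.mem_image.mpr ⟨v, Finset.mem_erase.mpr ⟨hvr, hv⟩, ?_⟩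
        rw [hp]
      · apply h1
        refine Finset.mem_image.mpr ⟨par b, Finset.mem_erase.mpr ⟨hpr, hpb⟩, ?_⟩
        rw [hp, Sym2.eq_swap]
    · left; left
      refine mem_cand.mpr ⟨mem_nb.mp hw, ?_, ?_, fun hpr => hpar hpr w (mem_nb.mp hw).2⟩
      · intro v hv hvw
        exact h2 (Finset.mem_image.mpr ⟨v, hv, hvw⟩)
      · intro v hv hvr hvw
        exact h1 (Finset.mem_image.mpr ⟨v, Finset.mem_erase.mpr ⟨hvr, hv⟩, hvw⟩)
  have c1 : B1.card ≤ S.card - 1 := by
    have : B1.card ≤ ((S.erase r).image (fun v => c s(f (par v), f v))).card := by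
      apply Finset.card_le_card_of_injOn (fun w => c s(y, w))
      · intro w hw
        exact (Finset.mem_filter.mp hw).2
      · intro w hw w' hw' hww
        by_contra hne
        have a1 := (mem_nb.mp (Finset.mem_filter.mp hw).1).2
        have a2 := (mem_nb.mp (Finset.mem_filter.mp hw').1).2
        exact hc y w w' a1 a2 hne hww
    calc B1.card ≤ _ := this
      _ ≤ (S.erase r).card := Finset.card_image_le
      _ = S.card - 1 := Finset.card_erase_of_mem hr
  have c2 : B2.card ≤ kap H par r S f (par b) := by
    unfold kap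
    exact Finset.card_image_le
  have := Finset.card_le_card hsub
  have u2 := Finset.card_union_le (cand H c Sv par r x0 S f b ∪ B1) B2
  have u3 := Finset.card_union_le (cand H c Sv par r x0 S f b) B1
  omega

/-- trees of diameter at most three -/
lemma embed_diam [Fintype W] {n : ℕ} {H : SimpleGraph (Fin n → Bool)} (hH : H ≤ Q n)
    {c : Sym2 (Fin n → Bool) → ℕ} (hc : ProperColouring H c)
    {T : SimpleGraph W} (hT : T.IsTree) {k : ℕ} (hk1 : 1 ≤ k) (hk : T.edgeSet.ncard = k)
    (hd : ∀ u v, T.dist u v ≤ 3)
    {Sv : Finset (Fin n → Bool)} {x0 : Fin n → Bool} (hx : x0 ∈ Sv)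
    (hdeg0 : k ≤ (nb H Sv x0).card)
    (hdeg : ∀ v ∈ Sv, k ≤ 2 * (nb H Sv v).card) :
    HasRainbowCopy H c T := by
  classical
  have hne : ∃ a b, T.Adj a b := by
    by_contra hcon
    push Not at hcon
    have : T.edgeSet = ∅ := by
      rw [Set.eq_empty_iff_forall_notMem]
      intro e
      induction e using Sym2.ind with
      | _ a b => exact hcon a b
    rw [this] at hk
    simp at hk
    omega
  obtain ⟨r, s, hrs, hcover, hcards⟩ := double_star_structure hT hd hne
  obtain ⟨par, hpar, hedge⟩ := exists_parent hT r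
  have hpars : par s = r := by
    rcases hedge r s hrs with h | h
    · exact h.2
    · exact absurd rfl h.1
  have hsr : s ≠ r := hrs.ne'
  have hparrs : ∀ v, v ≠ r → par v = r ∨ par v = s := by
    intro v hv
    by_cases hvs : v = s
    · left; rw [hvs]; exact hpars
    · rcases hcover v hv hvs with h | h
      · left
        rcases hedge r v h with h' | h'
        · exact h'.2
        · exact absurd rfl h'.1
      · right
        rcases hedge s v h with h' | h'
        · exact h'.2
        · rw [hpars] at h'
          exact absurd h'.2.symm hv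
  set L : Finset W := Finset.univ.filter (fun u => T.Adj r u ∧ ∀ w, T.Adj u w → w = r) with hL
  have hLmem : ∀ u, u ∈ L ↔ T.Adj r u ∧ ∀ w, T.Adj u w → w = r := by
    intro u; rw [hL]; simp
  have hS0mem : ∀ u, u ∈ Lᶜ ↔ u ∉ L := fun u => Finset.mem_compl
  have hrL : r ∉ L := fun h => ((hLmem r).mp h).1.ne rfl
  have hshape : Shape par (fun v => T.dist r v) r Lᶜ := by
    refine ⟨(hS0mem r).mpr hrL, ?_, ?_⟩
    · intro v _ hvr
      rw [hS0mem]
      intro h
      exact hvr (((hLmem _).mp h).2 v (hpar v hvr).1)
    · intro v _ hvr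
      have := (hpar v hvr).2
      omega
  -- children of `r` other than `s` are leaves
  have hLbig : (nb T Finset.univ r).erase s ⊆ L := by
    intro v hv
    rw [Finset.mem_erase, mem_nb] at hv
    obtain ⟨hvs, -, hrv⟩ := hv
    rw [hLmem]
    refine ⟨hrv, fun w hw => ?_⟩
    by_contra hwr
    rcases hedge v w hw with h | h
    · rcases hparrs w h.1 with h' | h'
      · rw [h'] at h; exact hrv.ne h.2
      · rw [h'] at h; exact hvs h.2.symm
    · have : par v = r := by
        rcases hedge r v hrv with h' | h'
        · exact h'.2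
        · exact absurd rfl h'.1
      exact hwr (h.2.symm.trans this)
  have hcardW : Fintype.card W = k + 1 := by
    have := hT.card_edgeFinset
    rw [← hk, ← SimpleGraph.coe_edgeFinset, Set.ncard_coe_finset]
    exact this.symm
  have hcardN : k + 1 ≤ (nb T Finset.univ r).card + (nb T Finset.univ s).card := by
    rw [← hcardW, ← Finset.card_univ]
    have : (Finset.univ : Finset W) ⊆ nb T Finset.univ r ∪ nb T Finset.univ s := by
      intro v _
      rw [Finset.mem_union, mem_nb, mem_nb]
      by_cases hvr : v = r
      · right; rw [hvr]; exact ⟨Finset.mem_univ _, hrs.symm⟩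
      by_cases hvs : v = s
      · left; rw [hvs]; exact ⟨Finset.mem_univ _, hrs⟩
      rcases hcover v hvr hvs with h | h
      · left; exact ⟨Finset.mem_univ _, h⟩
      · right; exact ⟨Finset.mem_univ _, h⟩
    exact (Finset.card_le_card this).trans (Finset.card_union_le _ _)
  have hLcard : (nb T Finset.univ r).card - 1 ≤ L.card := by
    rw [← Finset.card_erase_of_mem (mem_nb.mpr ⟨Finset.mem_univ _, hrs⟩)]
    exact Finset.card_le_card hLbig
  have hS0card : 2 * (Lᶜ).card ≤ k + 3 := by
    rw [Finset.card_compl, hcardW]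
    omega
  have key : ∀ S : Finset W, Shape par (fun v => T.dist r v) r S → S ⊆ Lᶜ →
      ∃ f, PE H c Sv par r x0 S f := by
    apply shape_induction
    · intro _
      exact ⟨_, base_PE hx⟩
    · intro b S hsh hb hpb ih hsub
      obtain ⟨f, hf⟩ := ih ((Finset.subset_insert b S).trans hsub)
      have hcardS : S.card + 1 ≤ (Lᶜ).card := by
        rw [← Finset.card_insert_of_notMem hb]
        exact Finset.card_le_card hsub
      have hbr : b ≠ r := fun h => hb (h ▸ hsh.root)
      have hpb' := hparrs b hbr
      have hkap : kap H par r S f (par b) = 0 := by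
        unfold kap
        rw [Finset.card_eq_zero, Finset.filter_eq_empty_iff]
        rintro v hv ⟨hadj, hnt⟩
        rcases hpb' with hp | hp
        · rw [hp, hf.root] at hadj
          rw [hp] at hnt
          by_cases hvr : v = r
          · rw [hvr, hf.root] at hadj; exact hadj.ne rfl
          · by_cases hpv : par v = r
            · exact hnt (Or.inl ⟨hvr, hpv⟩)
            · exact hf.avoid v hv hvr hpv hadj
        · rw [hp] at hadj hnt
          by_cases hvr : v = r
          · exact hnt (Or.inr ⟨hsr, by rw [hvr]; exact hpars⟩)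
          · rcases hparrs v hvr with h | h
            · -- `v` is a child of `r` in `S`, so `v = s`
              have hvS0 := hsub (Finset.mem_insert_of_mem hv)
              have hrv : T.Adj r v := by
                have := (hpar v hvr).1
                rwa [h] at this
              have hvs : v = s := by
                by_contra hvs
                exact (hS0mem v).mp hvS0 (hLbig (Finset.mem_erase.mpr
                  ⟨hvs, mem_nb.mpr ⟨Finset.mem_univ _, hrv⟩⟩))
              rw [hvs] at hadj
              exact hadj.ne rfl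
            · exact hnt (Or.inl ⟨hvr, h⟩)
      have h1 := card_cand' (Sv := Sv) (x0 := x0) (f := f) hc hsh.root hpb (by
        intro hpr w hw hxw
        have hp : par b = s := by
          rcases hpb' with h | h
          · exact absurd h hpr
          · exact h
        have e1 : H.Adj x0 (f s) := by
          have := hf.adj s (by rw [← hp]; exact hpb) hsr
          rwa [hpars, hf.root] at this
        rw [hp] at hw
        have p1 := Q_adj_parity (hH e1)
        have p2 := Q_adj_parity (hH hw)
        have p3 := Q_adj_parity (hH hxw)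
        rw [p2, p1] at p3
        simp at p3)
      have h2 := hdeg _ (hf.mem _ hpb)
      have hSpos : 1 ≤ S.card := Finset.card_pos.mpr ⟨r, hsh.root⟩
      have h4 : 0 < (cand H c Sv par r x0 S f b).card := by
        rw [hkap] at h1
        omega
      obtain ⟨w, hw⟩ := Finset.card_pos.mp h4
      exact ⟨_, extend hf hsh.closed hsh.root hb hpb hw⟩
  obtain ⟨f, hf⟩ := key _ hshape (Finset.Subset.refl _)
  exact finish hc hT hk hpar hedge hLmem hS0mem hdeg0 hf

end Pool.Agent.Lib.MP_233400_co
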