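import Mathlib
import Pool.Agent.Lib.MP_233400_co.Basic

set_option autoImplicit false

namespace Pool.Agent.Lib.MP_233400_co

open Finset

variable {V : Type*}

/-- a rainbow system of disjoint legs of length two at `x`, as a set of pairs (middle, end) -/
structure RM (H : SimpleGraph V) (c : Sym2 V → ℕ) (Sv : Finset V) (x : V)
    (M : Finset (V × V)) : Prop where
  adj1 : ∀ p ∈ M, p.1 ∈ nb H Sv x
  adj2 : ∀ p ∈ M, p.2 ∈ nb H Sv p.1
  nex : ∀ p ∈ M, p.2 ≠ x
  c11 : ∀ p ∈ M, ∀ q ∈ M, c s(x, p.1) = c s(x, q.1) → p = q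
  c12 : ∀ p ∈ M, ∀ q ∈ M, c s(x, p.1) ≠ c s(q.1, q.2)
  c22 : ∀ p ∈ M, ∀ q ∈ M, c s(p.1, p.2) = c s(q.1, q.2) → p = q
  zz : ∀ p ∈ M, ∀ q ∈ M, p.2 = q.2 → p = q

/-- colours of the system -/
noncomputable def VM (c : Sym2 V → ℕ) (x : V) (M : Finset (V × V)) : Finset ℕ :=
  M.image (fun p => c s(x, p.1)) ∪ M.image (fun p => c s(p.1, p.2))

lemma mem_VM {c : Sym2 V → ℕ} {x : V} {M : Finset (V × V)} {a : ℕ} :
    a ∈ VM c x M ↔ (∃ p ∈ M, c s(x, p.1) = a) ∨ (∃ p ∈ M, c s(p.1, p.2) = a) := by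
  unfold VM
  rw [Finset.mem_union, Finset.mem_image, Finset.mem_image]

lemma card_VM {c : Sym2 V → ℕ} {x : V} {M : Finset (V × V)} : (VM c x M).card ≤ 2 * M.card := by
  unfold VM
  refine (Finset.card_union_le _ _).trans ?_
  have h1 : (M.image (fun p => c s(x, p.1))).card ≤ M.card := Finset.card_image_le
  have h2 : (M.image (fun p => c s(p.1, p.2))).card ≤ M.card := Finset.card_image_le
  omega

open Classical in
/-- neighbours of `x` along unused colours -/
noncomputable def Ys (H : SimpleGraph V) (c : Sym2 V → ℕ) (Sv : Finset V) (x : V)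
    (M : Finset (V × V)) : Finset V :=
  (nb H Sv x).filter (fun y => c s(x, y) ∉ VM c x M)

lemma mem_Ys {H : SimpleGraph V} {c : Sym2 V → ℕ} {Sv : Finset V} {x : V}
    {M : Finset (V × V)} {y : V} :
    y ∈ Ys H c Sv x M ↔ y ∈ nb H Sv x ∧ c s(x, y) ∉ VM c x M := by
  unfold Ys
  rw [Finset.mem_filter]

open Classical in
/-- forward neighbours of `y` -/
noncomputable def Es (H : SimpleGraph V) (Sv : Finset V) (x y : V) : Finset V :=
  (nb H Sv y).erase x

lemma mem_Es {H : SimpleGraph V} {Sv : Finset V} {x y z : V} :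
    z ∈ Es H Sv x y ↔ z ≠ x ∧ z ∈ nb H Sv y := by
  classical
  unfold Es
  rw [Finset.mem_erase]

lemma card_Es {H : SimpleGraph V} {Sv : Finset V} {x y : V} (hx : x ∈ Sv)
    (hy : y ∈ nb H Sv x) : (nb H Sv y).card = (Es H Sv x y).card + 1 := by
  classical
  have hm : x ∈ nb H Sv y := mem_nb.mpr ⟨hx, (mem_nb.mp hy).2.symm⟩
  have := Finset.card_pos.mpr ⟨x, hm⟩
  unfold Es
  rw [Finset.card_erase_of_mem hm]
  omega

lemma card_Ys {H : SimpleGraph V} {c : Sym2 V → ℕ} (hc : ProperColouring H c) {Sv : Finset V}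
    {x : V} {M : Finset (V × V)} :
    (nb H Sv x).card ≤ (Ys H c Sv x M).card + (VM c x M).card := by
  classical
  have hsplit : (nb H Sv x).card = (Ys H c Sv x M).card +
      ((nb H Sv x).filter (fun y => ¬ (c s(x, y) ∉ VM c x M))).card := by
    unfold Ys
    rw [← Finset.card_filter_add_card_filter_not (s := nb H Sv x)
      (fun y => c s(x, y) ∉ VM c x M)]
  have : ((nb H Sv x).filter (fun y => ¬ (c s(x, y) ∉ VM c x M))).card ≤ (VM c x M).card := by
    apply Finset.card_le_card_of_injOn (fun y => c s(x, y))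
    · intro y hy
      have := (Finset.mem_filter.mp hy).2
      push Not at this
      exact this
    · intro w hw w' hw' hww
      by_contra hne
      have a1 := (mem_nb.mp (Finset.mem_filter.mp hw).1).2
      have a2 := (mem_nb.mp (Finset.mem_filter.mp hw').1).2
      exact hc x w w' a1 a2 hne hww
  omega

lemma RM.erase [DecidableEq (V × V)] {H : SimpleGraph V} {c : Sym2 V → ℕ} {Sv : Finset V} {x : V}
    {M : Finset (V × V)} (h : RM H c Sv x M) (p : V × V) : RM H c Sv x (M.erase p) :=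
  ⟨fun q hq => h.adj1 q (Finset.mem_of_mem_erase hq),
   fun q hq => h.adj2 q (Finset.mem_of_mem_erase hq),
   fun q hq => h.nex q (Finset.mem_of_mem_erase hq),
   fun q hq r hr => h.c11 q (Finset.mem_of_mem_erase hq) r (Finset.mem_of_mem_erase hr),
   fun q hq r hr => h.c12 q (Finset.mem_of_mem_erase hq) r (Finset.mem_of_mem_erase hr),
   fun q hq r hr => h.c22 q (Finset.mem_of_mem_erase hq) r (Finset.mem_of_mem_erase hr),
   fun q hq r hr => h.zz q (Finset.mem_of_mem_erase hq) r (Finset.mem_of_mem_erase hr)⟩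

lemma RM.empty {H : SimpleGraph V} {c : Sym2 V → ℕ} {Sv : Finset V} {x : V} :
    RM H c Sv x ∅ := by
  constructor <;> simp

lemma RM.ins [DecidableEq (V × V)] {H : SimpleGraph V} {c : Sym2 V → ℕ}
    (hc : ProperColouring H c) {Sv : Finset V} {x : V}
    {M : Finset (V × V)} (h : RM H c Sv x M) {y z : V} (hy : y ∈ nb H Sv x)
    (hz : z ∈ Es H Sv x y) (ha : c s(x, y) ∉ VM c x M) (hg : c s(y, z) ∉ VM c x M)
    (hZ : ∀ p ∈ M, p.2 ≠ z) :
    RM H c Sv x (insert (y, z) M) ∧ (y, z) ∉ M := by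
  have hnotmem : (y, z) ∉ M := fun hm => ha (mem_VM.mpr (Or.inl ⟨_, hm, rfl⟩))
  rw [mem_Es] at hz
  have hxy := (mem_nb.mp hy).2
  have hyz := (mem_nb.mp hz.2).2
  have hcc : c s(x, y) ≠ c s(y, z) := by
    have := hc y x z hxy.symm hyz hz.1.symm
    rwa [Sym2.eq_swap] at this
  refine ⟨⟨?_, ?_, ?_, ?_, ?_, ?_, ?_⟩, hnotmem⟩
  · intro p hp
    rw [Finset.mem_insert] at hp
    rcases hp with rfl | hp
    · exact hy
    · exact h.adj1 p hp
  · intro p hp
    rw [Finset.mem_insert] at hp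
    rcases hp with rfl | hp
    · exact hz.2
    · exact h.adj2 p hp
  · intro p hp
    rw [Finset.mem_insert] at hp
    rcases hp with rfl | hp
    · exact hz.1
    · exact h.nex p hp
  · intro p hp q hq hpq
    rw [Finset.mem_insert] at hp hq
    rcases hp with rfl | hp
    · rcases hq with rfl | hq
      · rfl
      · exact absurd (mem_VM.mpr (Or.inl ⟨q, hq, hpq.symm⟩)) ha
    · rcases hq with rfl | hq
      · exact absurd (mem_VM.mpr (Or.inl ⟨p, hp, hpq⟩)) ha
      · exact h.c11 p hp q hq hpq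
  · intro p hp q hq hpq
    rw [Finset.mem_insert] at hp hq
    rcases hp with rfl | hp
    · rcases hq with rfl | hq
      · exact hcc hpq
      · exact ha (mem_VM.mpr (Or.inr ⟨q, hq, hpq.symm⟩))
    · rcases hq with rfl | hq
      · exact hg (mem_VM.mpr (Or.inl ⟨p, hp, hpq⟩))
      · exact h.c12 p hp q hq hpq
  · intro p hp q hq hpq
    rw [Finset.mem_insert] at hp hq
    rcases hp with rfl | hp
    · rcases hq with rfl | hq
      · rfl
      · exact absurd (mem_VM.mpr (Or.inr ⟨q, hq, hpq.symm⟩)) hg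
    · rcases hq with rfl | hq
      · exact absurd (mem_VM.mpr (Or.inr ⟨p, hp, hpq⟩)) hg
      · exact h.c22 p hp q hq hpq
  · intro p hp q hq hpq
    rw [Finset.mem_insert] at hp hq
    rcases hp with rfl | hp
    · rcases hq with rfl | hq
      · rfl
      · exact absurd hpq.symm (hZ q hq)
    · rcases hq with rfl | hq
      · exact absurd hpq (hZ p hp)
      · exact h.zz p hp q hq hpq

/-- membership in the colour set after removing a pair -/
lemma VM_erase_mem [DecidableEq (V × V)] {c : Sym2 V → ℕ} {x : V} {M : Finset (V × V)}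
    {p : V × V} {a : ℕ} (h : a ∈ VM c x (M.erase p)) : a ∈ VM c x M := by
  rw [mem_VM] at h ⊢
  rcases h with ⟨q, hq, h⟩ | ⟨q, hq, h⟩
  · exact Or.inl ⟨q, Finset.mem_of_mem_erase hq, h⟩
  · exact Or.inr ⟨q, Finset.mem_of_mem_erase hq, h⟩

lemma RM.alpha_notMem [DecidableEq (V × V)] {H : SimpleGraph V} {c : Sym2 V → ℕ} {Sv : Finset V}
    {x : V} {M : Finset (V × V)} (h : RM H c Sv x M) {p : V × V} (hp : p ∈ M) :
    c s(x, p.1) ∉ VM c x (M.erase p) := by
  intro hm
  rcases mem_VM.mp hm with ⟨q, hq, hqe⟩ | ⟨q, hq, hqe⟩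
  · have hq' := Finset.mem_erase.mp hq
    exact hq'.1 (h.c11 q hq'.2 p hp hqe)
  · have hq' := Finset.mem_erase.mp hq
    exact h.c12 p hp q hq'.2 hqe.symm

lemma RM.gamma_notMem [DecidableEq (V × V)] {H : SimpleGraph V} {c : Sym2 V → ℕ} {Sv : Finset V}
    {x : V} {M : Finset (V × V)} (h : RM H c Sv x M) {p : V × V} (hp : p ∈ M) :
    c s(p.1, p.2) ∉ VM c x (M.erase p) := by
  intro hm
  rcases mem_VM.mp hm with ⟨q, hq, hqe⟩ | ⟨q, hq, hqe⟩
  · have hq' := Finset.mem_erase.mp hq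
    exact h.c12 q hq'.2 p hp hqe
  · have hq' := Finset.mem_erase.mp hq
    exact hq'.1 (h.c22 q hq'.2 p hp hqe)

lemma VM_insert_mem [DecidableEq (V × V)] {c : Sym2 V → ℕ} {x y z : V} {M : Finset (V × V)}
    {a : ℕ} (h : a ∈ VM c x (insert (y, z) M)) :
    a = c s(x, y) ∨ a = c s(y, z) ∨ a ∈ VM c x M := by
  rw [mem_VM] at h
  rcases h with ⟨q, hq, h⟩ | ⟨q, hq, h⟩
  · rw [Finset.mem_insert] at hq
    rcases hq with rfl | hq
    · left; exact h.symm
    · right; right; exact mem_VM.mpr (Or.inl ⟨q, hq, h⟩)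
  · rw [Finset.mem_insert] at hq
    rcases hq with rfl | hq
    · right; left; exact h.symm
    · right; right; exact mem_VM.mpr (Or.inr ⟨q, hq, h⟩)

section maxM

variable {H : SimpleGraph V} {c : Sym2 V → ℕ} {Sv : Finset V} {x : V} {M : Finset (V × V)}

/-- all forward edges of unused neighbours are blocked -/
lemma blocked (hc : ProperColouring H c) (h : RM H c Sv x M)
    (hmax : ∀ M', RM H c Sv x M' → M'.card ≤ M.card) {y z : V} (hy : y ∈ Ys H c Sv x M)
    (hz : z ∈ Es H Sv x y) (hZ : ∀ p ∈ M, p.2 ≠ z) : c s(y, z) ∈ VM c x M := by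
  classical
  by_contra hg
  obtain ⟨h1, h2⟩ := h.ins hc (mem_Ys.mp hy).1 hz (mem_Ys.mp hy).2 hg hZ
  have := hmax _ h1
  rw [Finset.card_insert_of_notMem h2] at this
  omega

/-- the exchange argument -/
lemma exchange (hc : ProperColouring H c) (h : RM H c Sv x M)
    (hmax : ∀ M', RM H c Sv x M' → M'.card ≤ M.card) {p : V × V} (hp : p ∈ M) {y y' z z' : V}
    (hy : y ∈ Ys H c Sv x M) (hy' : y' ∈ Ys H c Sv x M) (hyy : y ≠ y')
    (hz : z ∈ Es H Sv x y) (hz' : z' ∈ Es H Sv x y') (hZ : ∀ p ∈ M, p.2 ≠ z)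
    (hZ' : ∀ p ∈ M, p.2 ≠ z') (ha : c s(y, z) = c s(x, p.1)) (hg : c s(y', z') = c s(p.1, p.2)) :
    z = z' := by
  classical
  by_contra hzz
  have hyn := mem_Ys.mp hy
  have hyn' := mem_Ys.mp hy'
  have h0 := h.erase p
  obtain ⟨h1, h1'⟩ := h0.ins hc hyn.1 hz (fun hm => hyn.2 (VM_erase_mem hm))
    (by rw [ha]; exact h.alpha_notMem hp) (fun q hq => hZ q (Finset.mem_of_mem_erase hq))
  have hxy := (mem_nb.mp hyn.1).2
  have hxy' := (mem_nb.mp hyn'.1).2
  obtain ⟨h2, h2'⟩ := h1.ins hc hyn'.1 hz' (by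
      intro hm
      rcases VM_insert_mem hm with h3 | h3 | h3
      · exact hc x y y' hxy hxy' hyy h3.symm
      · rw [ha] at h3
        exact hyn'.2 (mem_VM.mpr (Or.inl ⟨p, hp, h3.symm⟩))
      · exact hyn'.2 (VM_erase_mem h3)) (by
      intro hm
      rw [hg] at hm
      rcases VM_insert_mem hm with h3 | h3 | h3
      · exact hyn.2 (mem_VM.mpr (Or.inr ⟨p, hp, h3⟩))
      · rw [ha] at h3
        exact h.c12 p hp p hp h3.symm
      · exact h.gamma_notMem hp h3) (by
      intro q hq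
      rw [Finset.mem_insert] at hq
      rcases hq with rfl | hq
      · exact hzz
      · exact hZ' q (Finset.mem_of_mem_erase hq))
  have := hmax _ h2
  rw [Finset.card_insert_of_notMem h2', Finset.card_insert_of_notMem h1',
    Finset.card_erase_of_mem hp] at this
  have := Finset.card_pos.mpr ⟨p, hp⟩
  omega

open Classical in
/-- unused neighbours with a forward edge of colour `a` to a vertex outside the system -/
noncomputable def Fs (H : SimpleGraph V) (c : Sym2 V → ℕ) (Sv : Finset V) (x : V)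
    (M : Finset (V × V)) (a : ℕ) : Finset V :=
  (Ys H c Sv x M).filter (fun y => ∃ z ∈ Es H Sv x y, (∀ p ∈ M, p.2 ≠ z) ∧ c s(y, z) = a)

lemma mem_Fs {a : ℕ} {y : V} : y ∈ Fs H c Sv x M a ↔ y ∈ Ys H c Sv x M ∧
    ∃ z ∈ Es H Sv x y, (∀ p ∈ M, p.2 ≠ z) ∧ c s(y, z) = a := by
  classical
  unfold Fs
  rw [Finset.mem_filter]

/-- at most one vertex has an edge of given colour to `w` -/
lemma colour_unique (hc : ProperColouring H c) {y y' w : V} (hy : H.Adj y w) (hy' : H.Adj y' w)
    (h : c s(y, w) = c s(y', w)) : y = y' := by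
  by_contra hne
  apply hc w y y' hy.symm hy'.symm hne
  rw [Sym2.eq_swap, h, Sym2.eq_swap]

/-- the two colour classes of one pair: at most three or disjoint -/
lemma two_classes (hc : ProperColouring H c)
    (hcod : ∀ x y, x ≠ y → ∀ A : Finset V, (∀ w ∈ A, H.Adj x w ∧ H.Adj y w) → A.card ≤ 2)
    (h : RM H c Sv x M)
    (hmax : ∀ M', RM H c Sv x M' → M'.card ≤ M.card) {p : V × V} (hp : p ∈ M) :
    (Fs H c Sv x M (c s(x, p.1))).card + (Fs H c Sv x M (c s(p.1, p.2))).card ≤
      max (Ys H c Sv x M).card 3 := by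
  classical
  set A := Fs H c Sv x M (c s(x, p.1)) with hA
  set G := Fs H c Sv x M (c s(p.1, p.2)) with hG
  by_cases hint : ∃ y0, y0 ∈ A ∧ y0 ∈ G
  · apply le_max_of_le_right
    obtain ⟨y0, h0A, h0G⟩ := hint
    obtain ⟨hy0, za, hza, hZa, hca⟩ := mem_Fs.mp h0A
    obtain ⟨-, zg, hzg, hZg, hcg⟩ := mem_Fs.mp h0G
    have hzne : za ≠ zg := by
      rintro rfl
      rw [hca] at hcg
      exact h.c12 p hp p hp hcg
    -- every other element of `G` is joined to `za` by colour gamma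
    have hGz : ∀ g ∈ G, g ≠ y0 → H.Adj g za ∧ c s(g, za) = c s(p.1, p.2) := by
      intro g hg hne
      obtain ⟨hgY, z, hz, hZ, hcz⟩ := mem_Fs.mp hg
      have := exchange hc h hmax hp hy0 hgY (Ne.symm hne) hza hz hZa hZ hca hcz
      subst this
      exact ⟨(mem_nb.mp (mem_Es.mp hz).2).2, hcz⟩
    have hAz : ∀ a ∈ A, a ≠ y0 → H.Adj a zg ∧ c s(a, zg) = c s(x, p.1) := by
      intro a ha hne
      obtain ⟨haY, z, hz, hZ, hcz⟩ := mem_Fs.mp ha
      have := exchange hc h hmax hp haY hy0 hne hz hzg hZ hZg hcz hcg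
      subst this
      exact ⟨(mem_nb.mp (mem_Es.mp hz).2).2, hcz⟩
    have hG1 : (G.erase y0).card ≤ 1 := by
      rw [Finset.card_le_one]
      intro a ha b hb
      rw [Finset.mem_erase] at ha hb
      have h1 := hGz a ha.2 ha.1
      have h2 := hGz b hb.2 hb.1
      exact colour_unique hc h1.1 h2.1 (h1.2.trans h2.2.symm)
    have hA1 : (A.erase y0).card ≤ 1 := by
      rw [Finset.card_le_one]
      intro a ha b hb
      rw [Finset.mem_erase] at ha hb
      have h1 := hAz a ha.2 ha.1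
      have h2 := hAz b hb.2 hb.1
      exact colour_unique hc h1.1 h2.1 (h1.2.trans h2.2.symm)
    have hnot : ¬ ((G.erase y0).card = 1 ∧ (A.erase y0).card = 1) := by
      rintro ⟨e1, e2⟩
      obtain ⟨g, hg⟩ := Finset.card_eq_one.mp e1
      obtain ⟨a, ha⟩ := Finset.card_eq_one.mp e2
      have hg' : g ∈ G.erase y0 := by rw [hg]; simp
      have ha' : a ∈ A.erase y0 := by rw [ha]; simp
      rw [Finset.mem_erase] at hg' ha'
      have h1 := hGz g hg'.2 hg'.1
      have h2 := hAz a ha'.2 ha'.1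
      by_cases hag : a = g
      · subst hag
        -- three common neighbours of `a` and `y0`
        have hxa := (mem_nb.mp (mem_Ys.mp (mem_Fs.mp ha'.2).1).1).2
        have hx0 := (mem_nb.mp (mem_Ys.mp hy0).1).2
        have h3 := hcod a y0 ha'.1 {x, za, zg} (by
          intro w hw
          simp only [Finset.mem_insert, Finset.mem_singleton] at hw
          rcases hw with rfl | rfl | rfl
          · exact ⟨hxa.symm, hx0.symm⟩
          · exact ⟨h1.1, (mem_nb.mp (mem_Es.mp hza).2).2⟩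
          · exact ⟨h2.1, (mem_nb.mp (mem_Es.mp hzg).2).2⟩)
        rw [Finset.card_eq_three.mpr ⟨x, za, zg, (mem_Es.mp hza).1.symm, (mem_Es.mp hzg).1.symm,
          hzne, rfl⟩] at h3
        omega
      · obtain ⟨haY, z, hz, hZ, hcz⟩ := mem_Fs.mp ha'.2
        obtain ⟨hgY, z', hz', hZ', hcz'⟩ := mem_Fs.mp hg'.2
        have e3 := exchange hc h hmax hp haY hgY hag hz hz' hZ hZ' hcz hcz'
        -- `z = zg`, `z' = za`
        have e4 : z = zg := exchange hc h hmax hp haY hy0 ha'.1 hz hzg hZ hZg hcz hcg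
        have e5 : za = z' := exchange hc h hmax hp hy0 hgY (Ne.symm hg'.1) hza hz' hZa hZ' hca hcz'
        exact hzne (e5.trans (e3.symm.trans e4))
    have hcG : G.card = (G.erase y0).card + 1 := by
      rw [Finset.card_erase_of_mem h0G]
      have := Finset.card_pos.mpr ⟨y0, h0G⟩
      omega
    have hcA : A.card = (A.erase y0).card + 1 := by
      rw [Finset.card_erase_of_mem h0A]
      have := Finset.card_pos.mpr ⟨y0, h0A⟩
      omega
    omega
  · apply le_max_of_le_left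
    push Not at hint
    have hdisj : Disjoint A G := by
      rw [Finset.disjoint_left]
      exact hint
    rw [← Finset.card_union_of_disjoint hdisj]
    apply Finset.card_le_card
    intro y hy
    rw [Finset.mem_union] at hy
    rcases hy with hy | hy
    · exact (mem_Fs.mp hy).1
    · exact (mem_Fs.mp hy).1

/-- degree of an unused neighbour -/
lemma card_Es_le (hc : ProperColouring H c) (h : RM H c Sv x M)
    (hmax : ∀ M', RM H c Sv x M' → M'.card ≤ M.card) {y : V} (hy : y ∈ Ys H c Sv x M) :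
    (Es H Sv x y).card ≤
      (∑ p ∈ M, (open Classical in if p.2 ∈ Es H Sv x y then 1 else 0)) +
      (∑ p ∈ M, (open Classical in if y ∈ Fs H c Sv x M (c s(x, p.1)) then 1 else 0)) +
      (∑ p ∈ M, (open Classical in if y ∈ Fs H c Sv x M (c s(p.1, p.2)) then 1 else 0)) := by
  classical
  set E1 := (Es H Sv x y).filter (fun z => ∃ p ∈ M, p.2 = z) with hE1
  set E2 := (Es H Sv x y).filter (fun z => (∀ p ∈ M, p.2 ≠ z) ∧
    ∃ p ∈ M, c s(x, p.1) = c s(y, z)) with hE2
  set E3 := (Es H Sv x y).filter (fun z => (∀ p ∈ M, p.2 ≠ z) ∧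
    ∃ p ∈ M, c s(p.1, p.2) = c s(y, z)) with hE3
  have hsub : Es H Sv x y ⊆ (E1 ∪ E2) ∪ E3 := by
    intro z hz
    rw [Finset.mem_union, Finset.mem_union]
    by_cases hZ : ∃ p ∈ M, p.2 = z
    · left; left; exact Finset.mem_filter.mpr ⟨hz, hZ⟩
    · push Not at hZ
      have hb := blocked hc h hmax hy hz hZ
      rcases mem_VM.mp hb with hb | hb
      · left; right; exact Finset.mem_filter.mpr ⟨hz, hZ, hb⟩
      · right; exact Finset.mem_filter.mpr ⟨hz, hZ, hb⟩
  have hinj : Set.InjOn (fun z => c s(y, z)) (Es H Sv x y) := by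
    intro w hw w' hw' hww
    by_contra hne
    have a1 := (mem_nb.mp (mem_Es.mp hw).2).2
    have a2 := (mem_nb.mp (mem_Es.mp hw').2).2
    exact hc y w w' a1 a2 hne hww
  have c1 : E1.card ≤ ∑ p ∈ M, (if p.2 ∈ Es H Sv x y then 1 else 0) := by
    rw [← Finset.card_filter]
    calc E1.card ≤ ((M.filter (fun p => p.2 ∈ Es H Sv x y)).image (fun p => p.2)).card := by
          apply Finset.card_le_card
          intro z hz
          obtain ⟨hz, p, hp, rfl⟩ := Finset.mem_filter.mp hz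
          exact Finset.mem_image.mpr ⟨p, Finset.mem_filter.mpr ⟨hp, hz⟩, rfl⟩
      _ ≤ _ := Finset.card_image_le
  have c2 : E2.card ≤ ∑ p ∈ M, (if y ∈ Fs H c Sv x M (c s(x, p.1)) then 1 else 0) := by
    rw [← Finset.card_filter]
    calc E2.card ≤ ((M.filter (fun p => y ∈ Fs H c Sv x M (c s(x, p.1)))).image
          (fun p => c s(x, p.1))).card := by
          apply Finset.card_le_card_of_injOn (fun z => c s(y, z))
          · intro z hz
            obtain ⟨hz, hZ, p, hp, hpe⟩ := Finset.mem_filter.mp hz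
            refine Finset.mem_coe.mpr (Finset.mem_image.mpr ⟨p, Finset.mem_filter.mpr ⟨hp, ?_⟩,
              hpe⟩)
            exact mem_Fs.mpr ⟨hy, z, hz, hZ, hpe.symm⟩
          · exact hinj.mono (fun z hz => Finset.mem_coe.mpr (Finset.mem_filter.mp hz).1)
      _ ≤ _ := Finset.card_image_le
  have c3 : E3.card ≤ ∑ p ∈ M, (if y ∈ Fs H c Sv x M (c s(p.1, p.2)) then 1 else 0) := by
    rw [← Finset.card_filter]
    calc E3.card ≤ ((M.filter (fun p => y ∈ Fs H c Sv x M (c s(p.1, p.2)))).image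
          (fun p => c s(p.1, p.2))).card := by
          apply Finset.card_le_card_of_injOn (fun z => c s(y, z))
          · intro z hz
            obtain ⟨hz, hZ, p, hp, hpe⟩ := Finset.mem_filter.mp hz
            refine Finset.mem_coe.mpr (Finset.mem_image.mpr ⟨p, Finset.mem_filter.mpr ⟨hp, ?_⟩,
              hpe⟩)
            exact mem_Fs.mpr ⟨hy, z, hz, hZ, hpe.symm⟩
          · exact hinj.mono (fun z hz => Finset.mem_coe.mpr (Finset.mem_filter.mp hz).1)
      _ ≤ _ := Finset.card_image_le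
  have := Finset.card_le_card hsub
  have u1 := Finset.card_union_le (E1 ∪ E2) E3
  have u2 := Finset.card_union_le E1 E2
  omega

/-- sum of forward degrees -/
lemma sum_Es_le (hc : ProperColouring H c)
    (hcod : ∀ x y, x ≠ y → ∀ A : Finset V, (∀ w ∈ A, H.Adj x w ∧ H.Adj y w) → A.card ≤ 2)
    (h : RM H c Sv x M)
    (hmax : ∀ M', RM H c Sv x M' → M'.card ≤ M.card) :
    ∑ y ∈ Ys H c Sv x M, (Es H Sv x y).card ≤ M.card +
      ∑ p ∈ M, ((Fs H c Sv x M (c s(x, p.1))).card + (Fs H c Sv x M (c s(p.1, p.2))).card) := by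
  classical
  have hFsub : ∀ a, (Ys H c Sv x M).filter (fun y => y ∈ Fs H c Sv x M a) = Fs H c Sv x M a := by
    intro a
    ext y
    rw [Finset.mem_filter]
    exact ⟨fun hy => hy.2, fun hy => ⟨(mem_Fs.mp hy).1, hy⟩⟩
  calc ∑ y ∈ Ys H c Sv x M, (Es H Sv x y).card
      ≤ ∑ y ∈ Ys H c Sv x M, ((∑ p ∈ M, (if p.2 ∈ Es H Sv x y then 1 else 0)) +
      (∑ p ∈ M, (if y ∈ Fs H c Sv x M (c s(x, p.1)) then 1 else 0)) +
      (∑ p ∈ M, (if y ∈ Fs H c Sv x M (c s(p.1, p.2)) then 1 else 0))) :=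
        Finset.sum_le_sum fun y hy => card_Es_le hc h hmax hy
    _ = (∑ p ∈ M, ∑ y ∈ Ys H c Sv x M, (if p.2 ∈ Es H Sv x y then 1 else 0)) +
      ((∑ p ∈ M, (Fs H c Sv x M (c s(x, p.1))).card) +
      (∑ p ∈ M, (Fs H c Sv x M (c s(p.1, p.2))).card)) := by
        rw [Finset.sum_add_distrib, Finset.sum_add_distrib, Finset.sum_comm, add_assoc]
        congr 1
        rw [Finset.sum_comm (s := Ys H c Sv x M), Finset.sum_comm (s := Ys H c Sv x M)]
        congr 1
        · apply Finset.sum_congr rfl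
          intro p _
          rw [← Finset.card_filter, hFsub]
        · apply Finset.sum_congr rfl
          intro p _
          rw [← Finset.card_filter, hFsub]
    _ ≤ (∑ p ∈ M, 1) +
      ((∑ p ∈ M, (Fs H c Sv x M (c s(x, p.1))).card) +
      (∑ p ∈ M, (Fs H c Sv x M (c s(p.1, p.2))).card)) := by
        apply Nat.add_le_add_right
        apply Finset.sum_le_sum
        intro p hp
        rw [← Finset.card_filter]
        set B := (Ys H c Sv x M).filter (fun y => p.2 ∈ Es H Sv x y) with hB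
        have hpB : p.1 ∉ B := by
          intro hm
          have := (mem_Ys.mp (Finset.mem_filter.mp hm).1).2
          exact this (mem_VM.mpr (Or.inl ⟨p, hp, rfl⟩))
        have h3 := hcod x p.2 (h.nex p hp).symm (insert p.1 B) (by
          intro w hw
          rw [Finset.mem_insert] at hw
          rcases hw with rfl | hw
          · exact ⟨(mem_nb.mp (h.adj1 p hp)).2, (mem_nb.mp (h.adj2 p hp)).2.symm⟩
          · obtain ⟨h4, h5⟩ := Finset.mem_filter.mp hw
            exact ⟨(mem_nb.mp (mem_Ys.mp h4).1).2, (mem_nb.mp (mem_Es.mp h5).2).2.symm⟩)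
        rw [Finset.card_insert_of_notMem hpB] at h3
        omega
    _ = _ := by
        rw [Finset.sum_const, smul_eq_mul, mul_one, Finset.sum_add_distrib]

lemma sum_Es_le_three (hc : ProperColouring H c)
    (hcod : ∀ x y, x ≠ y → ∀ A : Finset V, (∀ w ∈ A, H.Adj x w ∧ H.Adj y w) → A.card ≤ 2)
    (h : RM H c Sv x M)
    (hmax : ∀ M', RM H c Sv x M' → M'.card ≤ M.card) (hu : 3 ≤ (Ys H c Sv x M).card) :
    ∑ y ∈ Ys H c Sv x M, (Es H Sv x y).card ≤ M.card * ((Ys H c Sv x M).card + 1) := by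
  refine (sum_Es_le hc hcod h hmax).trans ?_
  have : ∑ p ∈ M, ((Fs H c Sv x M (c s(x, p.1))).card + (Fs H c Sv x M (c s(p.1, p.2))).card) ≤
      ∑ p ∈ M, (Ys H c Sv x M).card := by
    apply Finset.sum_le_sum
    intro p hp
    have := two_classes hc hcod h hmax hp
    rwa [max_eq_left hu] at this
  rw [Finset.sum_const, smul_eq_mul] at this
  rw [mul_add, mul_one]
  omega

lemma sum_Es_le_two (hc : ProperColouring H c)
    (hcod : ∀ x y, x ≠ y → ∀ A : Finset V, (∀ w ∈ A, H.Adj x w ∧ H.Adj y w) → A.card ≤ 2)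
    (h : RM H c Sv x M)
    (hmax : ∀ M', RM H c Sv x M' → M'.card ≤ M.card) (hu : (Ys H c Sv x M).card = 2) :
    ∑ y ∈ Ys H c Sv x M, (Es H Sv x y).card ≤ 3 * M.card + 1 := by
  classical
  refine (sum_Es_le hc hcod h hmax).trans ?_
  set N : V × V → ℕ := fun p =>
    (Fs H c Sv x M (c s(x, p.1))).card + (Fs H c Sv x M (c s(p.1, p.2))).card with hN
  set B := M.filter (fun p => 3 ≤ N p) with hB
  have h3 : ∀ p ∈ M, N p ≤ 2 + (if 3 ≤ N p then 1 else 0) := by
    intro p hp
    have := two_classes hc hcod h hmax hp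
    rw [hu] at this
    have h4 : N p ≤ 3 := by simpa using this
    split_ifs <;> omega
  -- the special common neighbour
  have hspec : ∀ p ∈ B, ∃ w, w ≠ x ∧ ∀ y ∈ Ys H c Sv x M, H.Adj y w ∧
      (c s(y, w) = c s(x, p.1) ∨ c s(y, w) = c s(p.1, p.2)) := by
    intro p hpB
    obtain ⟨hp, hp3⟩ := Finset.mem_filter.mp hpB
    set A := Fs H c Sv x M (c s(x, p.1)) with hA
    set G := Fs H c Sv x M (c s(p.1, p.2)) with hG
    have hAs : A ⊆ Ys H c Sv x M := fun y hy => (mem_Fs.mp hy).1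
    have hGs : G ⊆ Ys H c Sv x M := fun y hy => (mem_Fs.mp hy).1
    have hA2 := Finset.card_le_card hAs
    have hG2 := Finset.card_le_card hGs
    rw [hu] at hA2 hG2
    have hp3' : 3 ≤ A.card + G.card := hp3
    rcases (by omega : (A.card = 2 ∧ 1 ≤ G.card) ∨ (G.card = 2 ∧ 1 ≤ A.card)) with
      ⟨e1, e2⟩ | ⟨e1, e2⟩
    · have hAY : A = Ys H c Sv x M := Finset.eq_of_subset_of_card_le hAs (by omega)
      obtain ⟨y0, hy0⟩ := Finset.card_pos.mp (by omega : 0 < G.card)
      obtain ⟨hy0Y, zg, hzg, hZg, hcg⟩ := mem_Fs.mp hy0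
      refine ⟨zg, (mem_Es.mp hzg).1, ?_⟩
      intro y hy
      by_cases hyy : y = y0
      · subst hyy
        exact ⟨(mem_nb.mp (mem_Es.mp hzg).2).2, Or.inr hcg⟩
      · have hyA : y ∈ A := by rw [hAY]; exact hy
        obtain ⟨-, z, hz, hZ, hcz⟩ := mem_Fs.mp hyA
        have := exchange hc h hmax hp hy hy0Y hyy hz hzg hZ hZg hcz hcg
        subst this
        exact ⟨(mem_nb.mp (mem_Es.mp hz).2).2, Or.inl hcz⟩
    · have hGY : G = Ys H c Sv x M := Finset.eq_of_subset_of_card_le hGs (by omega)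
      obtain ⟨y0, hy0⟩ := Finset.card_pos.mp (by omega : 0 < A.card)
      obtain ⟨hy0Y, za, hza, hZa, hca⟩ := mem_Fs.mp hy0
      refine ⟨za, (mem_Es.mp hza).1, ?_⟩
      intro y hy
      by_cases hyy : y = y0
      · subst hyy
        exact ⟨(mem_nb.mp (mem_Es.mp hza).2).2, Or.inl hca⟩
      · have hyG : y ∈ G := by rw [hGY]; exact hy
        obtain ⟨-, z, hz, hZ, hcz⟩ := mem_Fs.mp hyG
        have := exchange hc h hmax hp hy0Y hy (Ne.symm hyy) hza hz hZa hZ hca hcz
        subst this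
        exact ⟨(mem_nb.mp (mem_Es.mp hz).2).2, Or.inr hcz⟩
  obtain ⟨a, b, hab, hYab⟩ := Finset.card_eq_two.mp hu
  have haY : a ∈ Ys H c Sv x M := by rw [hYab]; simp
  have hbY : b ∈ Ys H c Sv x M := by rw [hYab]; simp
  have hB1 : B.card ≤ 1 := by
    rw [Finset.card_le_one]
    intro p hp q hq
    obtain ⟨w, hwx, hw⟩ := hspec p hp
    obtain ⟨w', hwx', hw'⟩ := hspec q hq
    have hww : w = w' := by
      by_contra hne
      have h5 := hcod a b hab {x, w, w'} (by
        intro v hv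
        simp only [Finset.mem_insert, Finset.mem_singleton] at hv
        rcases hv with rfl | rfl | rfl
        · exact ⟨(mem_nb.mp (mem_Ys.mp haY).1).2.symm, (mem_nb.mp (mem_Ys.mp hbY).1).2.symm⟩
        · exact ⟨(hw a haY).1, (hw b hbY).1⟩
        · exact ⟨(hw' a haY).1, (hw' b hbY).1⟩)
      rw [Finset.card_eq_three.mpr ⟨x, w, w', hwx.symm, hwx'.symm, hne, rfl⟩] at h5
      omega
    subst hww
    have hp' := (Finset.mem_filter.mp hp).1
    have hq' := (Finset.mem_filter.mp hq).1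
    rcases (hw a haY).2 with e1 | e1 <;> rcases (hw' a haY).2 with e2 | e2
    · exact h.c11 p hp' q hq' (e1.symm.trans e2)
    · exact absurd (e1.symm.trans e2) (h.c12 p hp' q hq')
    · exact absurd (e2.symm.trans e1) (h.c12 q hq' p hp')
    · exact h.c22 p hp' q hq' (e1.symm.trans e2)
  have h6 : ∑ p ∈ M, N p ≤ 2 * M.card + B.card := by
    calc ∑ p ∈ M, N p ≤ ∑ p ∈ M, (2 + (if 3 ≤ N p then 1 else 0)) := Finset.sum_le_sum h3
      _ = 2 * M.card + B.card := by
        rw [Finset.sum_add_distrib, Finset.sum_const, smul_eq_mul, ← Finset.card_filter, mul_comm]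
  have h7 : M.card + ∑ p ∈ M, N p ≤ 3 * M.card + 1 := by omega
  exact h7

/-- an unused neighbour of large degree can be exchanged into the system -/
lemma exchange_in (hc : ProperColouring H c) (h : RM H c Sv x M)
    (hmax : ∀ M', RM H c Sv x M' → M'.card ≤ M.card) {y : V} (hy : y ∈ Ys H c Sv x M)
    (hE : M.card < (Es H Sv x y).card) :
    ∃ M', RM H c Sv x M' ∧ M'.card = M.card ∧ y ∉ Ys H c Sv x M' := by
  classical
  have : ∃ z ∈ Es H Sv x y, ∀ p ∈ M, p.2 ≠ z := by
    by_contra hcon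
    push Not at hcon
    have : (Es H Sv x y).card ≤ (M.image (fun p => p.2)).card := by
      apply Finset.card_le_card
      intro z hz
      obtain ⟨p, hp, hpz⟩ := hcon z hz
      exact Finset.mem_image.mpr ⟨p, hp, hpz⟩
    have h2 : (M.image (fun p => p.2)).card ≤ M.card := Finset.card_image_le
    omega
  obtain ⟨z, hz, hZ⟩ := this
  have hb := blocked hc h hmax hy hz hZ
  have hyn := mem_Ys.mp hy
  obtain ⟨p, hp, hpn⟩ : ∃ p ∈ M, c s(y, z) ∉ VM c x (M.erase p) := by
    rcases mem_VM.mp hb with ⟨p, hp, he⟩ | ⟨p, hp, he⟩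
    · exact ⟨p, hp, by rw [← he]; exact h.alpha_notMem hp⟩
    · exact ⟨p, hp, by rw [← he]; exact h.gamma_notMem hp⟩
  obtain ⟨h1, h1'⟩ := (h.erase p).ins hc hyn.1 hz (fun hm => hyn.2 (VM_erase_mem hm))
    hpn (fun q hq => hZ q (Finset.mem_of_mem_erase hq))
  refine ⟨_, h1, ?_, ?_⟩
  · rw [Finset.card_insert_of_notMem h1', Finset.card_erase_of_mem hp]
    have := Finset.card_pos.mpr ⟨p, hp⟩
    omega
  · intro hm
    apply (mem_Ys.mp hm).2
    exact mem_VM.mpr (Or.inl ⟨(y, z), Finset.mem_insert_self _ _, rfl⟩)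

end maxM

end Pool.Agent.Lib.MP_233400_co
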