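import Mathlib
import Pool.Agent.Lib.MP_233400_co.Diam

set_option autoImplicit false

namespace Pool.Agent.Lib.MP_233400_co.OldDiameterThree

open Pool.Agent.Lib.MP_233400_co

/-- **Theorem.** Let `T` be a tree with `k ≥ 1` edges in which any two vertices are at distance
at most three. Then `ex*(Q_n, T) = ex*(Q_n, K_{1,k})` for every `n`. -/
theorem result (n k : ℕ) (hk1 : 1 ≤ k) {W : Type} [Finite W] (T : SimpleGraph W)
    (hT : T.IsTree) (hk : T.edgeSet.ncard = k) (hd : ∀ u v : W, T.dist u v ≤ 3) :
    exStar (Q n) T = exStar (Q n) (completeBipartiteGraph (Fin 1) (Fin k)) := by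
  classical
  have : Fintype W := Fintype.ofFinite W
  apply exact_of_upper hk1 hk
  intro n H hH c hc hD
  obtain ⟨S, hS, hmin⟩ := exists_core H ((k : ℝ) - 1) hD
  obtain ⟨x0, hx0, hlarge⟩ := exists_large_of_core H ((k : ℝ) - 1) S hS
  refine embed_diam hH hc hT hk1 hk hd hx0 ?_ ?_
  · have h2 : (k : ℝ) < ((nb H S x0).card + 1 : ℕ) := by push_cast; linarith
    have h3 : k < (nb H S x0).card + 1 := by exact_mod_cast h2
    omega
  · intro u hu
    have h1 := hmin u hu
    have h2 : (k : ℝ) < (2 * (nb H S u).card + 1 : ℕ) := by push_cast; linarith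
    have h3 : k < 2 * (nb H S u).card + 1 := by exact_mod_cast h2
    omega

end Pool.Agent.Lib.MP_233400_co.OldDiameterThree
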