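import Mathlib
import Pool.Agent.Lib.MP_233400_co.Match
import Pool.Agent.Lib.MP_233400_co.Finish

set_option autoImplicit false

namespace Pool.Agent.Lib.MP_233400_co

open Finset

variable {V : Type*}

/-- greedy choice of ends of legs along vertices of high degree -/
lemma greedy_legs {H : SimpleGraph V} {c : Sym2 V → ℕ} (hc : ProperColouring H c)
    (hcod : ∀ x y, x ≠ y → ∀ A : Finset V, (∀ w ∈ A, H.Adj x w ∧ H.Adj y w) → A.card ≤ 2)
    {Sv : Finset V} {y : V} {X : Finset V} (hX : X ⊆ nb H Sv y)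
    (hdeg : ∀ x ∈ X, 2 * X.card ≤ (nb H Sv x).card) :
    ∀ P : Finset V, P ⊆ X → ∃ w : V → V, (∀ x ∈ P, w x ∈ nb H Sv x) ∧
      (∀ x ∈ P, ∀ x' ∈ X, c s(x, w x) ≠ c s(y, x')) ∧
      (∀ x ∈ P, ∀ x' ∈ P, c s(x, w x) = c s(x', w x') → x = x') ∧
      (∀ x ∈ P, ∀ x' ∈ X, x' ∉ P → ¬ H.Adj x' (w x)) ∧
      (∀ x ∈ P, ∀ x' ∈ P, w x = w x' → x = x') := by
  classical
  intro P
  induction P using Finset.induction_on with
  | empty => intro _; exact ⟨fun x => x, by simp, by simp, by simp, by simp, by simp⟩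
  | insert x P hxP ih =>
    intro hsub
    have hxX : x ∈ X := hsub (Finset.mem_insert_self _ _)
    have hPX : P ⊆ X := (Finset.subset_insert _ _).trans hsub
    obtain ⟨w, h1, h2, h3, h4, h5⟩ := ih hPX
    have hyx : H.Adj y x := (mem_nb.mp (hX hxX)).2
    -- forbidden sets
    set F1 := (nb H Sv x).filter (fun v => c s(x, v) ∈ X.image (fun x' => c s(y, x'))) with hF1
    set F2 := (nb H Sv x).filter (fun v => c s(x, v) ∈ P.image (fun x' => c s(x', w x'))) with hF2
    set R := X \ (insert x P) with hR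
    set F3 := R.biUnion (fun x' => (nb H Sv x).filter (fun v => v ≠ y ∧ H.Adj x' v)) with hF3
    have hinj : Set.InjOn (fun z => c s(x, z)) (nb H Sv x) := by
      intro w hw w' hw' hww
      by_contra hne
      exact hc x w w' (mem_nb.mp hw).2 (mem_nb.mp hw').2 hne hww
    have c1 : F1.card ≤ X.card := by
      calc F1.card ≤ (X.image (fun x' => c s(y, x'))).card := by
            apply Finset.card_le_card_of_injOn (fun v => c s(x, v))
            · intro v hv; exact (Finset.mem_filter.mp hv).2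
            · exact hinj.mono (fun z hz => Finset.mem_coe.mpr (Finset.mem_filter.mp hz).1)
        _ ≤ X.card := Finset.card_image_le
    have c2 : F2.card ≤ P.card := by
      calc F2.card ≤ (P.image (fun x' => c s(x', w x'))).card := by
            apply Finset.card_le_card_of_injOn (fun v => c s(x, v))
            · intro v hv; exact (Finset.mem_filter.mp hv).2
            · exact hinj.mono (fun z hz => Finset.mem_coe.mpr (Finset.mem_filter.mp hz).1)
        _ ≤ P.card := Finset.card_image_le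
    have c3 : F3.card ≤ R.card := by
      calc F3.card ≤ ∑ x' ∈ R, ((nb H Sv x).filter (fun v => v ≠ y ∧ H.Adj x' v)).card :=
            Finset.card_biUnion_le
        _ ≤ ∑ x' ∈ R, 1 := by
            apply Finset.sum_le_sum
            intro x' hx'
            rw [hR, Finset.mem_sdiff, Finset.mem_insert] at hx'
            push Not at hx'
            set B := (nb H Sv x).filter (fun v => v ≠ y ∧ H.Adj x' v) with hB
            have hyB : y ∉ B := by
              intro hm; exact (Finset.mem_filter.mp hm).2.1 rfl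
            have := hcod x x' (Ne.symm hx'.2.1) (insert y B) (by
              intro v hv
              rw [Finset.mem_insert] at hv
              rcases hv with rfl | hv
              · exact ⟨hyx.symm, (mem_nb.mp (hX hx'.1)).2.symm⟩
              · obtain ⟨e1, e2⟩ := Finset.mem_filter.mp hv
                exact ⟨(mem_nb.mp e1).2, e2.2⟩)
            rw [Finset.card_insert_of_notMem hyB] at this
            omega
        _ = R.card := by simp
    have cR : R.card + (P.card + 1) = X.card := by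
      rw [hR, ← Finset.card_insert_of_notMem hxP]
      exact Finset.card_sdiff_add_card_eq_card hsub
    have hd := hdeg x hxX
    obtain ⟨v, hv, hvF⟩ : ∃ v ∈ nb H Sv x, v ∉ (F1 ∪ F2) ∪ F3 := by
      by_contra hcon
      push Not at hcon
      have hle := Finset.card_le_card (fun v hv => hcon v hv : nb H Sv x ⊆ (F1 ∪ F2) ∪ F3)
      have u1 := Finset.card_union_le (F1 ∪ F2) F3
      have u2 := Finset.card_union_le F1 F2
      omega
    rw [Finset.mem_union, Finset.mem_union] at hvF
    push Not at hvF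
    obtain ⟨⟨hv1, hv2⟩, hv3⟩ := hvF
    have hvX : ∀ x' ∈ X, c s(x, v) ≠ c s(y, x') := by
      intro x' hx' he
      exact hv1 (Finset.mem_filter.mpr ⟨hv, Finset.mem_image.mpr ⟨x', hx', he.symm⟩⟩)
    have hvy : v ≠ y := by
      rintro rfl
      exact hvX x hxX (by rw [Sym2.eq_swap])
    have hvP : ∀ x' ∈ P, c s(x', w x') ≠ c s(x, v) := by
      intro x' hx' he
      exact hv2 (Finset.mem_filter.mpr ⟨hv, Finset.mem_image.mpr ⟨x', hx', he⟩⟩)
    have hne : ∀ x' ∈ P, x' ≠ x := fun x' hx' h => hxP (h ▸ hx')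
    have hf : ∀ x' ∈ P, Function.update w x v x' = w x' := fun x' hx' =>
      Function.update_of_ne (hne x' hx') _ _
    have hfx : Function.update w x v x = v := Function.update_self _ _ _
    have hvw : ∀ x' ∈ P, v ≠ w x' := by
      intro x' hx' he
      apply h4 x' hx' x hxX hxP
      rw [← he]; exact (mem_nb.mp hv).2
    refine ⟨Function.update w x v, ?_, ?_, ?_, ?_, ?_⟩
    · intro x' hx'
      rw [Finset.mem_insert] at hx'
      rcases hx' with rfl | hx'
      · rw [hfx]; exact hv
      · rw [hf x' hx']; exact h1 x' hx'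
    · intro x' hx' x'' hx''
      rw [Finset.mem_insert] at hx'
      rcases hx' with rfl | hx'
      · rw [hfx]; exact hvX x'' hx''
      · rw [hf x' hx']; exact h2 x' hx' x'' hx''
    · intro a ha b hb hab
      rw [Finset.mem_insert] at ha hb
      rcases ha with rfl | ha
      · rcases hb with rfl | hb
        · rfl
        · rw [hfx, hf b hb] at hab
          exact absurd hab.symm (hvP b hb)
      · rcases hb with rfl | hb
        · rw [hfx, hf a ha] at hab
          exact absurd hab (hvP a ha)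
        · rw [hf a ha, hf b hb] at hab
          exact h3 a ha b hb hab
    · intro a ha x' hx' hx'P
      rw [Finset.mem_insert] at ha
      rw [Finset.mem_insert] at hx'P
      push Not at hx'P
      rcases ha with rfl | ha
      · rw [hfx]
        intro hadj
        apply hv3
        refine Finset.mem_biUnion.mpr ⟨x', ?_, Finset.mem_filter.mpr ⟨hv, hvy, hadj⟩⟩
        rw [hR, Finset.mem_sdiff, Finset.mem_insert]
        push Not
        exact ⟨hx', hx'P⟩
      · rw [hf a ha]
        exact h4 a ha x' hx' hx'P.2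
    · intro a ha b hb hab
      rw [Finset.mem_insert] at ha hb
      rcases ha with rfl | ha
      · rcases hb with rfl | hb
        · rfl
        · rw [hfx, hf b hb] at hab
          exact absurd hab (hvw b hb)
      · rcases hb with rfl | hb
        · rw [hfx, hf a ha] at hab
          exact absurd hab.symm (hvw a ha)
        · rw [hf a ha, hf b hb] at hab
          exact h5 a ha b hb hab

/-- many neighbours of high degree give a rainbow system of legs -/
lemma RM_of_high {H : SimpleGraph V} {c : Sym2 V → ℕ} (hc : ProperColouring H c)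
    (hcod : ∀ x y, x ≠ y → ∀ A : Finset V, (∀ w ∈ A, H.Adj x w ∧ H.Adj y w) → A.card ≤ 2)
    {Sv : Finset V} {y : V} {X : Finset V} (hX : X ⊆ nb H Sv y)
    (hdeg : ∀ x ∈ X, 2 * X.card ≤ (nb H Sv x).card) :
    ∃ M, RM H c Sv y M ∧ M.card = X.card := by
  classical
  obtain ⟨w, h1, h2, h3, -, h5⟩ := greedy_legs hc hcod hX hdeg X (Finset.Subset.refl _)
  refine ⟨X.image (fun x => (x, w x)), ⟨?_, ?_, ?_, ?_, ?_, ?_, ?_⟩, ?_⟩
  · intro p hp
    obtain ⟨x, hx, rfl⟩ := Finset.mem_image.mp hp
    exact hX hx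
  · intro p hp
    obtain ⟨x, hx, rfl⟩ := Finset.mem_image.mp hp
    exact h1 x hx
  · intro p hp
    obtain ⟨x, hx, rfl⟩ := Finset.mem_image.mp hp
    intro he
    simp only at he
    apply h2 x hx x hx
    rw [he, Sym2.eq_swap]
  · intro p hp q hq hpq
    obtain ⟨x, hx, rfl⟩ := Finset.mem_image.mp hp
    obtain ⟨x', hx', rfl⟩ := Finset.mem_image.mp hq
    simp only at hpq
    have : x = x' := by
      by_contra hne
      exact hc y x x' (mem_nb.mp (hX hx)).2 (mem_nb.mp (hX hx')).2 hne hpq
    rw [this]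
  · intro p hp q hq hpq
    obtain ⟨x, hx, rfl⟩ := Finset.mem_image.mp hp
    obtain ⟨x', hx', rfl⟩ := Finset.mem_image.mp hq
    exact h2 x' hx' x hx hpq.symm
  · intro p hp q hq hpq
    obtain ⟨x, hx, rfl⟩ := Finset.mem_image.mp hp
    obtain ⟨x', hx', rfl⟩ := Finset.mem_image.mp hq
    rw [h3 x hx x' hx' hpq]
  · intro p hp q hq hpq
    obtain ⟨x, hx, rfl⟩ := Finset.mem_image.mp hp
    obtain ⟨x', hx', rfl⟩ := Finset.mem_image.mp hq
    rw [h5 x hx x' hx' hpq]
  · rw [Finset.card_image_of_injective]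
    intro a b hab
    exact (Prod.mk.inj hab).1

/-- existence of a maximum system -/
lemma exists_max_RM [Fintype V] {H : SimpleGraph V} {c : Sym2 V → ℕ} {Sv : Finset V} (x : V) :
    ∃ M, RM H c Sv x M ∧ ∀ M', RM H c Sv x M' → M'.card ≤ M.card := by
  classical
  obtain ⟨M, hM, hmax⟩ := Finset.exists_max_image
    ((Finset.univ : Finset (Finset (V × V))).filter (fun M => RM H c Sv x M)) Finset.card
    ⟨∅, Finset.mem_filter.mpr ⟨Finset.mem_univ _, RM.empty⟩⟩
  exact ⟨M, (Finset.mem_filter.mp hM).2, fun M' hM' =>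
    hmax M' (Finset.mem_filter.mpr ⟨Finset.mem_univ _, hM'⟩)⟩

/-- the local inequality at a vertex of high degree, case `s < m` -/
lemma high_lt [Fintype V] {H : SimpleGraph V} {c : Sym2 V → ℕ} (hc : ProperColouring H c)
    (hcod : ∀ x y, x ≠ y → ∀ A : Finset V, (∀ w ∈ A, H.Adj x w ∧ H.Adj y w) → A.card ≤ 2)
    {Sv : Finset V} {x : V} (hx : x ∈ Sv) {s m : ℕ} (hsm : s < m)
    (hD : m + s ≤ (nb H Sv x).card)
    (hno : ∀ M, RM H c Sv x M → M.card < s) :
    (s : ℤ) * ((nb H Sv x).card - (m + s - 1)) ≤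
      ∑ y ∈ nb H Sv x, max 0 (3 * (s : ℤ) - 2 * (nb H Sv y).card) := by
  classical
  obtain ⟨M, hM, hmax⟩ := exists_max_RM (H := H) (c := c) (Sv := Sv) x
  have ht := hno M hM
  have hu := card_Ys (M := M) (x := x) (Sv := Sv) hc
  have hV := card_VM (c := c) (x := x) (M := M)
  set u := (Ys H c Sv x M).card with hudef
  set t := M.card with htdef
  set D := (nb H Sv x).card with hDdef
  have hu3 : 3 ≤ u := by omega
  have hsum := sum_Es_le_three hc hcod hM hmax hu3
  have h1 : ∑ y ∈ Ys H c Sv x M, (3 * (s : ℤ) - 2 * (nb H Sv y).card) ≤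
      ∑ y ∈ nb H Sv x, max 0 (3 * (s : ℤ) - 2 * (nb H Sv y).card) := by
    calc ∑ y ∈ Ys H c Sv x M, (3 * (s : ℤ) - 2 * (nb H Sv y).card)
        ≤ ∑ y ∈ Ys H c Sv x M, max 0 (3 * (s : ℤ) - 2 * (nb H Sv y).card) :=
          Finset.sum_le_sum fun y _ => le_max_right _ _
      _ ≤ _ := Finset.sum_le_sum_of_subset_of_nonneg
          (fun y hy => (mem_Ys.mp hy).1) (fun y _ _ => le_max_left _ _)
  refine le_trans ?_ h1
  have h2 : ∑ y ∈ Ys H c Sv x M, (3 * (s : ℤ) - 2 * (nb H Sv y).card) =
      u * (3 * s - 2) - 2 * ∑ y ∈ Ys H c Sv x M, ((Es H Sv x y).card : ℤ) := by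
    rw [Finset.mul_sum]
    have : ∀ y ∈ Ys H c Sv x M, (3 * (s : ℤ) - 2 * (nb H Sv y).card) =
        (3 * s - 2) - 2 * ((Es H Sv x y).card : ℤ) := by
      intro y hy
      rw [card_Es hx (mem_Ys.mp hy).1]
      push_cast; ring
    rw [Finset.sum_congr rfl this, Finset.sum_sub_distrib, Finset.sum_const, nsmul_eq_mul]
  rw [h2]
  have h3 : ∑ y ∈ Ys H c Sv x M, ((Es H Sv x y).card : ℤ) ≤ t * (u + 1) := by
    exact_mod_cast hsum
  have h4 : (t : ℤ) * (u + 1) ≤ (s - 1) * (u + 1) := by
    apply mul_le_mul_of_nonneg_right _ (by positivity)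
    have : (t : ℤ) < s := by exact_mod_cast ht
    linarith
  have h5 : (D : ℤ) ≤ u + 2 * (s - 1) := by
    have : D ≤ u + 2 * t := by omega
    have h6 : (D : ℤ) ≤ u + 2 * t := by exact_mod_cast this
    have : (t : ℤ) < s := by exact_mod_cast ht
    linarith
  have hms : (s : ℤ) + 1 ≤ m := by exact_mod_cast hsm
  have hs0 : (0 : ℤ) ≤ s := by positivity
  have h6 : (s : ℤ) * ((D : ℤ) - (m + s - 1)) ≤ s * (u - 2) := by
    apply mul_le_mul_of_nonneg_left _ hs0
    linarith
  nlinarith

/-- the local inequality at a vertex of high degree, case `s = m ≥ 3` -/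
lemma high_eq [Fintype V] {H : SimpleGraph V} {c : Sym2 V → ℕ} (hc : ProperColouring H c)
    (hcod : ∀ x y, x ≠ y → ∀ A : Finset V, (∀ w ∈ A, H.Adj x w ∧ H.Adj y w) → A.card ≤ 2)
    {Sv : Finset V} {x : V} (hx : x ∈ Sv) {s : ℕ} (hs : 3 ≤ s)
    (hD : 2 * s ≤ (nb H Sv x).card)
    (hno : ∀ M, RM H c Sv x M → M.card < s) :
    ((s : ℤ) - 1) * ((nb H Sv x).card - (2 * s - 1)) ≤
      ∑ y ∈ nb H Sv x, max 0 (2 * (s : ℤ) - 1 - (nb H Sv y).card) := by
  classical
  set D := (nb H Sv x).card with hDdef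
  set G := ∑ y ∈ nb H Sv x, max 0 (2 * (s : ℤ) - 1 - (nb H Sv y).card) with hG
  have hs0 : (3 : ℤ) ≤ s := by exact_mod_cast hs
  -- lower bound for the sum over the unused neighbours
  have hpart : ∀ M, RM H c Sv x M → ∑ y ∈ Ys H c Sv x M, (2 * (s : ℤ) - 1 - (nb H Sv y).card) =
      (Ys H c Sv x M).card * (2 * s - 2) - ∑ y ∈ Ys H c Sv x M, ((Es H Sv x y).card : ℤ) := by
    intro M _
    have : ∀ y ∈ Ys H c Sv x M, (2 * (s : ℤ) - 1 - (nb H Sv y).card) =
        (2 * s - 2) - ((Es H Sv x y).card : ℤ) := by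
      intro y hy
      rw [card_Es hx (mem_Ys.mp hy).1]
      push_cast; ring
    rw [Finset.sum_congr rfl this, Finset.sum_sub_distrib, Finset.sum_const, nsmul_eq_mul]
  have hpos : ∀ M, RM H c Sv x M → ∑ y ∈ Ys H c Sv x M, (2 * (s : ℤ) - 1 - (nb H Sv y).card) ≤
      ∑ y ∈ Ys H c Sv x M, max 0 (2 * (s : ℤ) - 1 - (nb H Sv y).card) := by
    intro M _
    exact Finset.sum_le_sum fun y _ => le_max_right _ _
  have hle : ∀ M, RM H c Sv x M → ∑ y ∈ Ys H c Sv x M,
      max 0 (2 * (s : ℤ) - 1 - (nb H Sv y).card) ≤ G := by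
    intro M _
    exact Finset.sum_le_sum_of_subset_of_nonneg
      (fun y hy => (mem_Ys.mp hy).1) (fun y _ _ => le_max_left _ _)
  -- systems with at least three unused neighbours
  have hthree : ∀ M, RM H c Sv x M → (∀ M', RM H c Sv x M' → M'.card ≤ M.card) →
      3 ≤ (Ys H c Sv x M).card → ((s : ℤ) - 1) * ((Ys H c Sv x M).card - 1) ≤ G := by
    intro M hM hmax hu3
    have hsum := sum_Es_le_three hc hcod hM hmax hu3
    have h3 : ∑ y ∈ Ys H c Sv x M, ((Es H Sv x y).card : ℤ) ≤
        M.card * ((Ys H c Sv x M).card + 1) := by exact_mod_cast hsum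
    have ht : (M.card : ℤ) ≤ s - 1 := by
      have := hno M hM
      have : (M.card : ℤ) < s := by exact_mod_cast this
      linarith
    have h4 : (M.card : ℤ) * ((Ys H c Sv x M).card + 1) ≤
        (s - 1) * ((Ys H c Sv x M).card + 1) :=
      mul_le_mul_of_nonneg_right ht (by positivity)
    have h5 := hpart M hM
    have h6 := hpos M hM
    have h7 := hle M hM
    nlinarith
  obtain ⟨M, hM, hmax⟩ := exists_max_RM (H := H) (c := c) (Sv := Sv) x
  have ht := hno M hM
  have hu := card_Ys (M := M) (x := x) (Sv := Sv) hc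
  have hV := card_VM (c := c) (x := x) (M := M)
  by_cases hu3 : 3 ≤ (Ys H c Sv x M).card
  · refine le_trans ?_ (hthree M hM hmax hu3)
    apply mul_le_mul_of_nonneg_left _ (by linarith)
    have : D ≤ (Ys H c Sv x M).card + 2 * (s - 1) := by omega
    have h5 : (D : ℤ) ≤ (Ys H c Sv x M).card + 2 * ((s - 1 : ℕ) : ℤ) := by exact_mod_cast this
    rw [Nat.cast_sub (by omega)] at h5
    push_cast at h5
    linarith
  · have htc : M.card = s - 1 := by omega
    have hDc : D = 2 * s := by omega
    have hgoal : ((s : ℤ) - 1) * ((D : ℤ) - (2 * s - 1)) = s - 1 := by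
      rw [hDc]; push_cast; ring
    rw [hgoal]
    by_contra hcon
    push Not at hcon
    have hcon' : G ≤ s - 2 := by linarith
    -- every maximum system has exactly two unused neighbours
    have htwo : ∀ M', RM H c Sv x M' → M'.card = M.card → (Ys H c Sv x M').card = 2 ∧
        (s : ℤ) - 2 ≤ ∑ y ∈ Ys H c Sv x M', max 0 (2 * (s : ℤ) - 1 - (nb H Sv y).card) := by
      intro M' hM' hc'
      have hmax' : ∀ M'', RM H c Sv x M'' → M''.card ≤ M'.card := by
        intro M'' hM''
        rw [hc']; exact hmax M'' hM''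
      have hu' := card_Ys (M := M') (x := x) (Sv := Sv) hc
      have hV' := card_VM (c := c) (x := x) (M := M')
      have h2 : (Ys H c Sv x M').card = 2 := by
        by_contra hne
        have h3 : 3 ≤ (Ys H c Sv x M').card := by omega
        have := hthree M' hM' hmax' h3
        have h4 : (3 : ℤ) ≤ (Ys H c Sv x M').card := by exact_mod_cast h3
        nlinarith
      refine ⟨h2, ?_⟩
      have hsum := sum_Es_le_two hc hcod hM' hmax' h2
      have h3 : ∑ y ∈ Ys H c Sv x M', ((Es H Sv x y).card : ℤ) ≤ 3 * (s - 1) + 1 := by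
        have : ∑ y ∈ Ys H c Sv x M', (Es H Sv x y).card ≤ 3 * (s - 1) + 1 := by
          rw [hc', htc] at hsum; exact hsum
        have h4 : ∑ y ∈ Ys H c Sv x M', ((Es H Sv x y).card : ℤ) ≤ 3 * ((s - 1 : ℕ) : ℤ) + 1 := by
          exact_mod_cast this
        rw [Nat.cast_sub (by omega)] at h4
        push_cast at h4
        exact h4
      have h5 := hpart M' hM'
      have h6 := hpos M' hM'
      rw [h2] at h5
      push_cast at h5
      linarith
    obtain ⟨h2, h2'⟩ := htwo M hM rfl
    -- every unused neighbour has no deficiency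
    have hzero : ∀ y ∈ Ys H c Sv x M, max 0 (2 * (s : ℤ) - 1 - (nb H Sv y).card) ≤ 0 := by
      intro y hy
      have hE : M.card < (Es H Sv x y).card := by
        by_contra hle'
        push Not at hle'
        have h8 : max 0 (2 * (s : ℤ) - 1 - (nb H Sv y).card) ≤ G :=
          Finset.single_le_sum (f := fun y => max 0 (2 * (s : ℤ) - 1 - (nb H Sv y).card))
            (fun _ _ => le_max_left _ _) (mem_Ys.mp hy).1
        have h9 := card_Es hx (mem_Ys.mp hy).1
        have h10 : (nb H Sv y).card ≤ s := by omega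
        have h11 : ((nb H Sv y).card : ℤ) ≤ s := by exact_mod_cast h10
        have h12 := le_max_right 0 (2 * (s : ℤ) - 1 - (nb H Sv y).card)
        linarith
      obtain ⟨M', hM', hcM', hyM'⟩ := exchange_in hc hM hmax hy hE
      obtain ⟨-, h3⟩ := htwo M' hM' hcM'
      have hins : ∑ y ∈ insert y (Ys H c Sv x M'), max 0 (2 * (s : ℤ) - 1 - (nb H Sv y).card) ≤
          G := by
        apply Finset.sum_le_sum_of_subset_of_nonneg
        · intro w hw
          rw [Finset.mem_insert] at hw
          rcases hw with rfl | hw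
          · exact (mem_Ys.mp hy).1
          · exact (mem_Ys.mp hw).1
        · intro _ _ _; exact le_max_left _ _
      rw [Finset.sum_insert hyM'] at hins
      linarith
    have h4 := Finset.sum_le_sum hzero
    rw [Finset.sum_const_zero] at h4
    linarith

/-- Discharging. -/
lemma discharge {H : SimpleGraph V} {Sv : Finset V} {κ : ℤ} {C : ℤ} (hC : 0 < C) (g : V → ℤ)
    (h1 : ∀ x ∈ Sv, κ < (nb H Sv x).card →
      C * ((nb H Sv x).card - κ) ≤ ∑ y ∈ nb H Sv x, g y)
    (h2 : ∀ y ∈ Sv, (open Classical in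
        (((nb H Sv y).filter (fun x => κ < (nb H Sv x).card)).card : ℤ) * g y) ≤
      C * max 0 (κ - (nb H Sv y).card)) :
    ∑ v ∈ Sv, ((nb H Sv v).card : ℤ) ≤ κ * Sv.card := by
  classical
  have key : C * ∑ v ∈ Sv, (((nb H Sv v).card : ℤ) - κ) ≤ 0 := by
    set Hi := Sv.filter (fun x => κ < (nb H Sv x).card) with hHi
    have e1 : ∑ v ∈ Sv, (((nb H Sv v).card : ℤ) - κ) =
        ∑ v ∈ Hi, (((nb H Sv v).card : ℤ) - κ) - ∑ v ∈ Sv, max 0 (κ - (nb H Sv v).card) := by
      rw [hHi, Finset.sum_filter, ← Finset.sum_sub_distrib]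
      apply Finset.sum_congr rfl
      intro v _
      split_ifs with h
      · rw [max_eq_left (by linarith)]; ring
      · push Not at h
        rw [max_eq_right (by linarith)]; ring
    have e2 : C * ∑ v ∈ Hi, (((nb H Sv v).card : ℤ) - κ) ≤ ∑ x ∈ Hi, ∑ y ∈ nb H Sv x, g y := by
      rw [Finset.mul_sum]
      apply Finset.sum_le_sum
      intro x hx
      exact h1 x (Finset.mem_filter.mp hx).1 (Finset.mem_filter.mp hx).2
    have e3 : ∑ x ∈ Hi, ∑ y ∈ nb H Sv x, g y =
        ∑ y ∈ Sv, (((nb H Sv y).filter (fun x => κ < (nb H Sv x).card)).card : ℤ) * g y := by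
      have f1 : ∀ x ∈ Hi, ∑ y ∈ nb H Sv x, g y = ∑ y ∈ Sv, if H.Adj x y then g y else 0 := by
        intro x _
        rw [← Finset.sum_filter]
        apply Finset.sum_congr _ (fun _ _ => rfl)
        ext y
        rw [mem_nb, Finset.mem_filter]
      rw [Finset.sum_congr rfl f1, Finset.sum_comm]
      apply Finset.sum_congr rfl
      intro y _
      rw [← Finset.sum_filter, Finset.sum_const, nsmul_eq_mul]
      congr 3
      ext x
      rw [Finset.mem_filter, Finset.mem_filter, Finset.mem_filter, mem_nb]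
      constructor
      · rintro ⟨⟨a, b⟩, c'⟩; exact ⟨⟨a, c'.symm⟩, b⟩
      · rintro ⟨⟨a, c'⟩, b⟩; exact ⟨⟨a, b⟩, c'.symm⟩
    have e4 : ∑ y ∈ Sv, (((nb H Sv y).filter (fun x => κ < (nb H Sv x).card)).card : ℤ) * g y ≤
        ∑ y ∈ Sv, C * max 0 (κ - (nb H Sv y).card) := by
      apply Finset.sum_le_sum
      intro y hy
      exact h2 y hy
    rw [← Finset.mul_sum] at e4
    rw [e1, mul_sub]
    linarith
  have h3 : ∑ v ∈ Sv, (((nb H Sv v).card : ℤ) - κ) ≤ 0 := by
    by_contra hcon
    push Not at hcon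
    have := mul_pos hC hcon
    linarith
  rw [Finset.sum_sub_distrib, Finset.sum_const, nsmul_eq_mul] at h3
  linarith

end Pool.Agent.Lib.MP_233400_co
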