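import Mathlib
import Pool.Agent.Lib.MP_233400_co.Spider

set_option autoImplicit false

namespace Pool.Agent.Lib.MP_233400_co

open Finset

variable {W : Type*}

/-- a system of legs gives a rainbow spider -/
lemma spider_of_RM [Fintype W] {n : ℕ} {H : SimpleGraph (Fin n → Bool)} (hH : H ≤ Q n)
    {c : Sym2 (Fin n → Bool) → ℕ} (hc : ProperColouring H c)
    {T : SimpleGraph W} {r : W} {par : W → W}
    (hpar : ∀ v, v ≠ r → T.Adj (par v) v ∧ T.dist r (par v) + 1 = T.dist r v)
    (hedge : ∀ u v, T.Adj u v → (v ≠ r ∧ par v = u) ∨ (u ≠ r ∧ par u = v))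
    (hdist : ∀ w, T.dist r w ≤ 2)
    (hdeg2 : ∀ u, T.Adj r u → (nb T Finset.univ u).card ≤ 2)
    {L Gc : Finset W} (hL : ∀ u, u ∈ L ↔ T.Adj r u ∧ ∀ w, T.Adj u w → w = r)
    (hGc : ∀ v, v ∈ Gc ↔ v ≠ r ∧ par v ≠ r)
    {Sv : Finset (Fin n → Bool)} {x0 : Fin n → Bool} (hx : x0 ∈ Sv)
    {M : Finset ((Fin n → Bool) × (Fin n → Bool))}
    (hM : RM H c Sv x0 M) (hMc : M.card = Gc.card)
    (hLc : L.card ≤ (Ys H c Sv x0 M).card) :
    HasRainbowCopy H c T := by
  classical
  have hGadj : ∀ g ∈ Gc, T.Adj r (par g) ∧ par (par g) = r := by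
    intro g hg
    obtain ⟨h1, h2⟩ := (hGc g).mp hg
    obtain ⟨h3, h4⟩ := hpar g h1
    have h5 := hdist g
    have h6 := (hpar _ h2).2
    have hadj : T.Adj r (par g) := by
      apply SimpleGraph.dist_eq_one_iff_adj.mp
      omega
    refine ⟨hadj, ?_⟩
    rcases hedge r _ hadj with h | h
    · exact h.2
    · exact absurd rfl h.1
  have hparinj : ∀ g ∈ Gc, ∀ g' ∈ Gc, par g = par g' → g = g' := by
    intro g hg g' hg' he
    by_contra hne
    have h1 := (hGadj g hg).1
    have h2 := hdeg2 _ h1
    have hgr := ((hGc g).mp hg).1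
    have hgr' := ((hGc g').mp hg').1
    have hsub : ({r, g, g'} : Finset W) ⊆ nb T Finset.univ (par g) := by
      intro w hw
      simp only [Finset.mem_insert, Finset.mem_singleton] at hw
      rcases hw with rfl | rfl | rfl
      · exact mem_nb.mpr ⟨Finset.mem_univ _, h1.symm⟩
      · exact mem_nb.mpr ⟨Finset.mem_univ _, (hpar _ hgr).1⟩
      · exact mem_nb.mpr ⟨Finset.mem_univ _, he ▸ (hpar _ hgr').1⟩
    have h3 := Finset.card_le_card hsub
    rw [Finset.card_eq_three.mpr ⟨r, g, g', hgr.symm, hgr'.symm, hne, rfl⟩] at h3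
    omega
  obtain ⟨σ⟩ : Nonempty (Gc ≃ M) := ⟨Fintype.equivOfCardEq (by simp [hMc])⟩
  let f : W → (Fin n → Bool) := fun v =>
    if hv : v ∈ Gc then (σ ⟨v, hv⟩ : (Fin n → Bool) × (Fin n → Bool)).2
    else if h : ∃ g : Gc, par g = v then (σ h.choose : (Fin n → Bool) × (Fin n → Bool)).1
    else x0
  have hfg : ∀ g (hg : g ∈ Gc), f g = (σ ⟨g, hg⟩ : (Fin n → Bool) × (Fin n → Bool)).2 := by
    intro g hg
    exact dif_pos hg
  have hparnot : ∀ g ∈ Gc, par g ∉ Gc := by
    intro g hg hm
    exact ((hGc _).mp hm).2 (hGadj g hg).2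
  have hfp : ∀ g (hg : g ∈ Gc), f (par g) =
      (σ ⟨g, hg⟩ : (Fin n → Bool) × (Fin n → Bool)).1 := by
    intro g hg
    have hex : ∃ g' : Gc, par g' = par g := ⟨⟨g, hg⟩, rfl⟩
    have h1 : f (par g) = (σ hex.choose : (Fin n → Bool) × (Fin n → Bool)).1 := by
      simp only [f]
      rw [dif_neg (hparnot g hg), dif_pos hex]
    have h2 : hex.choose = ⟨g, hg⟩ := by
      apply Subtype.ext
      exact hparinj _ hex.choose.2 _ hg hex.choose_spec
    rw [h1, h2]
  have hrG : r ∉ Gc := fun h => ((hGc r).mp h).1 rfl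
  have hfr : f r = x0 := by
    simp only [f]
    rw [dif_neg hrG, dif_neg]
    rintro ⟨g, hg⟩
    exact ((hGc _).mp g.2).2 hg
  have hrL : r ∉ L := fun h => ((hL r).mp h).1.ne rfl
  -- the vertices of `S0`
  have hS0 : ∀ v, v ∈ Lᶜ → v ≠ r → v ∈ Gc ∨ ∃ g ∈ Gc, par g = v := by
    intro v hv hvr
    by_cases hp : par v = r
    · right
      have hrv : T.Adj r v := hp ▸ (hpar v hvr).1
      rw [Finset.mem_compl, hL] at hv
      push Not at hv
      obtain ⟨w, hw, hwr⟩ := hv hrv
      rcases hedge v w hw with h | h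
      · exact ⟨w, (hGc w).mpr ⟨h.1, by rw [h.2]; exact hvr⟩, h.2⟩
      · exact absurd (h.2.symm.trans hp) hwr
    · left; exact (hGc v).mpr ⟨hvr, hp⟩
  -- parities
  have hσ : ∀ g (hg : g ∈ Gc), ((σ ⟨g, hg⟩ : M) : (Fin n → Bool) × (Fin n → Bool)) ∈ M :=
    fun g hg => (σ ⟨g, hg⟩).2
  have hpy : ∀ p ∈ M, parity p.1 = !parity x0 := fun p hp =>
    Q_adj_parity (hH (mem_nb.mp (hM.adj1 p hp)).2)
  have hpz : ∀ p ∈ M, parity p.2 = parity x0 := fun p hp => by
    rw [Q_adj_parity (hH (mem_nb.mp (hM.adj2 p hp)).2), hpy p hp, Bool.not_not]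
  have hσinj : ∀ g (hg : g ∈ Gc) g' (hg' : g' ∈ Gc),
      ((σ ⟨g, hg⟩ : M) : (Fin n → Bool) × (Fin n → Bool)) = (σ ⟨g', hg'⟩ : M) → g = g' := by
    intro g hg g' hg' he
    have := σ.injective (Subtype.ext he)
    exact congrArg Subtype.val this
  have hPE : PE H c Sv par r x0 Lᶜ f := by
    refine ⟨?_, ?_, ?_, ?_, hfr, ?_⟩
    · intro u hu v hv huv
      by_cases hur : u = r
      · by_cases hvr : v = r
        · rw [hur, hvr]
        · exfalso
          rw [hur, hfr] at huv
          rcases hS0 v hv hvr with h | ⟨g, hg, rfl⟩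
          · rw [hfg v h] at huv
            exact hM.nex _ (hσ v h) huv.symm
          · rw [hfp g hg] at huv
            exact (mem_nb.mp (hM.adj1 _ (hσ g hg))).2.ne huv
      · by_cases hvr : v = r
        · exfalso
          rw [hvr, hfr] at huv
          rcases hS0 u hu hur with h | ⟨g, hg, rfl⟩
          · rw [hfg u h] at huv
            exact hM.nex _ (hσ u h) huv
          · rw [hfp g hg] at huv
            exact (mem_nb.mp (hM.adj1 _ (hσ g hg))).2.ne huv.symm
        · rcases hS0 u hu hur with h | ⟨g, hg, rfl⟩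
          · rcases hS0 v hv hvr with h' | ⟨g', hg', rfl⟩
            · rw [hfg u h, hfg v h'] at huv
              exact hσinj _ _ _ _ (hM.zz _ (hσ u h) _ (hσ v h') huv)
            · exfalso
              rw [hfg u h, hfp g' hg'] at huv
              have e1 := hpz _ (hσ u h)
              have e2 := hpy _ (hσ g' hg')
              rw [huv, e2] at e1
              simp at e1
          · rcases hS0 v hv hvr with h' | ⟨g', hg', rfl⟩
            · exfalso
              rw [hfp g hg, hfg v h'] at huv
              have e1 := hpz _ (hσ v h')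
              have e2 := hpy _ (hσ g hg)
              rw [← huv, e2] at e1
              simp at e1
            · rw [hfp g hg, hfp g' hg'] at huv
              have := hM.c11 _ (hσ g hg) _ (hσ g' hg') (by rw [huv])
              rw [hσinj _ _ _ _ this]
    · intro v hv
      by_cases hvr : v = r
      · rw [hvr, hfr]; exact hx
      · rcases hS0 v hv hvr with h | ⟨g, hg, rfl⟩
        · rw [hfg v h]; exact (mem_nb.mp (hM.adj2 _ (hσ v h))).1
        · rw [hfp g hg]; exact (mem_nb.mp (hM.adj1 _ (hσ g hg))).1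
    · intro v hv hvr
      rcases hS0 v hv hvr with h | ⟨g, hg, rfl⟩
      · rw [hfg v h, hfp v h]; exact (mem_nb.mp (hM.adj2 _ (hσ v h))).2
      · rw [(hGadj g hg).2, hfr, hfp g hg]; exact (mem_nb.mp (hM.adj1 _ (hσ g hg))).2
    · intro u hu v hv hur hvr huv
      rcases hS0 u hu hur with h | ⟨g, hg, rfl⟩
      · rcases hS0 v hv hvr with h' | ⟨g', hg', rfl⟩
        · rw [hfg u h, hfp u h, hfg v h', hfp v h'] at huv
          exact hσinj _ _ _ _ (hM.c22 _ (hσ u h) _ (hσ v h') huv)
        · exfalso
          rw [hfg u h, hfp u h, (hGadj g' hg').2, hfr, hfp g' hg'] at huv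
          exact hM.c12 _ (hσ g' hg') _ (hσ u h) huv.symm
      · rcases hS0 v hv hvr with h' | ⟨g', hg', rfl⟩
        · exfalso
          rw [hfg v h', hfp v h', (hGadj g hg).2, hfr, hfp g hg] at huv
          exact hM.c12 _ (hσ g hg) _ (hσ v h') huv
        · rw [(hGadj g hg).2, hfr, hfp g hg, (hGadj g' hg').2, hfr, hfp g' hg'] at huv
          rw [hσinj _ _ _ _ (hM.c11 _ (hσ g hg) _ (hσ g' hg') huv)]
    · intro v hv hvr hpv
      rcases hS0 v hv hvr with h | ⟨g, hg, rfl⟩
      · rw [hfg v h]
        intro hadj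
        have e1 := hpz _ (hσ v h)
        have e2 := Q_adj_parity (hH hadj)
        rw [e1] at e2
        simp at e2
      · exact absurd (hGadj g hg).2 hpv
  apply finish_av hc hpar hedge hL (fun u => Finset.mem_compl) hPE
  refine hLc.trans (Finset.card_le_card ?_)
  intro w hw
  obtain ⟨h1, h2⟩ := mem_Ys.mp hw
  rw [mem_av]
  refine ⟨h1, ?_⟩
  intro v hv hvr he
  apply h2
  rw [← he]
  rcases hS0 v hv hvr with h | ⟨g, hg, rfl⟩
  · rw [hfg v h, hfp v h]
    exact mem_VM.mpr (Or.inr ⟨_, hσ v h, rfl⟩)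
  · rw [(hGadj g hg).2, hfr, hfp g hg]
    exact mem_VM.mpr (Or.inl ⟨_, hσ g hg, rfl⟩)

/-- all spiders with at least three legs, legs of length at most two -/
lemma embed_spider [Fintype W] {n : ℕ} {H : SimpleGraph (Fin n → Bool)} (hH : H ≤ Q n)
    {c : Sym2 (Fin n → Bool) → ℕ} (hc : ProperColouring H c)
    {T : SimpleGraph W} (hT : T.IsTree) {k : ℕ} (hk : T.edgeSet.ncard = k) {r : W}
    (hdist : ∀ w, T.dist r w ≤ 2)
    (hdeg2 : ∀ u, T.Adj r u → (nb T Finset.univ u).card ≤ 2)
    (hdeg3 : 3 ≤ (nb T Finset.univ r).card)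
    {Sv : Finset (Fin n → Bool)}
    (havg : ((k : ℤ) - 1) * Sv.card < ∑ v ∈ Sv, ((nb H Sv v).card : ℤ)) :
    HasRainbowCopy H c T := by
  classical
  by_contra hno
  have hcod : ∀ x y : Fin n → Bool, x ≠ y → ∀ A : Finset (Fin n → Bool),
      (∀ w ∈ A, H.Adj x w ∧ H.Adj y w) → A.card ≤ 2 := by
    intro x y hxy A hA
    exact Q_codeg hxy A fun w hw => ⟨hH (hA w hw).1, hH (hA w hw).2⟩
  obtain ⟨par, hpar, hedge⟩ := exists_parent hT r
  set L : Finset W := Finset.univ.filter (fun u => T.Adj r u ∧ ∀ w, T.Adj u w → w = r) with hLdef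
  have hL : ∀ u, u ∈ L ↔ T.Adj r u ∧ ∀ w, T.Adj u w → w = r := by
    intro u; rw [hLdef]; simp
  set Gc : Finset W := Finset.univ.filter (fun v => v ≠ r ∧ par v ≠ r) with hGdef
  have hGc : ∀ v, v ∈ Gc ↔ v ≠ r ∧ par v ≠ r := by
    intro v; rw [hGdef]; simp
  set s := Gc.card with hs
  set m := (nb T Finset.univ r).card with hm
  -- children of the root
  have hchild : ∀ v, v ∈ nb T Finset.univ r ↔ v ≠ r ∧ par v = r := by
    intro v
    rw [mem_nb]
    constructor
    · rintro ⟨-, h⟩
      refine ⟨h.ne', ?_⟩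
      rcases hedge r v h with h' | h'
      · exact h'.2
      · exact absurd rfl h'.1
    · rintro ⟨h1, h2⟩
      exact ⟨Finset.mem_univ _, h2 ▸ (hpar v h1).1⟩
  have hcardW : Fintype.card W = k + 1 := by
    have := hT.card_edgeFinset
    rw [← hk, ← SimpleGraph.coe_edgeFinset, Set.ncard_coe_finset]
    exact this.symm
  have hkms : m + s = k := by
    have h1 : (Finset.univ : Finset W) = insert r (nb T Finset.univ r ∪ Gc) := by
      ext v
      simp only [Finset.mem_univ, Finset.mem_insert, Finset.mem_union, true_iff]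
      by_cases hvr : v = r
      · left; exact hvr
      · right
        by_cases hp : par v = r
        · left; exact (hchild v).mpr ⟨hvr, hp⟩
        · right; exact (hGc v).mpr ⟨hvr, hp⟩
    have h2 : Disjoint (nb T Finset.univ r) Gc := by
      rw [Finset.disjoint_left]
      intro v hv hv'
      exact ((hGc v).mp hv').2 ((hchild v).mp hv).2
    have h3 : r ∉ nb T Finset.univ r ∪ Gc := by
      rw [Finset.mem_union]
      rintro (h | h)
      · exact ((hchild r).mp h).1 rfl
      · exact ((hGc r).mp h).1 rfl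
    have h4 := congrArg Finset.card h1
    rw [Finset.card_insert_of_notMem h3, Finset.card_union_of_disjoint h2, Finset.card_univ,
      hcardW] at h4
    omega
  have hGadj : ∀ g ∈ Gc, T.Adj r (par g) ∧ par (par g) = r := by
    intro g hg
    obtain ⟨h1, h2⟩ := (hGc g).mp hg
    obtain ⟨h3, h4⟩ := hpar g h1
    have h5 := hdist g
    have h6 := (hpar _ h2).2
    have hadj : T.Adj r (par g) := by
      apply SimpleGraph.dist_eq_one_iff_adj.mp
      omega
    refine ⟨hadj, ?_⟩
    rcases hedge r _ hadj with h | h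
    · exact h.2
    · exact absurd rfl h.1
  have hparinj : ∀ g ∈ Gc, ∀ g' ∈ Gc, par g = par g' → g = g' := by
    intro g hg g' hg' he
    by_contra hne
    have h1 := (hGadj g hg).1
    have h2 := hdeg2 _ h1
    have hgr := ((hGc g).mp hg).1
    have hgr' := ((hGc g').mp hg').1
    have hsub : ({r, g, g'} : Finset W) ⊆ nb T Finset.univ (par g) := by
      intro w hw
      simp only [Finset.mem_insert, Finset.mem_singleton] at hw
      rcases hw with rfl | rfl | rfl
      · exact mem_nb.mpr ⟨Finset.mem_univ _, h1.symm⟩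
      · exact mem_nb.mpr ⟨Finset.mem_univ _, (hpar _ hgr).1⟩
      · exact mem_nb.mpr ⟨Finset.mem_univ _, he ▸ (hpar _ hgr').1⟩
    have h3 := Finset.card_le_card hsub
    rw [Finset.card_eq_three.mpr ⟨r, g, g', hgr.symm, hgr'.symm, hne, rfl⟩] at h3
    omega
  -- `L` and the parents of `Gc` partition the children of the root
  have hLs : L.card + s = m := by
    have h1 : nb T Finset.univ r = L ∪ Gc.image par := by
      ext v
      rw [Finset.mem_union, Finset.mem_image]
      constructor
      · intro hv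
        by_cases hvL : v ∈ L
        · left; exact hvL
        · right
          have hrv := (mem_nb.mp hv).2
          rw [hL] at hvL
          push Not at hvL
          obtain ⟨w, hw, hwr⟩ := hvL hrv
          rcases hedge v w hw with h | h
          · exact ⟨w, (hGc w).mpr ⟨h.1, by rw [h.2]; exact hrv.ne'⟩, h.2⟩
          · exact absurd (h.2.symm.trans ((hchild v).mp hv).2) hwr
      · rintro (h | ⟨g, hg, rfl⟩)
        · exact mem_nb.mpr ⟨Finset.mem_univ _, ((hL v).mp h).1⟩
        · exact mem_nb.mpr ⟨Finset.mem_univ _, (hGadj g hg).1⟩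
    have h2 : Disjoint L (Gc.image par) := by
      rw [Finset.disjoint_left]
      intro v hv hv'
      obtain ⟨g, hg, rfl⟩ := Finset.mem_image.mp hv'
      have := ((hL _).mp hv).2 g (hpar g ((hGc g).mp hg).1).1
      exact ((hGc g).mp hg).1 this
    rw [hm, h1, Finset.card_union_of_disjoint h2, Finset.card_image_of_injOn]
    intro g hg g' hg' he
    exact hparinj g hg g' hg' he
  -- no long systems at vertices of high degree
  have hsmall : ∀ x ∈ Sv, m + s ≤ (nb H Sv x).card → ∀ M, RM H c Sv x M → M.card < s := by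
    intro x hx hD M hM
    by_contra hcon
    push Not at hcon
    obtain ⟨M', hM'M, hM'c⟩ := Finset.exists_subset_card_eq hcon
    have hM' : RM H c Sv x M' :=
      ⟨fun p hp => hM.adj1 p (hM'M hp), fun p hp => hM.adj2 p (hM'M hp),
       fun p hp => hM.nex p (hM'M hp), fun p hp q hq => hM.c11 p (hM'M hp) q (hM'M hq),
       fun p hp q hq => hM.c12 p (hM'M hp) q (hM'M hq),
       fun p hp q hq => hM.c22 p (hM'M hp) q (hM'M hq),
       fun p hp q hq => hM.zz p (hM'M hp) q (hM'M hq)⟩
    apply hno
    refine spider_of_RM hH hc hpar hedge hdist hdeg2 hL hGc hx hM' hM'c ?_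
    have h1 := card_Ys (M := M') (x := x) (Sv := Sv) hc
    have h2 := card_VM (c := c) (x := x) (M := M')
    omega
  have hkR : ((k : ℤ) - 1) = (m + s - 1 : ℤ) := by rw [← hkms]; push_cast; ring
  rw [hkR] at havg
  rcases Nat.eq_zero_or_pos s with hs0 | hs0
  · -- stars
    obtain ⟨x, hx, hxd⟩ : ∃ x ∈ Sv, m + s ≤ (nb H Sv x).card := by
      by_contra hcon
      push Not at hcon
      have : ∑ v ∈ Sv, ((nb H Sv v).card : ℤ) ≤ ∑ v ∈ Sv, ((m : ℤ) + s - 1) := by
        apply Finset.sum_le_sum
        intro v hv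
        have := hcon v hv
        have : ((nb H Sv v).card : ℤ) < ((m + s : ℕ) : ℤ) := by exact_mod_cast this
        push_cast at this
        linarith
      rw [Finset.sum_const, nsmul_eq_mul] at this
      linarith
    have := hsmall x hx hxd ∅ RM.empty
    omega
  rcases lt_or_ge s m with hsm | hsm
  · -- case `s < m`
    have hs0' : (0 : ℤ) < s := by exact_mod_cast hs0
    have := discharge (H := H) (Sv := Sv) (κ := (m : ℤ) + s - 1) (C := s) hs0'
      (fun y => max 0 (3 * (s : ℤ) - 2 * (nb H Sv y).card)) (by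
        intro x hx hxd
        have hxd' : m + s ≤ (nb H Sv x).card := by
          have : ((m + s : ℕ) : ℤ) ≤ (nb H Sv x).card := by push_cast; linarith
          exact_mod_cast this
        exact high_lt hc hcod hx hsm hxd' (hsmall x hx hxd')) (by
        intro y hy
        set d : ℤ := ((nb H Sv y).card : ℤ) with hd
        set h : ℤ := (((nb H Sv y).filter (fun x => (m : ℤ) + s - 1 < (nb H Sv x).card)).card : ℤ)
          with hh
        have hhd : h ≤ d := by
          rw [hh, hd]
          exact_mod_cast Finset.card_filter_le _ _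
        have hd0 : 0 ≤ d := by rw [hd]; positivity
        have hms : (s : ℤ) + 1 ≤ m := by exact_mod_cast hsm
        rcases le_or_gt (3 * (s : ℤ) - 2 * d) 0 with hneg | hposi
        · rw [max_eq_left hneg, mul_zero]
          exact mul_nonneg hs0'.le (le_max_left _ _)
        · rw [max_eq_right hposi.le]
          have h1 : h * (3 * (s : ℤ) - 2 * d) ≤ d * (3 * s - 2 * d) :=
            mul_le_mul_of_nonneg_right hhd hposi.le
          have h2 : d * (3 * (s : ℤ) - 2 * d) ≤ s * (2 * s - d) := by
            nlinarith [sq_nonneg ((s : ℤ) - d)]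
          have h3 : (s : ℤ) * (2 * s - d) ≤ s * max 0 ((m : ℤ) + s - 1 - d) := by
            apply mul_le_mul_of_nonneg_left _ hs0'.le
            refine le_trans ?_ (le_max_right _ _)
            linarith
          linarith)
    linarith
  · -- case `s = m`
    have hsm' : s = m := by omega
    have hs3 : 3 ≤ s := by omega
    have hs3' : (3 : ℤ) ≤ s := by exact_mod_cast hs3
    have hmZ : (m : ℤ) = s := by rw [← hsm']
    rw [hmZ] at havg
    -- a vertex has few neighbours of high degree
    have hfew : ∀ y ∈ Sv,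
        ((nb H Sv y).filter (fun x => (s : ℤ) + s - 1 < (nb H Sv x).card)).card ≤ s - 1 := by
      intro y hy
      by_contra hcon
      push Not at hcon
      obtain ⟨X, hX, hXc⟩ := Finset.exists_subset_card_eq (by omega :
        s ≤ ((nb H Sv y).filter (fun x => (s : ℤ) + s - 1 < (nb H Sv x).card)).card)
      have hX1 : X ⊆ nb H Sv y := fun x hx => (Finset.mem_filter.mp (hX hx)).1
      obtain ⟨M, hM, hMc⟩ := RM_of_high hc hcod hX1 (by
        intro x hx
        have h1 := (Finset.mem_filter.mp (hX hx)).2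
        rw [hXc]
        have : ((2 * s : ℕ) : ℤ) ≤ (nb H Sv x).card := by push_cast; linarith
        exact_mod_cast this)
      apply hno
      refine spider_of_RM hH hc hpar hedge hdist hdeg2 hL hGc hy hM (by omega) ?_
      have : L.card = 0 := by omega
      omega
    have := discharge (H := H) (Sv := Sv) (κ := (s : ℤ) + s - 1) (C := s - 1) (by linarith)
      (fun y => max 0 (2 * (s : ℤ) - 1 - (nb H Sv y).card)) (by
        intro x hx hxd
        have hxd' : 2 * s ≤ (nb H Sv x).card := by
          have : ((2 * s : ℕ) : ℤ) ≤ (nb H Sv x).card := by push_cast; linarith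
          exact_mod_cast this
        have h1 := high_eq hc hcod hx hs3 hxd' (hsmall x hx (by omega))
        have h2 : (s : ℤ) + s - 1 = 2 * s - 1 := by ring
        rw [h2]; exact h1) (by
        intro y hy
        have h1 := hfew y hy
        have h2 : (((nb H Sv y).filter
            (fun x => (s : ℤ) + s - 1 < (nb H Sv x).card)).card : ℤ) ≤ s - 1 := by
          have : (((nb H Sv y).filter
            (fun x => (s : ℤ) + s - 1 < (nb H Sv x).card)).card : ℤ) ≤ ((s - 1 : ℕ) : ℤ) := by
            exact_mod_cast h1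
          rw [Nat.cast_sub (by omega)] at this
          simpa using this
        have h3 : (2 * (s : ℤ) - 1 - (nb H Sv y).card) = (s : ℤ) + s - 1 - (nb H Sv y).card := by
          ring
        rw [h3]
        exact mul_le_mul_of_nonneg_right h2 (le_max_left _ _))
    linarith

end Pool.Agent.Lib.MP_233400_co
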