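import Mathlib
import Pool.Agent.Lib.MP_233400_co.SpiderT

set_option autoImplicit false

namespace Pool.Agent.Lib.MP_233400_co.OldSpiders

open Pool.Agent.Lib.MP_233400_co

/-- **Theorem.** Let `T` be a tree with `k` edges that has a vertex `v` of degree at least three
such that every vertex is at distance at most two from `v` and every neighbour of `v` has degree
at most two (a spider with at least three legs, all of length one or two). Then
`ex*(Q_n, T) = ex*(Q_n, K_{1,k})` for every `n`. -/
theorem result (n k : ℕ) {W : Type} [Finite W] (T : SimpleGraph W)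
    (hT : T.IsTree) (hk : T.edgeSet.ncard = k) (v : W)
    (hv : 3 ≤ (T.neighborSet v).ncard) (hdist : ∀ w : W, T.dist v w ≤ 2)
    (hleg : ∀ u : W, T.Adj v u → (T.neighborSet u).ncard ≤ 2) :
    exStar (Q n) T = exStar (Q n) (completeBipartiteGraph (Fin 1) (Fin k)) := by
  classical
  have : Fintype W := Fintype.ofFinite W
  have hnb : ∀ u : W, (nb T Finset.univ u).card = (T.neighborSet u).ncard := by
    intro u
    rw [← Set.ncard_coe_finset]
    congr 1
    ext w
    simp [mem_nb]
  have hk1 : 1 ≤ k := by
    by_contra hcon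
    have hk0 : T.edgeSet.ncard = 0 := by omega
    rw [Set.ncard_eq_zero (Set.toFinite _)] at hk0
    have hne : (T.neighborSet v).Nonempty := by
      rw [← Set.ncard_pos (Set.toFinite _)]; omega
    obtain ⟨w, hw⟩ := hne
    have : s(v, w) ∈ T.edgeSet := hw
    rw [hk0] at this
    exact this
  apply exact_of_upper hk1 hk
  intro n H hH c hc hD
  obtain ⟨S, hS, hmin⟩ := exists_core H ((k : ℝ) - 1) hD
  refine embed_spider hH hc hT hk (r := v) hdist ?_ ?_ (Sv := S) ?_
  · intro u hu
    rw [hnb]; exact hleg u hu
  · rw [hnb]; exact hv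
  · have h1 : (((((k : ℤ) - 1) * S.card : ℤ)) : ℝ) <
        ((∑ v ∈ S, ((nb H S v).card : ℤ) : ℤ) : ℝ) := by
      push_cast
      exact hS
    exact_mod_cast h1

end Pool.Agent.Lib.MP_233400_co.OldSpiders
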