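import Mathlib
import Pool.Agent.Lib.MP_233400_co.Finish

set_option autoImplicit false

namespace Pool.Agent.Lib.MP_233400_co.OldUpperBound

open Pool.Agent.Lib.MP_233400_co

/-- **Theorem.** Let `T` be a tree with `k ≥ 1` edges and let `v` be a vertex of `T` that is
adjacent to at least `l` leaves (`l = 0` is allowed, so `v` and `l` impose no restriction on `T`).
Then for every `n`
`ex*(Q_n, T) ≤ max((k - 1) / 2, (k - l) + 8 √(k - l)) 2 ^ n`. -/
theorem result (n k l : ℕ) (hk1 : 1 ≤ k) {W : Type} [Finite W] (T : SimpleGraph W)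
    (hT : T.IsTree) (hk : T.edgeSet.ncard = k) (v : W)
    (hl : l ≤ {u : W | T.Adj v u ∧ ∀ w : W, T.Adj u w → w = v}.ncard) :
    (exStar (Q n) T : ℝ) ≤ max (((k : ℝ) - 1) / 2) (((k : ℝ) - l) + 8 * √((k : ℝ) - l)) * 2 ^ n := by
  classical
  have : Fintype W := Fintype.ofFinite W
  set L := {u : W | T.Adj v u ∧ ∀ w : W, T.Adj u w → w = v} with hL
  -- the leaves at `v` inject into the edges
  have hLk : L.ncard ≤ k := by
    rw [← hk]
    apply Set.ncard_le_ncard_of_injOn (fun u => s(v, u))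
    · intro u hu; exact hu.1
    · intro u _ w _ huw
      have h : u = w ∨ v = w ∧ u = v := by simpa using huw
      rcases h with h | ⟨h1, h2⟩
      · exact h
      · rw [h2, h1]
  obtain ⟨j, hj⟩ : ∃ j, L.ncard + j = k := ⟨k - L.ncard, by omega⟩
  have hjR : (j : ℝ) ≤ (k : ℝ) - l := by
    have : j + l ≤ k := by omega
    have : ((j + l : ℕ) : ℝ) ≤ k := by exact_mod_cast this
    push_cast at this
    linarith
  set D : ℝ := max (((k : ℝ) - 1) / 2) (((k : ℝ) - l) + 8 * √((k : ℝ) - l)) with hD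
  have hmain : ∀ H : SimpleGraph (Fin n → Bool), H ≤ Q n → ∀ c : Sym2 (Fin n → Bool) → ℕ,
      ProperColouring H c → ¬ HasRainbowCopy H c T → (H.edgeSet.ncard : ℝ) ≤ D * 2 ^ n := by
    intro H hH c hc hr
    by_contra hcon
    push Not at hcon
    apply hr
    obtain ⟨S, hS, hmin⟩ := exists_core H (2 * D) (by
      have : (Fintype.card (Fin n → Bool) : ℝ) = 2 ^ n := by simp
      rw [this]; nlinarith)
    obtain ⟨x0, hx0, hlarge⟩ := exists_large_of_core H (2 * D) S hS
    have hD1 : ((k : ℝ) - 1) / 2 ≤ D := le_max_left _ _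
    have hD2 : ((k : ℝ) - l) + 8 * √((k : ℝ) - l) ≤ D := le_max_right _ _
    refine embed_main hc ?_ hT hk (r := v) (j := j) hj hx0 ?_ ?_
    · intro x y hxy A hA
      exact Q_codeg hxy A fun w hw => ⟨hH (hA w hw).1, hH (hA w hw).2⟩
    · have h1 : (k : ℝ) - 1 < (nb H S x0).card := by linarith
      have h2 : (k : ℝ) < ((nb H S x0).card + 1 : ℕ) := by push_cast; linarith
      have h3 : k < (nb H S x0).card + 1 := by exact_mod_cast h2
      omega
    · intro u hu
      have h1 := hmin u hu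
      have h2 : √(j : ℝ) ≤ √((k : ℝ) - l) := Real.sqrt_le_sqrt hjR
      linarith
  have hfl : exStar (Q n) T ≤ ⌊D * 2 ^ n⌋₊ := by
    apply exStar_le
    intro H hH c hc hr
    exact Nat.le_floor (hmain H hH c hc hr)
  have hDpos : 0 ≤ D := by
    refine le_trans ?_ (le_max_left _ _)
    have : (1 : ℝ) ≤ k := by exact_mod_cast hk1
    linarith
  calc (exStar (Q n) T : ℝ) ≤ (⌊D * 2 ^ n⌋₊ : ℝ) := by exact_mod_cast hfl
    _ ≤ D * 2 ^ n := Nat.floor_le (by positivity)

end Pool.Agent.Lib.MP_233400_co.OldUpperBound
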